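import Pool.Agent.W422.SM.P

set_option autoImplicit false
set_option linter.unusedSectionVars false

/-! The distribution of the orders, for every prime. -/

namespace Pool.Agent.TH216.EP

open MeasureTheory Pool.Agent.W426.SM Pool.Agent.W424.SM.ZMU Pool.Agent.W22.SM.ZMA
open Pool.Agent.W422.SM

variable {n k : ℕ} {p : ℕ} [hp : Fact p.Prime]

/-- the Laurent polynomial -/
noncomputable def gz (m : Fin k → Fin n → ℕ) (w : Fin k → ℤ_[p]) (z : Fin k → ℤ)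
    (y : Fin n → ℤ_[p]) : ℚ_[p] := ∑ j, (p : ℚ_[p]) ^ z j * ((XX m w y j : ℤ_[p]) : ℚ_[p])

/-- the units where the Laurent polynomial is integral -/
def US (m : Fin k → Fin n → ℕ) (w : Fin k → ℤ_[p]) (z : Fin k → ℤ) : Set (Fin n → ℤ_[p]) :=
  {y | (∀ i, ‖y i‖ = 1) ∧ ‖gz m w z y‖ ≤ 1}

lemma pQ_ne : (p : ℚ_[p]) ≠ 0 := by exact_mod_cast hp.out.ne_zero

lemma int_iff {x : ℚ_[p]} : x ∈ PadicInt.subring p ↔ ‖x‖ ≤ 1 := PadicInt.mem_subring_iff p

lemma int_coe (x : ℤ_[p]) : (x : ℚ_[p]) ∈ PadicInt.subring p := x.2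

lemma int_zpow (z : ℤ) (hz : 0 ≤ z) (x : ℤ_[p]) :
    (p : ℚ_[p]) ^ z * (x : ℚ_[p]) ∈ PadicInt.subring p := by
  obtain ⟨a, rfl⟩ := Int.eq_ofNat_of_zero_le hz
  have h : (p : ℚ_[p]) ^ (a : ℤ) * (x : ℚ_[p]) = (((p : ℤ_[p]) ^ a * x : ℤ_[p]) : ℚ_[p]) := by
    push_cast
    rw [zpow_natCast]
  rw [h]
  exact int_coe _

lemma int_congr {x y : ℚ_[p]} (h : x - y ∈ PadicInt.subring p) : ‖x‖ ≤ 1 ↔ ‖y‖ ≤ 1 := by
  rw [← int_iff, ← int_iff]
  constructor
  · intro hx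
    have := (PadicInt.subring p).sub_mem hx h
    simpa using this
  · intro hy
    have := (PadicInt.subring p).add_mem h hy
    simpa using this

lemma US_congr (m : Fin k → Fin n → ℕ) (w : Fin k → ℤ_[p]) {z z' : Fin k → ℤ}
    (h : ∀ j, z j = z' j ∨ (0 ≤ z j ∧ 0 ≤ z' j)) : US m w z = US m w z' := by
  ext y
  unfold US
  refine and_congr Iff.rfl (int_congr ?_)
  unfold gz
  rw [← Finset.sum_sub_distrib]
  refine Subring.sum_mem _ fun j _ => ?_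
  rcases h j with h | ⟨h1, h2⟩
  · rw [h, sub_self]
    exact Subring.zero_mem _
  · exact Subring.sub_mem _ (int_zpow _ h1 _) (int_zpow _ h2 _)

lemma US_eq_VV (m : Fin k → Fin n → ℕ) (w : Fin k → ℤ_[p]) (z : Fin k → ℤ) (l : ℕ)
    (hz : ∀ j, -(l : ℤ) ≤ z j) :
    US m w z = VV m (fun j => (p : ℤ_[p]) ^ (z j + l).toNat * w j) l := by
  have hp0 : (0 : ℝ) < p := by exact_mod_cast hp.out.pos
  ext y
  unfold US VV
  refine and_congr Iff.rfl ?_
  rw [dvd_iff]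
  have h1 : ((GG m (fun j => (p : ℤ_[p]) ^ (z j + l).toNat * w j) y : ℤ_[p]) : ℚ_[p]) =
      (p : ℚ_[p]) ^ l * gz m w z y := by
    unfold GG gz XX
    rw [PadicInt.coe_sum, Finset.mul_sum]
    refine Finset.sum_congr rfl fun j _ => ?_
    have h2 : (p : ℚ_[p]) ^ (z j + l).toNat = (p : ℚ_[p]) ^ l * (p : ℚ_[p]) ^ z j := by
      rw [← zpow_natCast, ← zpow_natCast, ← zpow_add₀ pQ_ne]
      congr 1
      have := hz j
      omega
    push_cast
    rw [h2]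
    ring
  rw [PadicInt.norm_def, h1, norm_mul, Padic.norm_p_pow]
  have h3 : (0 : ℝ) < (p : ℝ) ^ (-(l : ℤ)) := zpow_pos hp0 _
  constructor
  · intro h
    exact mul_le_of_le_one_right h3.le h
  · intro h
    by_contra h4
    push Not at h4
    have := mul_lt_mul_of_pos_left h4 h3
    linarith

/-! ### the residue classes -/

lemma exists_r (A : ℚ_[p]) (X : ℤ_[p]) (hX : ‖X‖ = 1) (hA : ‖(p : ℚ_[p]) * A‖ ≤ 1) :
    ∃ r₀ : ZMod p, ∀ r : ℕ,
      ‖A + (p : ℚ_[p])⁻¹ * ((r : ℚ_[p]) * (X : ℚ_[p]))‖ ≤ 1 ↔ (r : ZMod p) = r₀ := by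
  have hp0 : (0 : ℝ) < p := by exact_mod_cast hp.out.pos
  set c : ℤ_[p] := ⟨(p : ℚ_[p]) * A, hA⟩ with hc
  have hU : PadicInt.toZMod X ≠ 0 := toZMod_ne_zero.2 hX
  refine ⟨-PadicInt.toZMod c / PadicInt.toZMod X, fun r => ?_⟩
  have e : A + (p : ℚ_[p])⁻¹ * ((r : ℚ_[p]) * (X : ℚ_[p])) =
      (p : ℚ_[p])⁻¹ * ((c + (r : ℤ_[p]) * X : ℤ_[p]) : ℚ_[p]) := by
    have h2 : ((c + (r : ℤ_[p]) * X : ℤ_[p]) : ℚ_[p]) =
        (p : ℚ_[p]) * A + (r : ℚ_[p]) * (X : ℚ_[p]) := by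
      rw [PadicInt.coe_add, PadicInt.coe_mul, PadicInt.coe_natCast]
    rw [h2, mul_add, inv_mul_cancel_left₀ pQ_ne]
  rw [e, norm_mul, norm_inv, Padic.norm_p, inv_inv, ← PadicInt.norm_def]
  have h1 : (p : ℝ) * ‖c + (r : ℤ_[p]) * X‖ ≤ 1 ↔ (p : ℤ_[p]) ∣ c + (r : ℤ_[p]) * X := by
    have h2 := dvd_iff (p := p) (c + (r : ℤ_[p]) * X) 1
    rw [pow_one] at h2
    rw [h2, Nat.cast_one, zpow_neg_one, mul_comm, ← le_div_iff₀ hp0, one_div]
  rw [h1, ← toZMod_eq_zero', map_add, map_mul, map_natCast, eq_div_iff hU, eq_neg_iff_add_eq_zero,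
    add_comm]

lemma conv_r (A : ℚ_[p]) (X : ℤ_[p]) (r : ℕ)
    (h : ‖A + (p : ℚ_[p])⁻¹ * ((r : ℚ_[p]) * (X : ℚ_[p]))‖ ≤ 1) : ‖(p : ℚ_[p]) * A‖ ≤ 1 := by
  rw [← int_iff] at h ⊢
  have h1 : (p : ℚ_[p]) * A = (((p : ℤ_[p]) : ℤ_[p]) : ℚ_[p]) *
      (A + (p : ℚ_[p])⁻¹ * ((r : ℚ_[p]) * (X : ℚ_[p]))) -
      (((r : ℤ_[p]) * X : ℤ_[p]) : ℚ_[p]) := by
    rw [PadicInt.coe_mul, PadicInt.coe_natCast, PadicInt.coe_natCast, mul_add, ← mul_assoc,
      mul_inv_cancel₀ pQ_ne, one_mul, add_sub_cancel_right]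
  rw [h1]
  exact Subring.sub_mem _ (Subring.mul_mem _ (int_coe _) h) (int_coe _)

section meas

variable [MeasurableSpace (Fin n → ℤ_[p])] [BorelSpace (Fin n → ℤ_[p])]

lemma cont_XXQ (m : Fin k → Fin n → ℕ) (w : Fin k → ℤ_[p]) (j : Fin k) :
    Continuous fun y : Fin n → ℤ_[p] => ((XX m w y j : ℤ_[p]) : ℚ_[p]) :=
  continuous_subtype_val.comp (cont_XX m w j)

lemma cont_gz (m : Fin k → Fin n → ℕ) (w : Fin k → ℤ_[p]) (z : Fin k → ℤ) :
    Continuous (gz m w z) := by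
  unfold gz
  exact continuous_finsetSum _ fun j _ => continuous_const.mul (cont_XXQ m w j)

lemma meas_cond (A : (Fin n → ℤ_[p]) → ℚ_[p]) (hA : Continuous A) :
    MeasurableSet {y : Fin n → ℤ_[p] | (∀ i, ‖y i‖ = 1) ∧ ‖A y‖ ≤ 1} :=
  meas_units.inter (isClosed_le hA.norm continuous_const).measurableSet

lemma meas_US (m : Fin k → Fin n → ℕ) (w : Fin k → ℤ_[p]) (z : Fin k → ℤ) :
    MeasurableSet (US m w z) := meas_cond _ (cont_gz m w z)

lemma decomp (A : (Fin n → ℤ_[p]) → ℚ_[p]) (hA : Continuous A) (X : (Fin n → ℤ_[p]) → ℤ_[p])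
    (hXc : Continuous X) (hX : ∀ y : Fin n → ℤ_[p], (∀ i, ‖y i‖ = 1) → ‖X y‖ = 1) :
    (Measure.addHaar : Measure (Fin n → ℤ_[p]))
        {y | (∀ i, ‖y i‖ = 1) ∧ ‖(p : ℚ_[p]) * A y‖ ≤ 1} =
      ∑ r ∈ Finset.range p, (Measure.addHaar : Measure (Fin n → ℤ_[p]))
        {y | (∀ i, ‖y i‖ = 1) ∧
          ‖A y + (p : ℚ_[p])⁻¹ * ((r : ℚ_[p]) * (X y : ℚ_[p]))‖ ≤ 1} := by
  rw [← measure_biUnion_finset]
  · congr 1
    ext y
    simp only [Set.mem_iUnion, Set.mem_ofPred_eq, exists_prop]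
    constructor
    · rintro ⟨hy, h⟩
      obtain ⟨r₀, hr⟩ := exists_r (A y) (X y) (hX y hy) h
      refine ⟨r₀.val, Finset.mem_range.2 (ZMod.val_lt r₀), hy, ?_⟩
      rw [hr]
      exact ZMod.natCast_zmod_val r₀
    · rintro ⟨r, -, hy, h⟩
      exact ⟨hy, conv_r _ _ r h⟩
  · intro r hr r' hr' hne
    rw [Function.onFun, Set.disjoint_left]
    rintro y ⟨hy, h1⟩ ⟨_, h2⟩
    obtain ⟨r₀, hr₀⟩ := exists_r (A y) (X y) (hX y hy) (conv_r _ _ r h1)
    have e1 := (hr₀ r).1 h1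
    have e2 := (hr₀ r').1 h2
    rw [Finset.coe_range, Set.mem_Iio] at hr hr'
    apply hne
    have e3 : (r : ZMod p) = (r' : ZMod p) := by rw [e1, e2]
    rw [ZMod.natCast_eq_natCast_iff'] at e3
    rwa [Nat.mod_eq_of_lt hr, Nat.mod_eq_of_lt hr'] at e3
  · intro r _
    exact meas_cond _ (hA.add (continuous_const.mul (continuous_const.mul
      (continuous_subtype_val.comp hXc))))

/-- multiplication by units preserves the Haar measure -/
lemma measure_mulU (t : Fin n → (ℤ_[p])ˣ) (S : Set (Fin n → ℤ_[p])) (hS : MeasurableSet S) :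
    (Measure.addHaar : Measure (Fin n → ℤ_[p]))
      ((fun (y : Fin n → ℤ_[p]) i => y i * (t i : ℤ_[p])) ⁻¹' S) =
      (Measure.addHaar : Measure (Fin n → ℤ_[p])) S := by
  let e : (Fin n → ℤ_[p]) ≃+ (Fin n → ℤ_[p]) :=
    { toFun := fun y i => y i * t i
      invFun := fun y i => y i * ((t i)⁻¹ : (ℤ_[p])ˣ)
      left_inv := fun y => by funext i; simp
      right_inv := fun y => by funext i; simp
      map_add' := fun y z => by funext i; simp [add_mul] }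
  have hc : Continuous e := continuous_pi fun i => (continuous_apply i).mul continuous_const
  have hc' : Continuous e.symm := continuous_pi fun i => (continuous_apply i).mul continuous_const
  have hme : Measurable e := hc.measurable
  have he : (fun (y : Fin n → ℤ_[p]) i => y i * (t i : ℤ_[p])) = e := rfl
  rw [he, ← Measure.map_apply hme hS]
  have h1 : (Measure.addHaar : Measure (Fin n → ℤ_[p])).map e = Measure.addHaar := by
    have h2 : ((Measure.addHaar : Measure (Fin n → ℤ_[p])).map e).IsAddHaarMeasure :=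
      AddEquiv.isAddHaarMeasure_map (Measure.addHaar : Measure (Fin n → ℤ_[p])) e hc hc'
    have h3 := Measure.isAddInvariant_eq_smul_of_compactSpace
      ((Measure.addHaar : Measure (Fin n → ℤ_[p])).map e) Measure.addHaar
    have h4 := congrArg (fun μ : Measure (Fin n → ℤ_[p]) => μ Set.univ) h3
    simp only [Measure.smul_apply] at h4
    rw [Measure.map_apply hme MeasurableSet.univ, Set.preimage_univ] at h4
    have h5 : (Measure.addHaar : Measure (Fin n → ℤ_[p])) Set.univ ≠ 0 :=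
      Measure.measure_univ_ne_zero.2 (NeZero.ne _)
    have h6 : (Measure.addHaar : Measure (Fin n → ℤ_[p])) Set.univ ≠ ⊤ := measure_ne_top _ _
    rw [h3]
    have h7 : ((Measure.addHaar : Measure (Fin n → ℤ_[p])).map e).addHaarScalarFactor
        Measure.addHaar = 1 := by
      rw [ENNReal.smul_def, smul_eq_mul] at h4
      have h8 : ((((Measure.addHaar : Measure (Fin n → ℤ_[p])).map e).addHaarScalarFactor
        Measure.addHaar : NNReal) : ENNReal) = 1 := by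
        have h9 : (Measure.addHaar : Measure (Fin n → ℤ_[p])) Set.univ =
            1 * (Measure.addHaar : Measure (Fin n → ℤ_[p])) Set.univ := (one_mul _).symm
        rw [h9] at h4
        simp only [one_mul] at h4
        exact ((ENNReal.mul_eq_right h5 h6).1 h4.symm)
      exact_mod_cast h8
    rw [h7, one_smul]
  rw [h1]

end meas

/-- the multiplication of one coordinate -/
noncomputable def tt (i : Fin n) (ζ : (ℤ_[p])ˣ) (i' : Fin n) : (ℤ_[p])ˣ := if i' = i then ζ else 1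

lemma XX_mul (m : Fin k → Fin n → ℕ) (w : Fin k → ℤ_[p]) (i : Fin n) (ζ : (ℤ_[p])ˣ)
    (y : Fin n → ℤ_[p]) (j : Fin k) :
    XX m w (fun i' => y i' * (tt i ζ i' : ℤ_[p])) j = (ζ : ℤ_[p]) ^ m j i * XX m w y j := by
  unfold XX
  simp only [mul_pow, Finset.prod_mul_distrib]
  have h1 : ∏ i', ((tt i ζ i' : ℤ_[p])) ^ m j i' = (ζ : ℤ_[p]) ^ m j i := by
    rw [Finset.prod_eq_single i]
    · unfold tt
      rw [if_pos rfl]
    · intro i' _ hi'
      unfold tt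
      rw [if_neg hi', Units.val_one, one_pow]
    · intro h
      exact absurd (Finset.mem_univ i) h
  rw [h1]
  ring

lemma XX_unit (m : Fin k → Fin n → ℕ) (w : Fin k → ℤ_[p]) (hw : ∀ j, ‖w j‖ = 1)
    (y : Fin n → ℤ_[p]) (hy : ∀ i, ‖y i‖ = 1) (j : Fin k) : ‖XX m w y j‖ = 1 := by
  unfold XX
  rw [norm_mul, hw, one_mul, norm_prod]
  exact Finset.prod_eq_one fun i _ => by rw [norm_pow, hy i, one_pow]

/-- the preimage -/
lemma US_pre (m : Fin k → Fin n → ℕ) (w : Fin k → ℤ_[p]) (i : Fin n) (j0 : Fin k)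
    (hm : m j0 i = 1) (z : Fin k → ℤ) (hz : ∀ j, j ≠ j0 → 0 < m j i → 0 ≤ z j) (ζ : (ℤ_[p])ˣ) :
    (fun (y : Fin n → ℤ_[p]) i' => y i' * (tt i ζ i' : ℤ_[p])) ⁻¹' US m w z =
      {y | (∀ i, ‖y i‖ = 1) ∧ ‖gz m w z y + (p : ℚ_[p]) ^ z j0 *
        ((((ζ : ℤ_[p]) - 1) * XX m w y j0 : ℤ_[p]) : ℚ_[p])‖ ≤ 1} := by
  ext y
  rw [Set.mem_preimage]
  unfold US
  refine and_congr ?_ (int_congr ?_)
  · refine forall_congr' fun i' => ?_
    rw [norm_mul, PadicInt.norm_units, mul_one]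
  · have h1 : gz m w z (fun i' => y i' * (tt i ζ i' : ℤ_[p])) =
        gz m w z y + ∑ j, (p : ℚ_[p]) ^ z j *
          ((((ζ : ℤ_[p]) ^ m j i - 1) * XX m w y j : ℤ_[p]) : ℚ_[p]) := by
      unfold gz
      rw [← Finset.sum_add_distrib]
      refine Finset.sum_congr rfl fun j _ => ?_
      rw [XX_mul]
      push_cast
      ring
    rw [h1, ← Finset.add_sum_erase Finset.univ _ (Finset.mem_univ j0), hm, pow_one]
    have h2 : ∀ a b c : ℚ_[p], a + (b + c) - (a + b) = c := fun a b c => by ring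
    rw [h2]
    refine Subring.sum_mem _ fun j hj => ?_
    rcases Nat.eq_zero_or_pos (m j i) with h | h
    · rw [h, pow_zero, sub_self, zero_mul]
      simp
    · exact int_zpow _ (hz j (Finset.ne_of_mem_erase hj) h) _

lemma gz_add_one (m : Fin k → Fin n → ℕ) (w : Fin k → ℤ_[p]) (z : Fin k → ℤ)
    (y : Fin n → ℤ_[p]) : gz m w (fun j => z j + 1) y = (p : ℚ_[p]) * gz m w z y := by
  unfold gz
  rw [Finset.mul_sum]
  refine Finset.sum_congr rfl fun j _ => ?_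
  rw [zpow_add_one₀ pQ_ne]
  ring

section meas2

variable [MeasurableSpace (Fin n → ℤ_[p])] [BorelSpace (Fin n → ℤ_[p])]

lemma rel_a (m : Fin k → Fin n → ℕ) (w : Fin k → ℤ_[p]) (hw : ∀ j, ‖w j‖ = 1) (i : Fin n)
    (j0 : Fin k) (hm : m j0 i = 1) (z : Fin k → ℤ) (hz0 : z j0 ≤ -2)
    (hz : ∀ j, j ≠ j0 → 0 < m j i → 0 ≤ z j) :
    (Measure.addHaar : Measure (Fin n → ℤ_[p])) (US m w (fun j => z j + 1)) =
      p * (Measure.addHaar : Measure (Fin n → ℤ_[p])) (US m w z) := by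
  have h1 : US m w (fun j => z j + 1) =
      {y | (∀ i, ‖y i‖ = 1) ∧ ‖(p : ℚ_[p]) * gz m w z y‖ ≤ 1} := by
    unfold US
    simp only [gz_add_one]
  rw [h1, decomp (gz m w z) (cont_gz m w z) (fun y => XX m w y j0) (cont_XX m w j0)
    (fun y hy => XX_unit m w hw y hy j0)]
  have h2 : ∀ r ∈ Finset.range p, (Measure.addHaar : Measure (Fin n → ℤ_[p]))
      {y | (∀ i, ‖y i‖ = 1) ∧
          ‖gz m w z y + (p : ℚ_[p])⁻¹ * ((r : ℚ_[p]) * ((XX m w y j0 : ℤ_[p]) : ℚ_[p]))‖ ≤ 1} =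
      (Measure.addHaar : Measure (Fin n → ℤ_[p])) (US m w z) := by
    intro r _
    obtain ⟨a, ha⟩ : ∃ a : ℕ, z j0 = -((a : ℤ) + 2) :=
      ⟨(-z j0 - 2).toNat, by rw [Int.toNat_of_nonneg (by omega)]; ring⟩
    have hu : IsUnit (1 + (p : ℤ_[p]) ^ (a + 1) * (r : ℤ_[p])) := by
      rw [PadicInt.isUnit_iff]
      apply norm_one_add
      rw [PadicInt.norm_lt_one_iff_dvd]
      exact Dvd.dvd.mul_right (dvd_pow_self _ (by omega)) _
    obtain ⟨ζ, hζ⟩ := hu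
    rw [← measure_mulU (tt i ζ) (US m w z) (meas_US m w z), US_pre m w i j0 hm z hz ζ]
    congr 1
    ext y
    refine and_congr Iff.rfl ?_
    have h3 : (p : ℚ_[p])⁻¹ * ((r : ℚ_[p]) * ((XX m w y j0 : ℤ_[p]) : ℚ_[p])) =
        (p : ℚ_[p]) ^ z j0 * ((((ζ : ℤ_[p]) - 1) * XX m w y j0 : ℤ_[p]) : ℚ_[p]) := by
      rw [hζ, add_sub_cancel_left, PadicInt.coe_mul, PadicInt.coe_mul, PadicInt.coe_pow,
        PadicInt.coe_natCast, PadicInt.coe_natCast, ha]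
      have h4 : (p : ℚ_[p]) ^ (-((a : ℤ) + 2)) * (p : ℚ_[p]) ^ (a + 1) = (p : ℚ_[p])⁻¹ := by
        rw [← zpow_natCast, ← zpow_add₀ pQ_ne, ← zpow_neg_one]
        congr 1
        push_cast
        ring
      rw [← h4]
      ring
    rw [h3]
  rw [Finset.sum_congr rfl h2, Finset.sum_const, Finset.card_range, nsmul_eq_mul]

lemma sum_two (P : ℕ) (hP : 1 ≤ P) (f : ℕ → ENNReal) (α β : ENNReal) (h0 : f 0 = α)
    (h1 : ∀ r, 1 ≤ r → r < P → f r = β) :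
    ∑ r ∈ Finset.range P, f r = α + ((P - 1 : ℕ) : ENNReal) * β := by
  obtain ⟨Q, rfl⟩ : ∃ Q, P = Q + 1 := ⟨P - 1, by omega⟩
  rw [Finset.sum_range_succ', h0, add_comm, Nat.add_sub_cancel]
  congr 1
  rw [Finset.sum_congr rfl fun r hr => h1 (r + 1) (by omega)
    (by have := Finset.mem_range.1 hr; omega), Finset.sum_const, Finset.card_range, nsmul_eq_mul]

lemma rel_b (m : Fin k → Fin n → ℕ) (w : Fin k → ℤ_[p]) (hw : ∀ j, ‖w j‖ = 1) (i : Fin n)
    (j0 : Fin k) (hm : m j0 i = 1) (z : Fin k → ℤ) (hz0 : z j0 = -1)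
    (hz : ∀ j, j ≠ j0 → 0 < m j i → 0 ≤ z j) :
    (Measure.addHaar : Measure (Fin n → ℤ_[p])) (US m w (fun j => z j + 1)) =
      (Measure.addHaar : Measure (Fin n → ℤ_[p])) (US m w (Function.update z j0 0)) +
      ((p - 1 : ℕ) : ENNReal) * (Measure.addHaar : Measure (Fin n → ℤ_[p])) (US m w z) := by
  set A : (Fin n → ℤ_[p]) → ℚ_[p] := fun y =>
    gz m w z y - (p : ℚ_[p])⁻¹ * ((XX m w y j0 : ℤ_[p]) : ℚ_[p]) with hA
  have hAc : Continuous A := (cont_gz m w z).sub (continuous_const.mul (cont_XXQ m w j0))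
  have h1 : US m w (fun j => z j + 1) = {y | (∀ i, ‖y i‖ = 1) ∧ ‖(p : ℚ_[p]) * A y‖ ≤ 1} := by
    ext y
    unfold US
    refine and_congr Iff.rfl (int_congr ?_)
    rw [gz_add_one]
    have h2 : (p : ℚ_[p]) * gz m w z y - (p : ℚ_[p]) * A y = ((XX m w y j0 : ℤ_[p]) : ℚ_[p]) := by
      simp only [hA]
      rw [mul_sub, ← mul_assoc, mul_inv_cancel₀ pQ_ne, one_mul]
      ring
    rw [h2]
    exact int_coe _
  rw [h1, decomp A hAc (fun y => XX m w y j0) (cont_XX m w j0)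
    (fun y hy => XX_unit m w hw y hy j0)]
  refine sum_two p hp.out.one_lt.le _ _ _ ?_ ?_
  · congr 1
    ext y
    unfold US
    refine and_congr Iff.rfl (int_congr ?_)
    have h2 : gz m w (Function.update z j0 0) y = gz m w z y -
        (p : ℚ_[p])⁻¹ * ((XX m w y j0 : ℤ_[p]) : ℚ_[p]) + ((XX m w y j0 : ℤ_[p]) : ℚ_[p]) := by
      unfold gz
      rw [← Finset.add_sum_erase Finset.univ _ (Finset.mem_univ j0),
        ← Finset.add_sum_erase Finset.univ (fun j => (p : ℚ_[p]) ^ z j *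
          ((XX m w y j : ℤ_[p]) : ℚ_[p])) (Finset.mem_univ j0), Function.update_self, hz0,
        zpow_zero, zpow_neg_one]
      have h3 : ∑ x ∈ Finset.univ.erase j0, (p : ℚ_[p]) ^ Function.update z j0 0 x *
          ((XX m w y x : ℤ_[p]) : ℚ_[p]) = ∑ x ∈ Finset.univ.erase j0, (p : ℚ_[p]) ^ z x *
          ((XX m w y x : ℤ_[p]) : ℚ_[p]) := by
        refine Finset.sum_congr rfl fun x hx => ?_
        rw [Function.update_of_ne (Finset.ne_of_mem_erase hx)]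
      rw [h3]
      ring
    rw [h2, Nat.cast_zero, zero_mul, mul_zero, add_zero]
    have h3 : A y - (gz m w z y - (p : ℚ_[p])⁻¹ * ((XX m w y j0 : ℤ_[p]) : ℚ_[p]) +
        ((XX m w y j0 : ℤ_[p]) : ℚ_[p])) = -((XX m w y j0 : ℤ_[p]) : ℚ_[p]) := by
      simp only [hA]
      ring
    rw [h3]
    exact Subring.neg_mem _ (int_coe _)
  · intro r hr1 hr2
    have hu : IsUnit ((r : ℤ_[p])) := by
      rw [PadicInt.isUnit_iff]
      have h2 : PadicInt.toZMod (r : ℤ_[p]) ≠ 0 := by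
        rw [map_natCast, Ne, ZMod.natCast_eq_zero_iff]
        intro h
        have := Nat.le_of_dvd (by omega) h
        omega
      exact toZMod_ne_zero.1 h2
    obtain ⟨ζ, hζ⟩ := hu
    rw [← measure_mulU (tt i ζ) (US m w z) (meas_US m w z), US_pre m w i j0 hm z hz ζ]
    congr 1
    ext y
    refine and_congr Iff.rfl ?_
    have h3 : A y + (p : ℚ_[p])⁻¹ * ((r : ℚ_[p]) * ((XX m w y j0 : ℤ_[p]) : ℚ_[p])) =
        gz m w z y +
        (p : ℚ_[p]) ^ z j0 * ((((ζ : ℤ_[p]) - 1) * XX m w y j0 : ℤ_[p]) : ℚ_[p]) := by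
      rw [hζ, PadicInt.coe_mul, PadicInt.coe_sub, PadicInt.coe_one, PadicInt.coe_natCast, hz0,
        zpow_neg_one]
      simp only [hA]
      ring
    rw [h3]

/-- the normalised measure -/
noncomputable def Gm (m : Fin k → Fin n → ℕ) (w : Fin k → ℤ_[p]) (z : Fin k → ℤ) : ℝ :=
  ((Measure.addHaar : Measure (Fin n → ℤ_[p])) (US m w z)).toReal /
    ((Measure.addHaar : Measure (Fin n → ℤ_[p])) Set.univ).toReal

lemma V_pos : 0 < ((Measure.addHaar : Measure (Fin n → ℤ_[p])) Set.univ).toReal :=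
  ENNReal.toReal_pos ((isOpen_univ.measure_pos _ Set.univ_nonempty).ne') (measure_ne_top _ _)

lemma Gm_nonneg (m : Fin k → Fin n → ℕ) (w : Fin k → ℤ_[p]) (z : Fin k → ℤ) : 0 ≤ Gm m w z :=
  div_nonneg ENNReal.toReal_nonneg ENNReal.toReal_nonneg

lemma Gm_le (m : Fin k → Fin n → ℕ) (w : Fin k → ℤ_[p]) (z : Fin k → ℤ) : Gm m w z ≤ 1 := by
  unfold Gm
  rw [div_le_one V_pos]
  exact ENNReal.toReal_mono (measure_ne_top _ _) (measure_mono (Set.subset_univ _))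

lemma Gm_congr (m : Fin k → Fin n → ℕ) (w : Fin k → ℤ_[p]) {z z' : Fin k → ℤ}
    (h : ∀ j, z j = z' j ∨ (0 ≤ z j ∧ 0 ≤ z' j)) : Gm m w z = Gm m w z' := by
  unfold Gm
  rw [US_congr m w h]

lemma Gm_a (m : Fin k → Fin n → ℕ) (w : Fin k → ℤ_[p]) (hw : ∀ j, ‖w j‖ = 1) (i : Fin n)
    (j0 : Fin k) (hm : m j0 i = 1) (z : Fin k → ℤ) (hz0 : z j0 ≤ -2)
    (hz : ∀ j, j ≠ j0 → 0 < m j i → 0 ≤ z j) :
    Gm m w (fun j => z j + 1) = p * Gm m w z := by
  unfold Gm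
  rw [rel_a m w hw i j0 hm z hz0 hz, ENNReal.toReal_mul, ENNReal.toReal_natCast, mul_div_assoc]

lemma Gm_b (m : Fin k → Fin n → ℕ) (w : Fin k → ℤ_[p]) (hw : ∀ j, ‖w j‖ = 1) (i : Fin n)
    (j0 : Fin k) (hm : m j0 i = 1) (z : Fin k → ℤ) (hz0 : z j0 = -1)
    (hz : ∀ j, j ≠ j0 → 0 < m j i → 0 ≤ z j) :
    Gm m w (fun j => z j + 1) = Gm m w (Function.update z j0 0) + ((p : ℝ) - 1) * Gm m w z := by
  unfold Gm
  rw [rel_b m w hw i j0 hm z hz0 hz, ENNReal.toReal_add (measure_ne_top _ _)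
    (ENNReal.mul_ne_top (ENNReal.natCast_ne_top _) (measure_ne_top _ _)), ENNReal.toReal_mul,
    ENNReal.toReal_natCast, Nat.cast_sub hp.out.one_lt.le, Nat.cast_one, add_div, mul_div_assoc]

theorem Gm_shrink (m : Fin k → Fin n → ℕ) (hm : AffInd m) : ∃ L : ℕ, 1 ≤ L ∧
    ∀ (w : Fin k → ℤ_[p]), (∀ j, ‖w j‖ = 1) → ∀ z : Fin k → ℤ, (∃ j, z j < -(L : ℤ)) →
      Gm m w (fun j => z j + 1) = p * Gm m w z := by
  obtain ⟨N, hN, B₀, BB, hB⟩ := nondeg m hm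
  have hN0 : (N : ℤ_[p]) ≠ 0 := by exact_mod_cast hN
  set v := ((N : ℤ_[p])).valuation with hv
  have hspec : (N : ℤ_[p]) = (p : ℤ_[p]) ^ v * (PadicInt.unitCoeff hN0 : ℤ_[p]) := by
    rw [mul_comm]
    exact PadicInt.unitCoeff_spec hN0
  refine ⟨2 * v + 1, by omega, fun w hw z ⟨j1, hj1⟩ => ?_⟩
  have : Nonempty (Fin k) := ⟨j1⟩
  obtain ⟨j0, hj0⟩ := Finite.exists_min z
  have hj01 := hj0 j1
  obtain ⟨l, hl⟩ : ∃ l : ℕ, z j0 = -((l : ℤ) + 1) :=
    ⟨(-z j0 - 1).toNat, by rw [Int.toNat_of_nonneg (by omega)]; ring⟩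
  have hl2 : 2 * v + 1 ≤ l := by
    push_cast at hj1
    omega
  have e1 : US m w z = VV m (fun j => (p : ℤ_[p]) ^ (z j + (l + 1 : ℕ)).toNat * w j) (l + 1) :=
    US_eq_VV m w z (l + 1) fun j => by
      have := hj0 j
      push_cast
      omega
  have e2 : US m w (fun j => z j + 1) =
      VV m (fun j => (p : ℤ_[p]) ^ (z j + (l + 1 : ℕ)).toNat * w j) l := by
    rw [US_eq_VV m w (fun j => z j + 1) l fun j => by
      have := hj0 j
      omega]
    congr 1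
    funext j
    congr 2
    push_cast
    ring_nf
  have h1 := VV_succ m (fun j => (p : ℤ_[p]) ^ (z j + (l + 1 : ℕ)).toNat * w j) hB v _
    (PadicInt.norm_units _) hspec l hl2 j0 (by
      rw [hl]
      have : (-((l : ℤ) + 1) + ((l + 1 : ℕ) : ℤ)).toNat = 0 := by
        push_cast
        simp
      rw [this, pow_zero, one_mul, hw])
  unfold Gm
  rw [e1, e2, h1, ENNReal.toReal_mul, ENNReal.toReal_natCast, mul_div_assoc]

/-! ### the strata -/

/-- given valuations of the coordinates, and `p ^ t` divides -/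
def ST (m : Fin k → Fin n → ℕ) (c : Fin k → ℤ_[p]) (t : ℕ) (u : Fin n → ℕ) :
    Set (Fin n → ℤ_[p]) :=
  {x | (∀ i, ‖x i‖ = (p : ℝ) ^ (-(u i : ℤ))) ∧ (p : ℤ_[p]) ^ t ∣ GG m c x}

lemma GG_phi' (m : Fin k → Fin n → ℕ) (c : Fin k → ℤ_[p]) (hc : ∀ j, c j ≠ 0) (u : Fin n → ℕ)
    (t : ℕ) (y : Fin n → ℤ_[p]) :
    ((GG m c (phi p u y) : ℤ_[p]) : ℚ_[p]) =
      (p : ℚ_[p]) ^ t * gz m (cu c hc) (fun j => (dl m c u j : ℤ) - t) y := by
  unfold GG gz
  rw [PadicInt.coe_sum, Finset.mul_sum]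
  refine Finset.sum_congr rfl fun j _ => ?_
  have h0 : XX m c (phi p u y) j = (p : ℤ_[p]) ^ dl m c u j * XX m (cu c hc) y j := by
    unfold XX
    have h1 : ∀ i, (phi p u y i) ^ m j i = (p : ℤ_[p]) ^ (u i * m j i) * (y i) ^ m j i := by
      intro i
      rw [phi_apply, mul_pow, ← pow_mul]
    simp only [h1, Finset.prod_mul_distrib, Finset.prod_pow_eq_pow_sum]
    conv_lhs => rw [cu_spec c hc j]
    unfold dl
    rw [pow_add]
    ring
  rw [h0, PadicInt.coe_mul, PadicInt.coe_pow, PadicInt.coe_natCast, zpow_sub₀ pQ_ne, zpow_natCast,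
    zpow_natCast]
  have h2 : (p : ℚ_[p]) ^ t ≠ 0 := pow_ne_zero _ pQ_ne
  field_simp

lemma ST_eq (m : Fin k → Fin n → ℕ) (c : Fin k → ℤ_[p]) (hc : ∀ j, c j ≠ 0) (u : Fin n → ℕ)
    (t : ℕ) : ST m c t u = phi p u '' US m (cu c hc) (fun j => (dl m c u j : ℤ) - t) := by
  have hp1 : (0 : ℝ) < p := by exact_mod_cast hp.out.pos
  have hn : ∀ y : Fin n → ℤ_[p], ((p : ℤ_[p]) ^ t ∣ GG m c (phi p u y) ↔
      ‖gz m (cu c hc) (fun j => (dl m c u j : ℤ) - t) y‖ ≤ 1) := by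
    intro y
    rw [dvd_iff, PadicInt.norm_def, GG_phi' m c hc u t, norm_mul, Padic.norm_p_pow]
    have h3 : (0 : ℝ) < (p : ℝ) ^ (-(t : ℤ)) := zpow_pos hp1 _
    constructor
    · intro h
      by_contra h4
      push Not at h4
      have := mul_lt_mul_of_pos_left h4 h3
      linarith
    · intro h
      exact mul_le_of_le_one_right h3.le h
  have hn2 : ∀ (y : Fin n → ℤ_[p]) (i : Fin n),
      (‖phi p u y i‖ = (p : ℝ) ^ (-(u i : ℤ)) ↔ ‖y i‖ = 1) := by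
    intro y i
    rw [phi_norm]
    exact mul_eq_left₀ (zpow_pos hp1 _).ne'
  ext x
  constructor
  · rintro ⟨h1, h2⟩
    obtain ⟨y, rfl⟩ := mem_range_of_norm u x h1
    exact ⟨y, ⟨fun i => (hn2 y i).1 (h1 i), (hn y).1 h2⟩, rfl⟩
  · rintro ⟨y, ⟨h1, h2⟩, rfl⟩
    exact ⟨fun i => (hn2 y i).2 (h1 i), (hn y).2 h2⟩

lemma meas_ST (m : Fin k → Fin n → ℕ) (c : Fin k → ℤ_[p]) (t : ℕ) (u : Fin n → ℕ) :
    MeasurableSet (ST m c t u) := by
  refine MeasurableSet.inter ?_ (meas_dvd m c _)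
  have : {x : Fin n → ℤ_[p] | ∀ i, ‖x i‖ = (p : ℝ) ^ (-(u i : ℤ))} =
      ⋂ i, {x | ‖x i‖ = (p : ℝ) ^ (-(u i : ℤ))} := by
    ext x
    simp
  show MeasurableSet {x : Fin n → ℤ_[p] | ∀ i, ‖x i‖ = (p : ℝ) ^ (-(u i : ℤ))}
  rw [this]
  exact MeasurableSet.iInter fun i =>
    (isClosed_eq (continuous_apply i).norm continuous_const).measurableSet

/-- **The measure of `{p ^ t ∣ f}`.** -/
theorem W_eq (m : Fin k → Fin n → ℕ) (c : Fin k → ℤ_[p]) (hc : ∀ j, c j ≠ 0) (t : ℕ) :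
    ((Measure.addHaar : Measure (Fin n → ℤ_[p])) {x | (p : ℤ_[p]) ^ t ∣ GG m c x}).toReal =
      ((Measure.addHaar : Measure (Fin n → ℤ_[p])) Set.univ).toReal *
      ∑' u : Fin n → ℕ, ((p : ℝ)⁻¹) ^ (∑ i, u i) *
        Gm m (cu c hc) (fun j => (dl m c u j : ℤ) - t) := by
  have h1 : (Measure.addHaar : Measure (Fin n → ℤ_[p])) {x | (p : ℤ_[p]) ^ t ∣ GG m c x} =
      (Measure.addHaar : Measure (Fin n → ℤ_[p]))
        ({x | (p : ℤ_[p]) ^ t ∣ GG m c x} ∩ {x | ∀ i, x i ≠ 0}) := by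
    refine (measure_inter_conull ?_).symm
    refine measure_mono_null ?_ (null_coords (n := n) (p := p))
    intro x hx
    exact hx
  have h2 : {x | (p : ℤ_[p]) ^ t ∣ GG m c x} ∩ {x | ∀ i, x i ≠ 0} = ⋃ u, ST m c t u := by
    ext x
    simp only [Set.mem_inter_iff, Set.mem_ofPred_eq, Set.mem_iUnion]
    constructor
    · rintro ⟨h3, h4⟩
      exact ⟨fun i => (x i).valuation, fun i => PadicInt.norm_eq_zpow_neg_valuation (h4 i), h3⟩
    · rintro ⟨u, h3, h4⟩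
      exact ⟨h4, fun i => (norm_iff.1 (h3 i)).1⟩
  have h3 : Pairwise (Function.onFun Disjoint (ST m c t)) := by
    intro u u' hne
    rw [Function.onFun, Set.disjoint_left]
    rintro x ⟨h1, -⟩ ⟨h2, -⟩
    apply hne
    funext i
    exact (norm_iff.1 (h1 i)).2.symm.trans (norm_iff.1 (h2 i)).2
  rw [h1, h2, measure_iUnion h3 (fun u => meas_ST m c t u),
    ENNReal.tsum_toReal_eq (fun _ => measure_ne_top _ _), ← tsum_mul_left]
  refine tsum_congr fun u => ?_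
  rw [ST_eq m c hc u t, measure_image]
  have h4 : (p : ℝ) ^ (-((∑ i, u i : ℕ) : ℤ)) = ((p : ℝ)⁻¹) ^ (∑ i, u i) := by
    rw [zpow_neg, zpow_natCast, inv_pow]
  rw [h4]
  unfold Gm
  have h5 := (V_pos (n := n) (p := p)).ne'
  field_simp

end meas2

end Pool.Agent.TH216.EP
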