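import Pool.Agent.TH216.MF.Ser

set_option autoImplicit false

/-! From the functional to power series, general kernel polynomials. -/

namespace Pool.Agent.TH216.EP

open MvPolynomial Filter Pool.Agent.TH216.MF
open Pool.Agent.W803.SM (summable_half)

variable {r N : ℕ}

/-- the coefficients -/
noncomputable def aK (q : ℕ) (v : Fin r → Fin N → ℕ) (F : Fn r) (t : ℤ) : ℂ :=
  ∑' x : Fin N → ℕ, (q : ℂ)⁻¹ ^ (∑ i, x i) * F (fun j => ∑ i, (x i : ℤ) * (v j i : ℤ) - t)

lemma summable_aK (q : ℕ) (hq : 2 ≤ q) (v : Fin r → Fin N → ℕ) (F : Fn r) (K : ℝ)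
    (hK : ∀ y, ‖F y‖ ≤ K) (t : ℤ) : Summable fun x : Fin N → ℕ =>
      (q : ℂ)⁻¹ ^ (∑ i, x i) * F (fun j => ∑ i, (x i : ℤ) * (v j i : ℤ) - t) := by
  refine Summable.of_norm_bounded (g := fun x : Fin N → ℕ => (∏ i, ((1 : ℝ) / 2) ^ x i) * K)
    (summable_half.mul_right _) fun x => ?_
  rw [norm_mul]
  exact mul_le_mul (norm_pow_inv q hq x) (hK _) (norm_nonneg _)
    (Finset.prod_nonneg fun i _ => by positivity)

lemma hasReg_aK (q : ℕ) (hq : 2 ≤ q) (v : Fin r → Fin N → ℕ) (k : MvPolynomial (Fin r) ℂ)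
    (F : Fn r) (hF : act r k (FG fun _ => 1) = F) (K : ℝ) (hK : ∀ y, ‖F y‖ ≤ K) (t : ℤ) :
    HasReg (gen q v (act r k (FG fun _ => 1)) ∅ t) (aK q v F t) := by
  obtain ⟨c, hc⟩ := (tame_one q hq v k).reg ∅ t
  have h1 : (fun x => MvPowerSeries.coeff x (gen q v (act r k (FG fun _ => 1)) ∅ t)) =
      (fun x : Fin N → ℕ =>
        (q : ℂ)⁻¹ ^ (∑ i, x i) * F (fun j => ∑ i, (x i : ℤ) * (v j i : ℤ) - t)) ∘
        (Finsupp.equivFunOnFinite : (Fin N →₀ ℕ) ≃ (Fin N → ℕ)) := by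
    funext x
    rw [coeff_gen, if_pos (by simp), hF]
    rfl
  have h2 : Summable fun x : Fin N →₀ ℕ => MvPowerSeries.coeff x
      (gen q v (act r k (FG fun _ => 1)) ∅ t) := by
    rw [h1, Equiv.summable_iff]
    exact summable_aK q hq v F K hK t
  have h3 := hc.hasSum h2
  have h4 : ∑' x : Fin N →₀ ℕ, MvPowerSeries.coeff x
      (gen q v (act r k (FG fun _ => 1)) ∅ t) = aK q v F t := by
    rw [h1]
    exact Equiv.tsum_eq (Finsupp.equivFunOnFinite : (Fin N →₀ ℕ) ≃ (Fin N → ℕ))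
      (fun x : Fin N → ℕ =>
        (q : ℂ)⁻¹ ^ (∑ i, x i) * F (fun j => ∑ i, (x i : ℤ) * (v j i : ℤ) - t))
  rw [← h4, h3]
  exact hc

/-- the recurrence of the coefficients -/
lemma rec_aK (q : ℕ) (hq : 2 ≤ q) (v : Fin r → Fin N → ℕ) (k : MvPolynomial (Fin r) ℂ)
    (F : Fn r) (hF : act r k (FG fun _ => 1) = F) (K : ℝ) (hK : ∀ y, ‖F y‖ ≤ K)
    (Q : Polynomial ℂ) (h : Z q v (Polynomial.aeval (tau r) Q * k)) :
    ∀ᶠ t : ℤ in atTop,
      ∑ m ∈ Finset.range (Q.natDegree + 1), Q.coeff m * aK q v F (t - m) = 0 := by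
  filter_upwards [h] with t ht
  have h2 : HasReg (gen q v (act r (Polynomial.aeval (tau r) Q * k) (FG fun _ => 1)) ∅ t)
      (∑ m ∈ Finset.range (Q.natDegree + 1), Q.coeff m * aK q v F (t - m)) := by
    have h3 : act r (Polynomial.aeval (tau r) Q * k) (FG fun _ => 1) =
        ∑ m ∈ Finset.range (Q.natDegree + 1),
          Q.coeff m • act r (tau r ^ m * k) (FG fun _ => 1) := by
      rw [Polynomial.aeval_eq_sum_range, Finset.sum_mul, map_sum, LinearMap.sum_apply]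
      refine Finset.sum_congr rfl fun m _ => ?_
      rw [smul_mul_assoc, map_smul, LinearMap.smul_apply]
    rw [h3, gen_sum]
    refine HasReg.sum _ _ _ fun m _ => ?_
    rw [gen_smul, gen_tau_pow]
    exact HasReg.smul _ (hasReg_aK q hq v k F hF K hK (t - m))
  exact (ht.unique h2).symm

/-- **The series is rational.** -/
theorem poly_aK (q : ℕ) (hq : 2 ≤ q) (v : Fin r → Fin N → ℕ) (k : MvPolynomial (Fin r) ℂ)
    (F : Fn r) (hF : act r k (FG fun _ => 1) = F) (K : ℝ) (hK : ∀ y, ‖F y‖ ≤ K)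
    (Q : Polynomial ℂ) (h : Z q v (Polynomial.aeval (tau r) Q * k)) :
    ∃ A : Polynomial ℂ, (Q : PowerSeries ℂ) * PowerSeries.mk (fun t : ℕ => aK q v F t) =
      (A : PowerSeries ℂ) := by
  classical
  obtain ⟨t0, ht0⟩ := eventually_atTop.1 (rec_aK q hq v k F hF K hK Q h)
  set a : ℕ → ℂ := fun t => aK q v F t with ha
  set φ : PowerSeries ℂ := PowerSeries.mk a with hφ
  set n0 : ℕ := t0.toNat + Q.natDegree + 1 with hn0
  have h1 : ∀ t, n0 ≤ t → PowerSeries.coeff t ((Q : PowerSeries ℂ) * φ) = 0 := by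
    intro t ht
    rw [PowerSeries.coeff_mul]
    rw [Finset.Nat.sum_antidiagonal_eq_sum_range_succ_mk]
    simp only [Polynomial.coeff_coe, hφ, PowerSeries.coeff_mk]
    have h2 := ht0 t (by
      have := Int.self_le_toNat t0
      omega)
    rw [← h2]
    symm
    apply Finset.sum_subset_zero_on_sdiff
    · intro m hm
      rw [Finset.mem_range] at hm ⊢
      omega
    · intro m hm
      rw [Finset.mem_sdiff, Finset.mem_range, Finset.mem_range] at hm
      rw [Polynomial.coeff_eq_zero_of_natDegree_lt (by omega), zero_mul]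
    · intro m hm
      rw [Finset.mem_range] at hm
      rw [ha]
      simp only
      congr 2
      omega
  refine ⟨PowerSeries.trunc n0 ((Q : PowerSeries ℂ) * φ), ?_⟩
  ext t
  rw [Polynomial.coeff_coe, PowerSeries.coeff_trunc]
  split_ifs with ht
  · rfl
  · exact h1 t (by omega)

end Pool.Agent.TH216.EP
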