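import Pool.Agent.TH216.EP.K
import Pool.Agent.TH216.EP.R
import Pool.Agent.TH216.EP.M
import Pool.Agent.TH216.MF.CrMu
import Pool.Agent.TH216.MF.Ind
import Pool.Agent.W525.SM.A
import Pool.Agent.W206.CU.Pole

set_option autoImplicit false
set_option linter.unusedSectionVars false

/-! Poles of the Poincare series for affinely independent exponents, every prime. -/

namespace Pool.Agent.TH216.EP

open MeasureTheory Pool.Agent.TH216.MF
open Pool.Agent.W424.SM.ZMU (GG XX)
open Pool.Agent.W422.SM (dl cu cu_norm measure_sol solCount)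
open Pool.Agent.W206.CU (poincare IsPoleOfOrder pole_ne_zero)
open Pool.Agent.H628R4.TP (IsBFunction)
open Pool.Agent.W425.SM (Ind sparse)
open Pool.Agent.W425.SV (Kil1)

variable {n k : ℕ} {p : ℕ} [hp : Fact p.Prime]
  [MeasurableSpace (Fin n → ℤ_[p])] [BorelSpace (Fin n → ℤ_[p])]

/-- the values of the kernel function -/
noncomputable def Phi (m : Fin k → Fin n → ℕ) (w : Fin k → ℤ_[p]) : Fn k := fun z =>
  ((Gm m w z : ℝ) : ℂ) - (p : ℂ)⁻¹ * ((Gm m w (fun j => z j + 1) : ℝ) : ℂ)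

lemma Phi_min (m : Fin k → Fin n → ℕ) (w : Fin k → ℤ_[p]) (y : Fin k → ℤ) :
    Phi m w y = Phi m w (fun j => min (y j) 0) := by
  unfold Phi
  have h1 : Gm m w y = Gm m w (fun j => min (y j) 0) := Gm_congr m w fun j => by
    rcases le_total 0 (y j) with h | h
    · right
      exact ⟨h, by rw [min_eq_right h]⟩
    · left
      rw [min_eq_left h]
  have h2 : Gm m w (fun j => y j + 1) = Gm m w (fun j => min (y j) 0 + 1) :=
    Gm_congr m w fun j => by
      rcases le_total 0 (y j) with h | h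
      · right
        exact ⟨by omega, by rw [min_eq_right h]; norm_num⟩
      · left
        rw [min_eq_left h]
  rw [h1, h2]

lemma pC_ne : (p : ℂ) ≠ 0 := by exact_mod_cast hp.out.ne_zero

lemma norm_Gm (m : Fin k → Fin n → ℕ) (w : Fin k → ℤ_[p]) (z : Fin k → ℤ) :
    ‖((Gm m w z : ℝ) : ℂ)‖ ≤ 1 := by
  rw [Complex.norm_real, Real.norm_of_nonneg (Gm_nonneg m w z)]
  exact Gm_le m w z

lemma norm_Phi (m : Fin k → Fin n → ℕ) (w : Fin k → ℤ_[p]) (z : Fin k → ℤ) :
    ‖Phi m w z‖ ≤ 2 := by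
  unfold Phi
  refine (norm_sub_le _ _).trans ?_
  rw [norm_mul]
  have h1 := norm_Gm m w z
  have h2 := norm_Gm m w (fun j => z j + 1)
  have h3 : ‖(p : ℂ)⁻¹‖ ≤ 1 := by
    rw [norm_inv, Complex.norm_natCast]
    exact inv_le_one_of_one_le₀ (by exact_mod_cast hp.out.one_lt.le)
  have h4 := mul_le_mul h3 h2 (norm_nonneg _) zero_le_one
  linarith

theorem kern_Phi (m : Fin k → Fin n → ℕ) (w : Fin k → ℤ_[p]) (hw : ∀ j, ‖w j‖ = 1) (L : ℕ)
    (hL : 1 ≤ L) : Kern p m (kF L (Phi m w)) := by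
  refine kern_kF p L m (Phi m w) hL ?_
  intro i j0 hm y hy
  have hcond : ∀ a : ℤ, ∀ j, j ≠ j0 → 0 < m j i → 0 ≤ Function.update y j0 a j := by
    intro a j hj hmj
    rw [Function.update_of_ne hj]
    exact hy j hj hmj
  constructor
  · have h1 := Gm_b m w hw i j0 hm (Function.update y j0 (-1)) (Function.update_self _ _ _)
      (hcond (-1))
    rw [Function.update_idem] at h1
    have h2 : Gm m w (fun j => Function.update y j0 0 j + 1) =
        Gm m w (fun j => Function.update y j0 (-1) j + 1) := Gm_congr m w fun j => by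
      by_cases hj : j = j0
      · right
        rw [hj, Function.update_self, Function.update_self]
        norm_num
      · left
        rw [Function.update_of_ne hj, Function.update_of_ne hj]
    unfold Phi
    rw [h2, h1]
    push_cast
    have h3 : (p : ℂ)⁻¹ * p = 1 := inv_mul_cancel₀ pC_ne
    linear_combination (-((Gm m w (Function.update y j0 0) : ℝ) : ℂ) -
      ((p : ℂ) - 1) * ((Gm m w (Function.update y j0 (-1)) : ℝ) : ℂ)) * h3
  · intro a ha
    have h1 := Gm_a m w hw i j0 hm (Function.update y j0 (-(a : ℤ)))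
      (by rw [Function.update_self]; omega) (hcond _)
    unfold Phi
    rw [h1]
    push_cast
    rw [← mul_assoc, inv_mul_cancel₀ pC_ne, one_mul, sub_self]

/-- the difference of the coefficients -/
lemma aK_sub (v : Fin k → Fin n → ℕ) (F : Fn k) (K : ℝ) (hK : ∀ y, ‖F y‖ ≤ K) (t : ℤ) :
    aK p v (fun y => F y - (p : ℂ)⁻¹ * F (fun j => y j + 1)) t =
      aK p v F t - (p : ℂ)⁻¹ * aK p v F (t - 1) := by
  have hs : ∀ t, Summable fun x : Fin n → ℕ =>
      (p : ℂ)⁻¹ ^ (∑ i, x i) * F (fun j => ∑ i, (x i : ℤ) * (v j i : ℤ) - t) := fun t =>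
    summable_aK p hp.out.two_le v F K hK t
  unfold aK
  rw [← tsum_mul_left, ← (hs t).tsum_sub ((hs (t - 1)).mul_left _)]
  refine tsum_congr fun x => ?_
  have h1 : (fun j => ∑ i, (x i : ℤ) * (v j i : ℤ) - t + 1) =
      fun j => ∑ i, (x i : ℤ) * (v j i : ℤ) - (t - 1) := by
    funext j
    ring
  beta_reduce
  rw [h1]
  ring

lemma dl_cast (m : Fin k → Fin n → ℕ) (c : Fin k → ℤ_[p]) (u : Fin n → ℕ) (t : ℤ) :
    (fun j => (dl m c u j : ℤ) - t) =
      fun j => (∑ i, (u i : ℤ) * (m j i : ℤ) - t) + ((c j).valuation : ℤ) := by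
  funext j
  unfold dl
  push_cast
  ring

omit hp in
lemma order_le {P : PowerSeries ℂ} {T₀ : ℂ} {μ : ℕ} (h : IsPoleOfOrder P T₀ μ)
    (D R : Polynomial ℂ) (hD : D ≠ 0) (hDR : (D : PowerSeries ℂ) * P = (R : PowerSeries ℂ)) :
    μ ≤ D.rootMultiplicity T₀ := by
  obtain ⟨A, B, hA, hB, hP⟩ := h
  have hA0 : A ≠ 0 := by
    rintro rfl
    simp at hA
  have e : D * A = R * ((Polynomial.X - Polynomial.C T₀) ^ μ * B) := by
    apply Polynomial.coe_injective ℂ
    rw [Polynomial.coe_mul, Polynomial.coe_mul, ← hP, ← hDR]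
    ring
  have hdvd : (Polynomial.X - Polynomial.C T₀) ^ μ ∣ D * A := ⟨R * B, by rw [e]; ring⟩
  have h1 := (Polynomial.le_rootMultiplicity_iff (mul_ne_zero hD hA0)).2 hdvd
  rw [Polynomial.rootMultiplicity_mul (mul_ne_zero hD hA0),
    Polynomial.rootMultiplicity_eq_zero hA, add_zero] at h1
  exact h1

omit [MeasurableSpace (Fin n → ℤ_[p])] [BorelSpace (Fin n → ℤ_[p])] in
/-- **The Poincare series.** -/
theorem poincare_mul (m : Fin k → Fin n → ℕ) (hm : Ind m) (c : Fin k → ℤ)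
    (hc : ∀ j, c j ≠ 0) (f : MvPolynomial (Fin n) ℤ)
    (hf : f = ∑ j, MvPolynomial.C (c j) * ∏ i, MvPolynomial.X i ^ m j i) :
    ∃ κ : MvPolynomial (Fin k) ℂ, Kern p m κ ∧ ∀ Q : Polynomial ℂ,
      Z p m (Polynomial.aeval (tau k) Q * κ) → ∃ R : Polynomial ℂ,
        ((Q * (1 - Polynomial.C ((p : ℂ)⁻¹) * Polynomial.X) : Polynomial ℂ) : PowerSeries ℂ) *
          poincare p f = (R : PowerSeries ℂ) := by
  classical
  let _ : MeasurableSpace (Fin n → ℤ_[p]) := borel _
  have _ : BorelSpace (Fin n → ℤ_[p]) := ⟨rfl⟩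
  set c' : Fin k → ℤ_[p] := fun j => (c j : ℤ_[p]) with hc'
  have hc'0 : ∀ j, c' j ≠ 0 := fun j => by
    simp only [hc']
    exact_mod_cast hc j
  set w : Fin k → ℤ_[p] := cu c' hc'0 with hw
  have hwn : ∀ j, ‖w j‖ = 1 := cu_norm c' hc'0
  obtain ⟨L, hL1, hL⟩ := Gm_shrink (p := p) m hm
  set γ : Fin k → ℕ := fun j => (c' j).valuation with hγ
  set F0 : Fn k := fun y => ((Gm m w (fun j => y j + (γ j : ℤ)) : ℝ) : ℂ) with hF0
  set F : Fn k := fun y => Phi m w (fun j => y j + (γ j : ℤ)) with hF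
  have hFF0 : F = fun y => F0 y - (p : ℂ)⁻¹ * F0 (fun j => y j + 1) := by
    funext y
    simp only [hF, hF0]
    unfold Phi
    have h1 : (fun j => y j + (γ j : ℤ) + 1) = fun j => y j + 1 + (γ j : ℤ) := by
      funext j
      ring
    rw [h1]
  set mon : MvPolynomial (Fin k) ℂ :=
    MvPolynomial.monomial (Finsupp.equivFunOnFinite.symm γ) 1 with hmon
  have hkF : act k (kF L (Phi m w)) (FG fun _ => 1) = Phi m w := by
    refine act_kF L (Phi m w) (Phi_min m w) fun y hy => ?_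
    unfold Phi
    rw [hL w hwn y hy]
    push_cast
    rw [← mul_assoc, inv_mul_cancel₀ pC_ne, one_mul, sub_self]
  have hact : act k (mon * kF L (Phi m w)) (FG fun _ => 1) = F := by
    rw [act_mul, hkF]
    funext y
    rw [hmon, act_monomial, one_mul]
    rfl
  refine ⟨mon * kF L (Phi m w), fun i j0 h => Ideal.mul_mem_left _ _
    (kern_Phi m w hwn L hL1 i j0 h), fun Q hZ => ?_⟩
  obtain ⟨A, hA⟩ := poly_aK p hp.out.two_le m _ F hact 2 (fun y => norm_Phi m w _) Q hZ
  -- the coefficients of the Poincare series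
  have hcoef : ∀ t : ℕ, PowerSeries.coeff t (poincare p f) = aK p m F0 t := by
    intro t
    have h1 := W_eq (p := p) m c' hc'0 t
    have h2 := measure_sol (p := p) f t
    have h3 : {x : Fin n → ℤ_[p] | (p : ℤ_[p]) ^ t ∣ GG m c' x} =
        {x | (p : ℤ_[p]) ^ t ∣ MvPolynomial.aeval x f} := by
      ext x
      have h4 : MvPolynomial.aeval x f = GG m c' x := by
        rw [hf]
        unfold GG XX
        rw [map_sum]
        refine Finset.sum_congr rfl fun j _ => ?_
        rw [map_mul, MvPolynomial.aeval_C, map_prod]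
        simp [hc']
      simp only [Set.mem_ofPred_eq]
      rw [h4]
    rw [h3, h2] at h1
    have h5 := mul_left_cancel₀ (V_pos (n := n) (p := p)).ne' h1
    have h6 : aK p m F0 t = (((∑' u : Fin n → ℕ, ((p : ℝ)⁻¹) ^ (∑ i, u i) *
        Gm m (cu c' hc'0) (fun j => (dl m c' u j : ℤ) - t) : ℝ)) : ℂ) := by
      unfold aK
      rw [Complex.ofReal_tsum]
      refine tsum_congr fun u => ?_
      rw [dl_cast]
      simp only [hF0, hγ, hw]
      push_cast
      rfl
    rw [h6, ← h5]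
    unfold poincare solCount
    rw [PowerSeries.coeff_mk, Nat.card_fin]
    push_cast
    rw [← pow_mul, ← pow_mul, mul_comm t n]
  have hP : ((1 - Polynomial.C ((p : ℂ)⁻¹) * Polynomial.X : Polynomial ℂ) : PowerSeries ℂ) *
      poincare p f = PowerSeries.C (aK p m F0 (0 : ℕ) - aK p m F (0 : ℕ)) +
        PowerSeries.mk (fun t : ℕ => aK p m F t) := by
    have e0 : ((1 - Polynomial.C ((p : ℂ)⁻¹) * Polynomial.X : Polynomial ℂ) : PowerSeries ℂ) =
        1 - PowerSeries.C ((p : ℂ)⁻¹) * PowerSeries.X := by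
      rw [Polynomial.coe_sub, Polynomial.coe_mul, Polynomial.coe_one, Polynomial.coe_C,
        Polynomial.coe_X]
    rw [e0]
    ext t
    rw [sub_mul, one_mul, map_sub, mul_assoc, PowerSeries.coeff_C_mul, map_add,
      PowerSeries.coeff_mk, PowerSeries.coeff_C]
    rcases t with _ | t
    · rw [PowerSeries.coeff_zero_X_mul, mul_zero, sub_zero, if_pos rfl, hcoef]
      ring
    · rw [PowerSeries.coeff_succ_X_mul, if_neg (Nat.succ_ne_zero t), zero_add, hcoef, hcoef,
        hFF0, aK_sub m F0 1 (fun y => norm_Gm m w _)]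
      have h7 : ((t + 1 : ℕ) : ℤ) - 1 = (t : ℤ) := by
        push_cast
        ring
      rw [h7]
  refine ⟨Q * Polynomial.C (aK p m F0 (0 : ℕ) - aK p m F (0 : ℕ)) + A, ?_⟩
  rw [Polynomial.coe_mul, mul_assoc, hP, mul_add, hA, Polynomial.coe_add, Polynomial.coe_mul,
    Polynomial.coe_C]

omit [MeasurableSpace (Fin n → ℤ_[p])] [BorelSpace (Fin n → ℤ_[p])] hp in
/-- **Poles of the Poincare series, affinely independent exponents, every prime.** -/
theorem indEP (hk : 2 ≤ k) (m : Fin k → Fin n → ℕ) (hm : Ind m) (c : Fin k → ℤ)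
    (hc : ∀ j, c j ≠ 0) (f : MvPolynomial (Fin n) ℤ)
    (hf : f = ∑ j, MvPolynomial.C (c j) * ∏ i, MvPolynomial.X i ^ m j i) (hpp : p.Prime)
    (T₀ : ℂ) (μ : ℕ) (hμ : 0 < μ) (hP : IsPoleOfOrder (poincare p f) T₀ μ) (b : Polynomial ℂ)
    (hb0 : b ≠ 0) (hb : IsBFunction (MvPolynomial.map (Int.castRingHom ℂ) f) b) :
    μ ≤ b.rootMultiplicity ((-Real.log ‖T₀‖ / Real.log p : ℝ) : ℂ) := by
  classical
  have : Fact p.Prime := ⟨hpp⟩
  have hT0 : T₀ ≠ 0 := pole_ne_zero hμ hP
  have hq : MvPolynomial.map (Int.castRingHom ℂ) f = sparse m (fun j => ((c j : ℤ) : ℂ)) := by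
    rw [hf]
    unfold sparse
    rw [map_sum]
    refine Finset.sum_congr rfl fun j _ => ?_
    rw [map_mul, MvPolynomial.map_C, map_prod]
    simp
  rw [hq] at hb
  obtain ⟨P, hbP, hrel⟩ := Pool.Agent.W525.SM.taskA m _ b hk hm
    (fun j => by exact_mod_cast hc j) hb
  have hP0 : P ≠ 0 := by
    rintro rfl
    apply hb0
    rw [hbP, mul_zero]
  obtain ⟨κ, hκ, hκR⟩ := poincare_mul (p := p) m hm c hc f hf
  obtain ⟨Q1, hQ1, hZ⟩ := crMu p hpp.two_le m P (relG_of_relM m P hrel) κ hκ T₀ hT0 hP0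
  obtain ⟨R, hR⟩ := hκR _ hZ
  set t0 : ℂ := ((-Real.log ‖T₀‖ / Real.log p : ℝ) : ℂ) with ht0
  set ν : ℕ := P.rootMultiplicity t0 with hν
  have hp0 : (p : ℂ) ≠ 0 := by exact_mod_cast hpp.ne_zero
  have hlin : (1 - Polynomial.C ((p : ℂ)⁻¹) * Polynomial.X : Polynomial ℂ) =
      Polynomial.C (-(p : ℂ)⁻¹) * (Polynomial.X - Polynomial.C (p : ℂ)) := by
    rw [mul_sub, ← Polynomial.C_mul, neg_mul, inv_mul_cancel₀ hp0]
    simp only [map_neg, map_one]
    ring
  have hlin0 : (1 - Polynomial.C ((p : ℂ)⁻¹) * Polynomial.X : Polynomial ℂ) ≠ 0 := by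
    rw [hlin]
    exact mul_ne_zero (Polynomial.C_ne_zero.2 (neg_ne_zero.2 (inv_ne_zero hp0)))
      (Polynomial.X_sub_C_ne_zero _)
  have hQ10 : Q1 ≠ 0 := by
    rintro rfl
    simp at hQ1
  have hpow0 : (Polynomial.X - Polynomial.C T₀ : Polynomial ℂ) ^ ν ≠ 0 :=
    pow_ne_zero _ (Polynomial.X_sub_C_ne_zero _)
  have hD0 : Q1 * (Polynomial.X - Polynomial.C T₀) ^ ν *
      (1 - Polynomial.C ((p : ℂ)⁻¹) * Polynomial.X) ≠ 0 :=
    mul_ne_zero (mul_ne_zero hQ10 hpow0) hlin0
  have h1 := order_le hP _ R hD0 hR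
  have h2 : (Q1 * (Polynomial.X - Polynomial.C T₀) ^ ν *
      (1 - Polynomial.C ((p : ℂ)⁻¹) * Polynomial.X)).rootMultiplicity T₀ =
      ν + (1 - Polynomial.C ((p : ℂ)⁻¹) * Polynomial.X : Polynomial ℂ).rootMultiplicity T₀ := by
    rw [Polynomial.rootMultiplicity_mul hD0,
      Polynomial.rootMultiplicity_mul (mul_ne_zero hQ10 hpow0),
      Polynomial.rootMultiplicity_eq_zero hQ1, Polynomial.rootMultiplicity_X_sub_C_pow, zero_add]
  rw [h2] at h1
  have hX1 : (Polynomial.X + 1 : Polynomial ℂ) = Polynomial.X - Polynomial.C (-1) := by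
    simp
  have hX10 : (Polynomial.X + 1 : Polynomial ℂ) ≠ 0 := by
    rw [hX1]
    exact Polynomial.X_sub_C_ne_zero _
  have h3 : b.rootMultiplicity t0 = (Polynomial.X + 1 : Polynomial ℂ).rootMultiplicity t0 + ν := by
    rw [hbP, Polynomial.rootMultiplicity_mul (mul_ne_zero hX10 hP0)]
  have h4 : (1 - Polynomial.C ((p : ℂ)⁻¹) * Polynomial.X : Polynomial ℂ).rootMultiplicity T₀ ≤
      (Polynomial.X + 1 : Polynomial ℂ).rootMultiplicity t0 := by
    by_cases hTp : T₀ = p
    · have hlp : Real.log p ≠ 0 :=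
        (Real.log_pos (by exact_mod_cast hpp.one_lt)).ne'
      have h5 : t0 = -1 := by
        rw [ht0, hTp, Complex.norm_natCast, neg_div, div_self hlp]
        push_cast
        rfl
      rw [h5, hX1, Polynomial.rootMultiplicity_X_sub_C_self, hlin, hTp,
        Polynomial.rootMultiplicity_mul (by rw [← hlin]; exact hlin0),
        Polynomial.rootMultiplicity_C, Polynomial.rootMultiplicity_X_sub_C_self]
    · have h5 : (1 - Polynomial.C ((p : ℂ)⁻¹) * Polynomial.X : Polynomial ℂ).rootMultiplicity T₀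
          = 0 := by
        apply Polynomial.rootMultiplicity_eq_zero
        rw [hlin]
        intro h
        rw [Polynomial.IsRoot, Polynomial.eval_mul, Polynomial.eval_C, Polynomial.eval_sub,
          Polynomial.eval_X, Polynomial.eval_C] at h
        rcases mul_eq_zero.1 h with h | h
        · exact neg_ne_zero.2 (inv_ne_zero hp0) h
        · exact hTp (sub_eq_zero.1 h)
      rw [h5]
      exact Nat.zero_le _
  rw [h3]
  omega

end Pool.Agent.TH216.EP
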