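import Mathlib

set_option autoImplicit false

/-! Special pairs of variables: definition. -/

namespace Pool.Agent.TH216.EP

/-- There is no pair of variables `x_i`, `x_k` such that every monomial `x ^ (v j)` is divisible by
`x_i` or `x_k`, at least two of them are divisible by `x_i`, not by `x_i ^ 2` and not by `x_k`, and at
least two of them are divisible by `x_k`, not by `x_k ^ 2` and not by `x_i`. -/
def NoPair {r n : ℕ} (v : Fin r → Fin n → ℕ) : Prop :=
  ∀ i k : Fin n, i ≠ k → (∀ j, v j i ≠ 0 ∨ v j k ≠ 0) →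
    (∃ α β, α ≠ β ∧ v α i = 1 ∧ v α k = 0 ∧ v β i = 1 ∧ v β k = 0) →
    (∃ γ δ, γ ≠ δ ∧ v γ i = 0 ∧ v γ k = 1 ∧ v δ i = 0 ∧ v δ k = 1) → False

end Pool.Agent.TH216.EP
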