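import Pool.Agent.TH216.EP.T5
import Pool.Agent.TH216.EP.Df
import Pool.Agent.TH216.G3.HDO

set_option autoImplicit false
set_option linter.unusedVariables false

/-! At most three variables, generic coefficients, every prime: the theorem. -/

namespace Pool.Agent.TH216.EP

open MvPolynomial Pool.Agent.H628R4.TP Pool.Agent.W206.CU
open Pool.Agent.W425.ND (spa)
open Pool.Agent.TH216.HD (InHull inC_iff locS_iff genP3O)
open Pool.Agent.TH216.MF (hypS_of_locS)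

variable {r n : ℕ}

theorem ord3 (v : Fin r → Fin n → ℕ) (hv : Function.Injective v) (hv1 : ∃ j, v j ≠ 0)
    (h : MvPolynomial (Fin n) ℤ) (hh : ∀ w ∈ h.support, InHull v w) :
    ∃ g : MvPolynomial (Fin r) ℚ, g ≠ 0 ∧
      ∀ c : Fin r → ℤ, MvPolynomial.eval (fun j => (c j : ℚ)) g ≠ 0 →
      ∀ p : ℕ, p.Prime →
        ∀ (T₀ : ℂ) (m : ℕ), 0 < m → IsPoleOfOrder (poincare p (spa v c + h)) T₀ m →
        ∀ b : Polynomial ℂ, b ≠ 0 →
          IsBFunction (MvPolynomial.map (Int.castRingHom ℂ) (spa v c + h)) b →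
          ∀ σ : ℚ, -Real.log ‖T₀‖ / Real.log p = -(σ : ℝ) → (∀ j, v j ≠ 0) →
            Pool.Agent.TH216.HD.LocS v h σ →
            m ≤ b.rootMultiplicity ((-Real.log ‖T₀‖ / Real.log p : ℝ) : ℂ) := by
  obtain ⟨j1, -⟩ := hv1
  have hr : 0 < r := Fin.pos j1
  by_cases hv0 : ∀ j, v j ≠ 0
  · have hNP : ∀ w ∈ h.support, Pool.Agent.W425.SV.NP v w := by
      intro w hw
      obtain ⟨l, h1, h3, h4⟩ := hh w hw
      exact ⟨l, h1, h3, fun i => (h4 i).le⟩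
    obtain ⟨g, hg, hgc⟩ := gen_ordF hr v hv hv0 h hNP
    refine ⟨g, hg, fun c hc p hpp T₀ m hm hP b hb0 hb σ hσ _ hL => ?_⟩
    obtain ⟨-, -, α, hα, h5⟩ := hgc c hc p hpp T₀ m hm hP b hb0 hb
    apply h5
    have e1 : -α = σ := by
      have h6 : (α : ℝ) = -(σ : ℝ) := by rw [← hα, hσ]
      have h7 : α = -σ := by exact_mod_cast h6
      rw [h7, neg_neg]
    rw [e1]
    exact hypS_of_locS hr v h hNP σ ((locS_iff v h σ).2 hL)
  · exact ⟨1, one_ne_zero, fun c _ p _ T₀ m _ _ b _ _ σ _ h0 => absurd h0 hv0⟩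

/-- **At most three variables, generic coefficients, every prime.** -/
theorem all3 (hn : n ≤ 3)
    (v : Fin r → Fin n → ℕ) (hv : Function.Injective v) (hv1 : ∃ j, v j ≠ 0)
    (h : MvPolynomial (Fin n) ℤ) (hh : ∀ w ∈ h.support, InHull v w) :
    ∃ g : MvPolynomial (Fin r) ℚ, g ≠ 0 ∧
      ∀ c : Fin r → ℤ, MvPolynomial.eval (fun j => (c j : ℚ)) g ≠ 0 →
      ∃ S : Finset ℕ, ∀ p : ℕ, p.Prime →
        ∀ (T₀ : ℂ) (m : ℕ), 0 < m → IsPoleOfOrder (poincare p (spa v c + h)) T₀ m →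
        ∀ b : Polynomial ℂ, b ≠ 0 →
          IsBFunction (MvPolynomial.map (Int.castRingHom ℂ) (spa v c + h)) b →
          ((-Real.log ‖T₀‖ / Real.log p ≠ -2 ∨ NoPair v ∨ p ∉ S) →
            b.eval ((-Real.log ‖T₀‖ / Real.log p : ℝ) : ℂ) = 0) ∧
          ∀ σ : ℚ, -Real.log ‖T₀‖ / Real.log p = -(σ : ℝ) → (∀ j, v j ≠ 0) →
            Pool.Agent.TH216.HD.LocS v h σ →
            m ≤ b.rootMultiplicity ((-Real.log ‖T₀‖ / Real.log p : ℝ) : ℂ) := by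
  obtain ⟨g1, hg1, h1⟩ := genP3O hn v hv hv1 h hh
  obtain ⟨g2, hg2, h2⟩ := gen3E hn v hv hv1 h (fun w hw => (inC_iff v w).2 (hh w hw))
  obtain ⟨g3, hg3, h3⟩ := ord3 v hv hv1 h hh
  refine ⟨g1 * g2 * g3, mul_ne_zero (mul_ne_zero hg1 hg2) hg3, fun c hc => ?_⟩
  rw [map_mul, map_mul] at hc
  obtain ⟨S, hS⟩ := h1 c (left_ne_zero_of_mul (left_ne_zero_of_mul hc))
  have hE := h2 c (right_ne_zero_of_mul (left_ne_zero_of_mul hc))
  have hO := h3 c (right_ne_zero_of_mul hc)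
  refine ⟨S, fun p hpp T₀ m hm hP b hb0 hb => ⟨fun hcase => ?_, hO p hpp T₀ m hm hP b hb0 hb⟩⟩
  rcases hcase with h4 | h4 | h4
  · exact hE p hpp T₀ m hm hP (Or.inr h4) b hb
  · exact hE p hpp T₀ m hm hP (Or.inl h4) b hb
  · exact (hS p hpp h4 T₀ m hm hP b hb0 hb).1

end Pool.Agent.TH216.EP
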