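import Pool.Agent.TH216.EP.GenP

set_option autoImplicit false
set_option linter.unusedVariables false

/-! Poles of the Poincare series, generic coefficients, every prime: the condition on the faces. -/

namespace Pool.Agent.TH216.EP

open MvPolynomial Pool.Agent.TH216.MF
open Pool.Agent.H628R4.TP Pool.Agent.W425.MM Pool.Agent.W425.GN
open Pool.Agent.W425.ND (spa)
open Pool.Agent.W426.SM (gord IsRay face)
open Pool.Agent.W206.CU (poincare IsPoleOfOrder pole_ne_zero)
open Pool.Agent.W425.BF (B1 BD hz hz_support hz_eq cof gen_rootsJ shf shf_eval shf_ne)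
open Pool.Agent.W425.SV (NP RelV Kil1)
open Pool.Agent.W425.PN (qpoly idn_of)

variable {r N : ℕ}

/-- the conclusion for the coefficient vector `c` -/
def ConcF (v : Fin r → Fin N → ℕ) (h : MvPolynomial (Fin N) ℤ) (c : Fin r → ℤ) : Prop :=
  ∀ p : ℕ, p.Prime → ∀ (T₀ : ℂ) (μ : ℕ), 0 < μ → IsPoleOfOrder (poincare p (spa v c + h)) T₀ μ →
    ∀ b : Polynomial ℂ, b ≠ 0 →
      IsBFunction (MvPolynomial.map (Int.castRingHom ℂ) (spa v c + h)) b →
      b.eval (-1) = 0 ∧
      (∀ a : Fin N → ℕ, 0 < gord v a → NonB v False a →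
        b.eval (-(((∑ i, a i : ℕ) : ℂ) / gord v a)) = 0) ∧
      ∃ α : ℚ, -Real.log ‖T₀‖ / Real.log p = (α : ℝ) ∧
        (HypS (Fin.append v (ke v h)) ((-α : ℚ) : ℝ) →
          μ ≤ b.rootMultiplicity ((-Real.log ‖T₀‖ / Real.log p : ℝ) : ℂ))

lemma hypS_kept {R R' : Type} [CommRing R] [CommRing R'] {v : Fin r → Fin N → ℕ}
    {h : MvPolynomial (Fin N) R} {h' : MvPolynomial (Fin N) R'} (hk : kept v h = kept v h') {σ : ℝ}
    (hS : HypS (Fin.append v (ke v h')) σ) : HypS (Fin.append v (ke v h)) σ := by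
  have key : ∀ S S' : Finset (Fin N →₀ ℕ), S = S' →
      HypS (Fin.append v (fun (l : Fin S'.card) i => (S'.equivFin.symm l).1 i)) σ →
      HypS (Fin.append v (fun (l : Fin S.card) i => (S.equivFin.symm l).1 i)) σ := by
    intro S S' hSS h1
    subst hSS
    exact h1
  exact key _ _ hk hS

lemma kept_map (v : Fin r → Fin N → ℕ) (h : MvPolynomial (Fin N) ℤ) :
    kept v (MvPolynomial.map (Int.castRingHom ℚ) h) = kept v h := by
  ext w
  rw [mem_kept, mem_kept]
  refine and_congr ?_ Iff.rfl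
  constructor
  · intro hw
    exact MvPolynomial.support_map_subset _ _ hw
  · intro hw
    rw [mem_support_iff] at hw ⊢
    rw [coeff_map]
    intro h0
    apply hw
    have h1 : ((coeff w h : ℤ) : ℚ) = 0 := h0
    exact_mod_cast h1

theorem gen_ordF0 (hr : 0 < r)
    (v : Fin r → Fin N → ℕ) (hv : Function.Injective v) (hv0 : ∀ j, v j ≠ 0)
    (h : MvPolynomial (Fin N) ℤ) (hh : ∀ w ∈ h.support, NP v w)
    (hvh : ∀ w ∈ h.support, ∀ j, ¬ ∀ x, w x = v j x) :
    ∃ g : MvPolynomial (Fin r) ℚ, g ≠ 0 ∧ ∀ c : Fin r → ℤ,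
      eval (fun j => (c j : ℚ)) g ≠ 0 → ConcF v h c := by
  classical
  have hne : NeZero r := ⟨by omega⟩
  set hQ : MvPolynomial (Fin N) ℚ := MvPolynomial.map (Int.castRingHom ℚ) h with hhQ
  have hsub : ∀ w ∈ hQ.support, w ∈ h.support := fun w hw =>
    MvPolynomial.support_map_subset _ _ hw
  have hsup : ∀ w ∈ h.support, w ∈ hQ.support := by
    intro w hw
    rw [mem_support_iff] at hw ⊢
    rw [hhQ, coeff_map]
    intro h0
    apply hw
    have h1 : ((coeff w h : ℤ) : ℚ) = 0 := h0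
    exact_mod_cast h1
  have hhq : ∀ w ∈ hQ.support, NP v w := fun w hw => hh w (hsub w hw)
  obtain ⟨g0, hg0, hgb⟩ := univ pF4 pR1 hr v hv hQ
  obtain ⟨g1, hg1, h1⟩ := gen_rootsJ hr v hv hv0 hQ hhq
  obtain ⟨g2, hg2, h2⟩ := gen_nonDF pF4 hr v (weZ h) (we_npZ v h hh)
    (fun l => ((wcZ h l : ℤ) : ℚ))
  have hg3 : (∏ j : Fin r, (X j : MvPolynomial (Fin r) ℚ)) ≠ 0 :=
    Finset.prod_ne_zero_iff.2 fun j _ => X_ne_zero j
  refine ⟨g0 * g1 * g2 * ∏ j : Fin r, (X j : MvPolynomial (Fin r) ℚ),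
    mul_ne_zero (mul_ne_zero (mul_ne_zero hg0 hg1) hg2) hg3, fun c hc'' => ?_⟩
  set cQ : Fin r → ℚ := fun j => (c j : ℚ) with hcQ
  rw [map_mul] at hc''
  have hc' := left_ne_zero_of_mul hc''
  have hcne : ∀ j, c j ≠ 0 := by
    have h5 := right_ne_zero_of_mul hc''
    rw [map_prod] at h5
    intro j
    have h6 := Finset.prod_ne_zero_iff.1 h5 j (Finset.mem_univ j)
    rw [eval_X] at h6
    intro h7
    apply h6
    simp only [hcQ]
    rw [h7]
    rfl
  have hc : aeval (fun j => ((cQ j : ℚ) : ℂ)) (g0 * g1 * g2) ≠ 0 := by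
    have h0 : aeval (fun j => ((cQ j : ℚ) : ℂ)) (g0 * g1 * g2) =
        ((eval cQ (g0 * g1 * g2) : ℚ) : ℂ) := by
      have h5 := aeval_algebraMap_apply ℂ cQ (g0 * g1 * g2)
      exact h5
    rw [h0]
    exact_mod_cast hc'
  rw [map_mul, map_mul] at hc
  have hb0 := hgb _ (left_ne_zero_of_mul (left_ne_zero_of_mul hc))
  have hb := h1 _ (right_ne_zero_of_mul (left_ne_zero_of_mul hc))
  have hnd := h2 _ (right_ne_zero_of_mul hc)
  set m : Fin (r + h.support.card) → Fin N → ℕ := Fin.append v (weZ h) with hm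
  set cc : Fin (r + h.support.card) → ℤ := Fin.append c (wcZ h) with hcc
  have hcast : (fun j => ((cc j : ℤ) : ℚ)) = Fin.append cQ (fun l => ((wcZ h l : ℤ) : ℚ)) :=
    append_map (fun q : ℤ => (q : ℚ)) c (wcZ h)
  have hnq : NonD m (fun j => algebraMap ℚ ℂ ((cc j : ℤ) : ℚ)) := by
    have h3 := append_map (fun q : ℚ => (q : ℂ)) cQ (fun l => ((wcZ h l : ℤ) : ℚ))
    have h4 : (fun j => algebraMap ℚ ℂ ((cc j : ℤ) : ℚ)) =
        fun j => (((Fin.append cQ (fun l => ((wcZ h l : ℤ) : ℚ)) j : ℚ)) : ℂ) := by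
      funext j
      rw [← hcast]
      rfl
    rw [h4, h3]
    exact hnd
  have hid : ∀ u : Fin N → ℕ, Pool.Agent.W425.PN.Idn m (fun j => ((cc j : ℤ) : ℚ))
      (Finset.univ.filter fun j => ∑ i, u i * m j i = gord m u) := fun u =>
    idn_of m (fun j => ((cc j : ℤ) : ℚ)) hnq u
  have hccne : ∀ j, cc j ≠ 0 := by
    intro j
    refine Fin.addCases (fun j => ?_) (fun l => ?_) j
    · rw [hcc, Fin.append_left]; exact hcne j
    · rw [hcc, Fin.append_right]
      exact mem_support_iff.1 (h.support.equivFin.symm l).2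
  have hminj : Function.Injective m := by
    intro j j'
    refine Fin.addCases (fun j => ?_) (fun l => ?_) j <;>
      refine Fin.addCases (fun j' => ?_) (fun l' => ?_) j'
    · rw [hm, Fin.append_left, Fin.append_left]
      intro h3
      rw [hv h3]
    · rw [hm, Fin.append_left, Fin.append_right]
      intro h3
      exact absurd (fun x => (congrFun h3 x).symm)
        (hvh _ (h.support.equivFin.symm l').2 j)
    · rw [hm, Fin.append_left, Fin.append_right]
      intro h3
      exact absurd (fun x => congrFun h3 x) (hvh _ (h.support.equivFin.symm l).2 j')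
    · rw [hm, Fin.append_right, Fin.append_right]
      intro h3
      have h4 : (h.support.equivFin.symm l) = (h.support.equivFin.symm l') :=
        Subtype.ext (Finsupp.ext fun x => congrFun h3 x)
      rw [h.support.equivFin.symm.injective h4]
  set m' : Fin (r + (kept v hQ).card) → Fin N → ℕ := Fin.append v (ke v hQ) with hm'
  have hminj' : Function.Injective m' := by
    intro j j'
    refine Fin.addCases (fun j => ?_) (fun l => ?_) j <;>
      refine Fin.addCases (fun j' => ?_) (fun l' => ?_) j'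
    · rw [hm', Fin.append_left, Fin.append_left]
      intro h3
      rw [hv h3]
    · rw [hm', Fin.append_left, Fin.append_right]
      intro h3
      obtain ⟨w, hw, hwe, -⟩ := ke_mem v hQ l'
      exact absurd (fun x => by rw [← hwe, ← congrFun h3 x]) (hvh w (hsub w hw) j)
    · rw [hm', Fin.append_left, Fin.append_right]
      intro h3
      obtain ⟨w, hw, hwe, -⟩ := ke_mem v hQ l
      exact absurd (fun x => by rw [← hwe, congrFun h3 x]) (hvh w (hsub w hw) j')
    · rw [hm', Fin.append_right, Fin.append_right]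
      intro h3
      have h4 : ((kept v hQ).equivFin.symm l) = ((kept v hQ).equivFin.symm l') :=
        Subtype.ext (Finsupp.ext fun x => congrFun h3 x)
      rw [(kept v hQ).equivFin.symm.injective h4]
  have hma : ∀ j', ∃ j, m j = m' j' := by
    intro j'
    refine Fin.addCases (fun j => ?_) (fun l => ?_) j'
    · exact ⟨Fin.castAdd _ j, by rw [hm, hm', Fin.append_left, Fin.append_left]⟩
    · obtain ⟨w, hw, hwe, -⟩ := ke_mem v hQ l
      refine ⟨Fin.natAdd r (h.support.equivFin ⟨w, hsub w hw⟩), ?_⟩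
      rw [hm, hm', Fin.append_right, Fin.append_right]
      funext i
      rw [hwe]
      unfold weZ
      rw [Equiv.symm_apply_apply]
  have hmb : ∀ j, InC m' Finset.univ (m j) := by
    intro j
    refine Fin.addCases (fun j => ?_) (fun l => ?_) j
    · rw [hm, Fin.append_left]
      exact inC_append v _ _ (inC_self v _ j (Finset.mem_univ _))
    · rw [hm, Fin.append_right]
      by_cases hC : InC v Finset.univ (weZ h l)
      · exact inC_append v _ _ hC
      · have hmem : (h.support.equivFin.symm l).1 ∈ kept v hQ :=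
          (mem_kept v hQ _).2 ⟨hsup _ (h.support.equivFin.symm l).2, hC⟩
        have h3 : m' (Fin.natAdd r ((kept v hQ).equivFin ⟨_, hmem⟩)) = weZ h l := by
          rw [hm', Fin.append_right]
          funext i
          unfold ke
          rw [Equiv.symm_apply_apply]
          rfl
        rw [← h3]
        exact inC_self _ _ _ (Finset.mem_univ _)
  have hf : spa v c + h = ∑ j, MvPolynomial.C (cc j) * ∏ i, MvPolynomial.X i ^ m j i := by
    rw [Fin.sum_univ_add]
    simp only [hm, hcc, Fin.append_left, Fin.append_right]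
    rw [← h_eqZ h]
    rfl
  have hk : 0 < r + h.support.card := by omega
  intro p hpp T₀ μ hμ hP b hb0' hbf
  have hmap : MvPolynomial.map (Int.castRingHom ℂ) (spa v c + h) =
      spa v (fun j => ((cQ j : ℚ) : ℂ)) + MvPolynomial.map (algebraMap ℚ ℂ) hQ := by
    rw [map_add, hhQ, MvPolynomial.map_map]
    congr 1
    unfold spa
    simp [hcQ]
  rw [hmap] at hbf
  obtain ⟨h3, h4⟩ := hb b hbf
  refine ⟨h3, h4, ?_⟩
  obtain ⟨α, hα⟩ := ratEP hk m cc hccne hid _ hf hpp T₀ μ hμ hP
  refine ⟨α, hα, fun hL => ?_⟩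
  have hcast2 : ((-Real.log ‖T₀‖ / Real.log p : ℝ) : ℂ) = (α : ℂ) := by
    rw [hα]
    push_cast
    rfl
  have hnHP : ¬ HP v hQ α (b.rootMultiplicity (α : ℂ)) := by
    intro hHP
    have h5 := hb0 b ((bfun_iff _ _).1 hbf) α _ hHP
    exact Polynomial.pow_rootMultiplicity_not_dvd hb0' (α : ℂ) h5
  obtain ⟨θ, pol, hpol0, hrel, hmult⟩ := rel_of_not_HP v hv hv0 hQ hhq α _ hnHP
  have h5 := ndEP2 hk m hminj m' hminj' hma hmb cc hccne hid _ hf hpp T₀ μ hμ hP pol hpol0 θ hrel
    (by
      have h6 : Real.log ‖T₀‖ / Real.log p = ((-α : ℚ) : ℝ) := by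
        push_cast
        rw [← hα]
        ring
      rw [h6]
      exact hypS_kept (kept_map v h) hL)
  rw [hcast2] at h5 ⊢
  exact h5.trans hmult

/-- **Orders of the poles of the Poincare series, generic coefficients, every prime.** -/
theorem gen_ordF (hr : 0 < r)
    (v : Fin r → Fin N → ℕ) (hv : Function.Injective v) (hv0 : ∀ j, v j ≠ 0)
    (h : MvPolynomial (Fin N) ℤ) (hh : ∀ w ∈ h.support, NP v w) :
    ∃ g : MvPolynomial (Fin r) ℚ, g ≠ 0 ∧ ∀ c : Fin r → ℤ,
      eval (fun j => (c j : ℚ)) g ≠ 0 → ConcF v h c := by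
  classical
  set cf : Fin r → ℤ := fun j => coeff (Finsupp.equivFunOnFinite.symm (v j)) h with hcf
  set h0 : MvPolynomial (Fin N) ℤ := h - spa v cf with hh0
  set hQ : MvPolynomial (Fin N) ℚ := MvPolynomial.map (Int.castRingHom ℚ) h with hhQ
  have hcof : cof v hQ = fun j => ((cf j : ℤ) : ℚ) := by
    funext j
    show coeff _ hQ = _
    rw [hhQ, coeff_map]
    rfl
  have hmap0 : MvPolynomial.map (Int.castRingHom ℚ) h0 = hz v hQ := by
    unfold hz
    rw [hh0, map_sub, hcof]
    congr 1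
    unfold spa
    simp
  have hs0 : ∀ w ∈ h0.support, w ∈ (hz v hQ).support := by
    intro w hw
    rw [mem_support_iff] at hw ⊢
    rw [← hmap0, coeff_map]
    intro h1
    apply hw
    have h2 : ((coeff w h0 : ℤ) : ℚ) = 0 := h1
    exact_mod_cast h2
  have hs1 : ∀ w ∈ h0.support, w ∈ h.support := fun w hw =>
    MvPolynomial.support_map_subset _ _ ((hz_support v hv hQ).1 w (hs0 w hw))
  obtain ⟨g, hg, hgc⟩ := gen_ordF0 hr v hv hv0 h0
    (fun w hw => hh w (hs1 w hw)) (fun w hw => (hz_support v hv hQ).2 w (hs0 w hw))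
  refine ⟨shf (cof v hQ) g, shf_ne _ _ hg, fun c hc => ?_⟩
  have h1 := hgc (fun j => c j + cf j) (by
    intro h2
    apply hc
    have h3 := shf_eval (K := ℚ) (cof v hQ) g (fun j => (c j : ℚ))
    rw [← coe_aeval_eq_eval] at h2 ⊢
    rw [← h2]
    rw [hcof] at h3 ⊢
    have h4 : (fun j => (((c j + cf j : ℤ)) : ℚ)) =
        fun j => (c j : ℚ) + algebraMap ℚ ℚ ((cf j : ℤ) : ℚ) := by
      funext j
      push_cast
      rfl
    rw [h4]
    exact h3)
  have heq : spa v c + h = spa v (fun j => c j + cf j) + h0 := by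
    have h5 : spa v (fun j => c j + cf j) = spa v c + spa v cf := by
      unfold spa
      rw [← Finset.sum_add_distrib]
      refine Finset.sum_congr rfl fun j _ => ?_
      rw [C_add, add_mul]
    rw [h5, hh0]
    ring
  have hkept : kept v h0 = kept v h := by
    ext w
    rw [mem_kept, mem_kept]
    constructor
    · rintro ⟨h6, h7⟩
      exact ⟨hs1 w h6, h7⟩
    · rintro ⟨h6, h7⟩
      refine ⟨?_, h7⟩
      rw [mem_support_iff] at h6 ⊢
      have h8 : coeff w (spa v cf) = 0 := by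
        by_contra hne
        apply h7
        unfold spa at hne
        rw [coeff_sum] at hne
        obtain ⟨j, -, hj⟩ := Finset.exists_ne_zero_of_sum_ne_zero hne
        have h9 : (∏ i, X i ^ v j i : MvPolynomial (Fin N) ℤ) =
            monomial (Finsupp.equivFunOnFinite.symm (v j)) 1 := by
          rw [MvPolynomial.monomial_eq, C_1, one_mul, Finsupp.prod_fintype _ _ (fun _ => pow_zero _)]
          rfl
        rw [h9, coeff_C_mul, coeff_monomial] at hj
        have h10 : Finsupp.equivFunOnFinite.symm (v j) = w := by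
          by_contra h11
          rw [if_neg h11, mul_zero] at hj
          exact hj rfl
        have h12 : (fun i => w i) = v j := by
          funext i
          rw [← h10]
          rfl
        rw [h12]
        exact inC_self v _ j (Finset.mem_univ _)
      rw [hh0, coeff_sub, h8, sub_zero]
      exact h6
  unfold ConcF at h1 ⊢
  rw [heq]
  intro p hpp T₀ μ hμ hP b hb0 hb
  obtain ⟨h3, h4, α, hα, h5⟩ := h1 p hpp T₀ μ hμ hP b hb0 hb
  exact ⟨h3, h4, α, hα, fun hL => h5 (hypS_kept hkept hL)⟩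

/-- the levels with a root: if `σ` is the level of a ray, then it is `1`, or the level of a facet
with a simplex which is not B1, or the condition on the faces holds -/
def LevOK (v : Fin r → Fin N → ℕ) (h : MvPolynomial (Fin N) ℤ) (σ : ℚ) : Prop :=
  (∃ a : Fin N → ℕ, IsRay v a ∧ 0 < gord v a ∧ ((∑ i, a i : ℕ) : ℚ) / gord v a = σ) →
    σ = 1 ∨ (∃ a : Fin N → ℕ, 0 < gord v a ∧ NonB v False a ∧
      ((∑ i, a i : ℕ) : ℚ) / gord v a = σ) ∨ HypS (Fin.append v (ke v h)) (σ : ℝ)

/-- **Poles of the Poincare series, generic coefficients, every prime, condition on the faces.** -/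
theorem genFE (hr : 0 < r)
    (v : Fin r → Fin N → ℕ) (hv : Function.Injective v) (hv0 : ∀ j, v j ≠ 0)
    (h : MvPolynomial (Fin N) ℤ) (hh : ∀ w ∈ h.support, NP v w) :
    ∃ g : MvPolynomial (Fin r) ℚ, g ≠ 0 ∧
      ∀ c : Fin r → ℤ, MvPolynomial.eval (fun j => (c j : ℚ)) g ≠ 0 →
      ∀ p : ℕ, p.Prime →
        ∀ (T₀ : ℂ) (m : ℕ), 0 < m → IsPoleOfOrder (poincare p (spa v c + h)) T₀ m →
        ∀ b : Polynomial ℂ, b ≠ 0 →
          IsBFunction (MvPolynomial.map (Int.castRingHom ℂ) (spa v c + h)) b →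
          ∃ σ : ℚ, -Real.log ‖T₀‖ / Real.log p = -(σ : ℝ) ∧
            (LevOK v h σ → b.eval ((-Real.log ‖T₀‖ / Real.log p : ℝ) : ℂ) = 0) ∧
            (HypS (Fin.append v (ke v h)) (σ : ℝ) →
              m ≤ b.rootMultiplicity ((-Real.log ‖T₀‖ / Real.log p : ℝ) : ℂ)) := by
  obtain ⟨g, hg, hgc⟩ := gen_ordF hr v hv hv0 h hh
  refine ⟨g, hg, fun c hc p hpp T₀ m hm hP b hb0 hb => ?_⟩
  obtain ⟨h3, h4, α, hα, h5⟩ := hgc c hc p hpp T₀ m hm hP b hb0 hb
  have hcast : ((-Real.log ‖T₀‖ / Real.log p : ℝ) : ℂ) = (α : ℂ) := by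
    rw [hα]
    push_cast
    rfl
  have hroot : HypS (Fin.append v (ke v h)) ((-α : ℚ) : ℝ) →
      b.eval ((-Real.log ‖T₀‖ / Real.log p : ℝ) : ℂ) = 0 := by
    intro h6
    have h7 := h5 h6
    have h8 : 0 < b.rootMultiplicity ((-Real.log ‖T₀‖ / Real.log p : ℝ) : ℂ) := by omega
    exact (Polynomial.rootMultiplicity_pos hb0).1 h8
  refine ⟨-α, by rw [hα]; push_cast; ring, fun hL => ?_, h5⟩
  by_cases hray : ∃ a : Fin N → ℕ, IsRay v a ∧ 0 < gord v a ∧
      ((∑ i, a i : ℕ) : ℚ) / gord v a = -α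
  · rcases hL hray with h6 | ⟨a', hga', hn', he⟩ | h6
    · have : α = -1 := by linarith
      rw [hcast, this]
      push_cast
      exact h3
    · have h7 : α = -(((∑ i, a' i : ℕ) : ℚ) / gord v a') := by rw [he, neg_neg]
      rw [hcast, h7]
      have := h4 a' hga' hn'
      push_cast at this ⊢
      exact this
    · exact hroot h6
  · apply hroot
    refine hypS_of_locS hr v h hh (-α) ?_
    intro j1
    obtain ⟨i, hi⟩ : ∃ i, v j1 i ≠ 0 := by
      by_contra hcon
      push Not at hcon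
      exact hv0 j1 (funext hcon)
    exact ⟨i, fun a ha hg' _ hσ => absurd ⟨a, ha, hg', hσ⟩ hray⟩

end Pool.Agent.TH216.EP
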