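import Pool.Agent.TH216.EP.H
import Pool.Agent.W425.PN.Idn
import Pool.Agent.W803.SM.ZF

set_option autoImplicit false
set_option linter.unusedSectionVars false

/-! A uniform bound for the singularities of nondegenerate polynomials, every prime. -/

namespace Pool.Agent.TH216.EP

open MeasureTheory Filter Topology
open Pool.Agent.W426.SM (gord face)
open Pool.Agent.W803.SM (gord_le exists_gord)
open Pool.Agent.W424.SM.ZMU Pool.Agent.W22.SM.ZMA
open Pool.Agent.W422.SM
open Pool.Agent.W425.PN (Idn)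

variable {n k : ℕ} {p : ℕ} [hp : Fact p.Prime]

/-- no singular zeros over `ℚ_p` -/
lemma no_zero (m : Fin k → Fin n → ℕ) (c : Fin k → ℤ) (τ : Finset (Fin k))
    (hnd : Idn m (fun j => (c j : ℚ)) τ) (x : Fin n → ℚ_[p]) (hx : ∀ i, x i ≠ 0)
    (h0 : ∑ j ∈ τ, (c j : ℚ_[p]) * ∏ i, x i ^ m j i = 0)
    (h1 : ∀ i, ∑ j ∈ τ, (c j : ℚ_[p]) * (m j i : ℚ_[p]) * ∏ i', x i' ^ m j i' = 0) : False := by
  obtain ⟨M, B0, B, h⟩ := hnd
  have h2 := congrArg (MvPolynomial.aeval x) h
  have e0 : MvPolynomial.aeval x (∑ j ∈ τ, MvPolynomial.C ((c j : ℚ)) *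
      ∏ i, (MvPolynomial.X i : MvPolynomial (Fin n) ℚ) ^ m j i) = 0 := by
    rw [← h0, map_sum]
    refine Finset.sum_congr rfl fun j _ => ?_
    rw [map_mul, MvPolynomial.aeval_C, map_prod]
    simp
  have e1 : ∀ i, MvPolynomial.aeval x (∑ j ∈ τ, MvPolynomial.C ((c j : ℚ) * (m j i : ℚ)) *
      ∏ i', (MvPolynomial.X i' : MvPolynomial (Fin n) ℚ) ^ m j i') = 0 := by
    intro i
    rw [← h1 i, map_sum]
    refine Finset.sum_congr rfl fun j _ => ?_
    rw [map_mul, MvPolynomial.aeval_C, map_prod]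
    simp
  rw [map_add, map_mul, e0, mul_zero, zero_add, map_sum, Finset.sum_eq_zero, map_pow, map_prod]
    at h2
  · simp only [MvPolynomial.aeval_X] at h2
    exact pow_ne_zero M (Finset.prod_ne_zero_iff.2 fun i _ => hx i) h2
  · intro i _
    rw [map_mul, e1, mul_zero]

/-- a monotone sequence of natural numbers is eventually constant, or tends to infinity -/
lemma mono_dich (f : ℕ → ℕ) (hf : Monotone f) :
    Tendsto f atTop atTop ∨ ∃ l, ∀ᶠ a in atTop, f a = l := by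
  by_cases h : ∃ B, ∀ a, f a ≤ B
  · right
    classical
    obtain ⟨B, hB, hmin⟩ : ∃ B, (∀ a, f a ≤ B) ∧ ∀ B' < B, ¬ ∀ a, f a ≤ B' :=
      ⟨Nat.find h, Nat.find_spec h, fun B' hB' => Nat.find_min h hB'⟩
    refine ⟨B, ?_⟩
    obtain ⟨a, ha⟩ : ∃ a, f a = B := by
      by_contra hc
      push Not at hc
      rcases Nat.eq_zero_or_pos B with h0 | h0
      · exact hc 0 (by have := hB 0; omega)
      · refine hmin (B - 1) (by omega) fun a => ?_
        have h1 := hB a
        have h2 := hc a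
        omega
    filter_upwards [eventually_ge_atTop a] with a' ha'
    have h1 := hf ha'
    have h2 := hB a'
    omega
  · left
    push Not at h
    rw [tendsto_atTop]
    intro B
    obtain ⟨a, ha⟩ := h B
    filter_upwards [eventually_ge_atTop a] with a' ha'
    have h1 := hf ha'
    omega

/-- the exponents of the coefficients after scaling -/
noncomputable def ee (m : Fin k → Fin n → ℕ) (c : Fin k → ℤ_[p]) (u : Fin n → ℕ) (j : Fin k) :
    ℕ := dl m c u j - N0 m c u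

lemma cont_GGb (m : Fin k → Fin n → ℕ) {ι : Type} {F : Filter ι} (b : ι → Fin k → ℤ_[p])
    (b0 : Fin k → ℤ_[p]) (y : ι → Fin n → ℤ_[p]) (y0 : Fin n → ℤ_[p])
    (hb : ∀ j, Tendsto (fun a => b a j) F (𝓝 (b0 j))) (hy : Tendsto y F (𝓝 y0)) :
    Tendsto (fun a => GG m (b a) (y a)) F (𝓝 (GG m b0 y0)) := by
  unfold GG XX
  refine tendsto_finsetSum _ fun j _ => (hb j).mul ?_
  refine tendsto_finsetProd _ fun i _ => Tendsto.pow ?_ _
  exact (tendsto_pi_nhds.1 hy) i

lemma zero_of_dvd {ι : Type} {F : Filter ι} [F.NeBot] (f : ι → ℤ_[p]) (x : ℤ_[p]) (e : ι → ℕ)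
    (he : Tendsto e F atTop) (h : ∀ a, (p : ℤ_[p]) ^ e a ∣ f a) (hf : Tendsto f F (𝓝 x)) :
    x = 0 := by
  have hp1 : (1 : ℝ) < p := by exact_mod_cast hp.out.one_lt
  have h1 : Tendsto (fun a => ‖f a‖) F (𝓝 0) := by
    refine squeeze_zero (fun a => norm_nonneg _) (g := fun a => ((p : ℝ)⁻¹) ^ e a) (fun a => ?_) ?_
    · have := (dvd_iff (f a) (e a)).1 (h a)
      rwa [zpow_neg, zpow_natCast, ← inv_pow] at this
    · exact (tendsto_pow_atTop_nhds_zero_of_lt_one (by positivity)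
        (inv_lt_one_of_one_lt₀ hp1)).comp he
  have h2 : Tendsto (fun a => ‖f a‖) F (𝓝 ‖x‖) := hf.norm
  exact norm_eq_zero.1 (tendsto_nhds_unique h2 h1)

/-- **The uniform bound.** -/
theorem unif (hk : 0 < k) (m : Fin k → Fin n → ℕ) (c : Fin k → ℤ) (hc : ∀ j, c j ≠ 0)
    (hnd : ∀ u : Fin n → ℕ, Idn m (fun j => (c j : ℚ))
      (Finset.univ.filter fun j => ∑ i, u i * m j i = gord m u))
    (hc' : ∀ j, (c j : ℤ_[p]) ≠ 0) :
    ∃ v : ℕ, ∀ (u : Fin n → ℕ) (y : Fin n → ℤ_[p]), (∀ i, ‖y i‖ = 1) →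
      (p : ℤ_[p]) ^ (v + 1) ∣ GG m (bb m (fun j => (c j : ℤ_[p])) hc' u) y →
        ∃ i, ¬ (p : ℤ_[p]) ^ (v + 1) ∣ DD m (bb m (fun j => (c j : ℤ_[p])) hc' u) i y := by
  classical
  by_contra hcon
  push Not at hcon
  choose u y hy hG hD using hcon
  set cp : Fin k → ℤ_[p] := fun j => (c j : ℤ_[p]) with hcp
  obtain ⟨g, hg⟩ := (wellQuasiOrdered_le (α := (Fin n → ℕ) × (Fin k → ℕ))).exists_monotone_subseq
    (fun v => (u v, ee m cp (u v)))
  obtain ⟨y0, φ, hφ, hy0⟩ := CompactSpace.tendsto_subseq fun a => y (g a)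
  set h : ℕ → ℕ := fun a => g (φ a) with hh
  have hmono : ∀ a b, a ≤ b → u (h a) ≤ u (h b) ∧ ee m cp (u (h a)) ≤ ee m cp (u (h b)) := by
    intro a b hab
    have := hg _ _ (hφ.monotone hab)
    exact Prod.mk_le_mk.1 this
  have hht : Tendsto h atTop atTop := (g.strictMono.comp hφ).tendsto_atTop
  have hyt : Tendsto (fun a => y (h a)) atTop (𝓝 y0) := hy0
  have hdich : ∀ j, Tendsto (fun a => ee m cp (u (h a)) j) atTop atTop ∨
      ∃ l, ∀ᶠ a in atTop, ee m cp (u (h a)) j = l := fun j =>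
    mono_dich _ fun a b hab => (hmono a b hab).2 j
  set J : Finset (Fin k) := Finset.univ.filter fun j =>
    ¬ Tendsto (fun a => ee m cp (u (h a)) j) atTop atTop with hJ
  have hJ1 : ∀ j, ∃ l, j ∈ J → ∀ᶠ a in atTop, ee m cp (u (h a)) j = l := by
    intro j
    by_cases hj : j ∈ J
    · rcases hdich j with h1 | ⟨l, hl⟩
      · exact absurd h1 (Finset.mem_filter.1 hj).2
      · exact ⟨l, fun _ => hl⟩
    · exact ⟨0, fun h => absurd h hj⟩
  have hJ2 : ∀ j, j ∉ J → Tendsto (fun a => ee m cp (u (h a)) j) atTop atTop := by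
    intro j hj
    by_contra h1
    exact hj (Finset.mem_filter.2 ⟨Finset.mem_univ j, h1⟩)
  choose l hl using hJ1
  have hev : ∀ᶠ a in atTop, ∀ j, j ∈ J → ee m cp (u (h a)) j = l j := by
    rw [eventually_all]
    intro j
    by_cases hj : j ∈ J
    · filter_upwards [hl j hj] with a ha _
      exact ha
    · exact Eventually.of_forall fun a h => absurd h hj
  obtain ⟨a0, ha0⟩ := hev.exists_forall_of_atTop
  have hev2 : ∀ᶠ a in atTop, ∀ j, j ∉ J → ee m cp (u (h a0)) j < ee m cp (u (h a)) j := by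
    rw [eventually_all]
    intro j
    by_cases hj : j ∈ J
    · exact Eventually.of_forall fun a h => absurd hj h
    · filter_upwards [(hJ2 j hj).eventually_gt_atTop (ee m cp (u (h a0)) j)] with a ha _
      exact ha
  obtain ⟨b0, hb0, hab0⟩ := (hev2.and (eventually_ge_atTop a0)).exists
  -- the face
  have hJne : J.Nonempty := by
    by_contra hne
    rw [Finset.not_nonempty_iff_eq_empty] at hne
    obtain ⟨j, hj⟩ := N0_mem hk m cp (u (h b0))
    have h1 := hb0 j (by rw [hne]; exact Finset.notMem_empty j)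
    have h2 : ee m cp (u (h b0)) j = 0 := by
      unfold ee
      rw [hj, Nat.sub_self]
    omega
  have hule := (hmono a0 b0 hab0).1
  set u' : Fin n → ℕ := fun i => u (h b0) i - u (h a0) i with hu'
  have hdl : ∀ j, ∑ i, u' i * m j i + dl m cp (u (h a0)) j = dl m cp (u (h b0)) j := by
    intro j
    unfold dl
    have h1 : ∑ i, u (h b0) i * m j i = ∑ i, u' i * m j i + ∑ i, u (h a0) i * m j i := by
      rw [← Finset.sum_add_distrib]
      refine Finset.sum_congr rfl fun i _ => ?_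
      rw [← add_mul]
      congr 1
      have h7 : u (h a0) i ≤ u (h b0) i := hule i
      simp only [hu']
      omega
    rw [h1]
    ring
  have hee : ∀ a j, dl m cp (u (h a)) j = ee m cp (u (h a)) j + N0 m cp (u (h a)) := by
    intro a j
    unfold ee
    have := N0_le m cp (u (h a)) j
    omega
  obtain ⟨j1, hj1⟩ := hJne
  have hval : ∀ j, j ∈ J → ∑ i, u' i * m j i + N0 m cp (u (h a0)) = N0 m cp (u (h b0)) := by
    intro j hj
    have h1 := hdl j
    rw [hee a0 j, hee b0 j, ha0 a0 le_rfl j hj, ha0 b0 hab0 j hj] at h1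
    omega
  have hval2 : ∀ j, j ∉ J → N0 m cp (u (h b0)) < ∑ i, u' i * m j i + N0 m cp (u (h a0)) := by
    intro j hj
    have h1 := hdl j
    rw [hee a0 j, hee b0 j] at h1
    have h2 := hb0 j hj
    omega
  have hgord : gord m u' + N0 m cp (u (h a0)) = N0 m cp (u (h b0)) := by
    obtain ⟨j2, hj2⟩ := exists_gord hk m u'
    have h1 := Pool.Agent.W803.SM.gord_le m u' j1
    have h2 := hval j1 hj1
    by_cases h3 : j2 ∈ J
    · have := hval j2 h3
      omega
    · have := hval2 j2 h3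
      omega
  have hface : (Finset.univ.filter fun j => ∑ i, u' i * m j i = gord m u') = J := by
    ext j
    rw [Finset.mem_filter]
    constructor
    · rintro ⟨_, h1⟩
      by_contra h2
      have := hval2 j h2
      omega
    · intro h1
      refine ⟨Finset.mem_univ j, ?_⟩
      have := hval j h1
      omega
  -- the limits
  set bi : Fin k → ℤ_[p] := fun j => if j ∈ J then (p : ℤ_[p]) ^ l j * cu cp hc' j else 0 with hbi
  have hbt : ∀ j, Tendsto (fun a => bb m cp hc' (u (h a)) j) atTop (𝓝 (bi j)) := by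
    intro j
    simp only [hbi]
    by_cases hj : j ∈ J
    · rw [if_pos hj]
      refine tendsto_const_nhds.congr' ?_
      filter_upwards [hl j hj] with a ha
      have h1 : dl m cp (u (h a)) j - N0 m cp (u (h a)) = l j := ha
      unfold bb
      rw [h1]
    · rw [if_neg hj, ← zero_mul (cu cp hc' j)]
      refine Tendsto.mul_const _ ?_
      have hp1 : ‖(p : ℤ_[p])‖ < 1 := by
        rw [PadicInt.norm_lt_one_iff_dvd]
      exact (tendsto_pow_atTop_nhds_zero_of_norm_lt_one hp1).comp (hJ2 j hj)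
  have ht1 : Tendsto (fun a => h a + 1) atTop atTop :=
    (tendsto_add_atTop_nat 1).comp hht
  have hG0 : GG m bi y0 = 0 :=
    zero_of_dvd (fun a => GG m (bb m cp hc' (u (h a))) (y (h a))) _ (fun a => h a + 1) ht1
      (fun a => hG (h a)) (cont_GGb m _ _ _ _ hbt hyt)
  have hD0 : ∀ i, DD m bi i y0 = 0 := by
    intro i
    rw [DD_eq]
    refine zero_of_dvd (fun a => GG m (fun j => (m j i : ℤ_[p]) * bb m cp hc' (u (h a)) j)
      (y (h a))) _ (fun a => h a + 1) ht1 (fun a => ?_)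
      (cont_GGb m _ _ _ _ (fun j => (hbt j).const_mul _) hyt)
    have := hD (h a) i
    rwa [DD_eq] at this
  have hy1 : ∀ i, ‖y0 i‖ = 1 := by
    intro i
    have h1 : Tendsto (fun a => ‖y (h a) i‖) atTop (𝓝 ‖y0 i‖) := ((tendsto_pi_nhds.1 hyt) i).norm
    have h2 : Tendsto (fun a => ‖y (h a) i‖) atTop (𝓝 1) := by
      simp only [hy]
      exact tendsto_const_nhds
    exact tendsto_nhds_unique h1 h2
  -- the singular zero
  have hterm : ∀ j, j ∈ J → (c j : ℚ_[p]) *
      ∏ i, ((p : ℚ_[p]) ^ (u (h a0) i) * ((y0 i : ℤ_[p]) : ℚ_[p])) ^ m j i =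
      (p : ℚ_[p]) ^ N0 m cp (u (h a0)) * ((XX m bi y0 j : ℤ_[p]) : ℚ_[p]) := by
    intro j hj
    have h1 : (c j : ℚ_[p]) = ((cp j : ℤ_[p]) : ℚ_[p]) := by
      simp only [hcp]
      push_cast
      rfl
    have h2 : cp j * ∏ i, ((p : ℤ_[p]) ^ (u (h a0) i) * y0 i) ^ m j i =
        (p : ℤ_[p]) ^ N0 m cp (u (h a0)) * XX m bi y0 j := by
      unfold XX
      simp only [hbi]
      rw [if_pos hj]
      have h3 : ∀ i, ((p : ℤ_[p]) ^ (u (h a0) i) * y0 i) ^ m j i =
          (p : ℤ_[p]) ^ (u (h a0) i * m j i) * (y0 i) ^ m j i := by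
        intro i
        rw [mul_pow, ← pow_mul]
      simp only [h3, Finset.prod_mul_distrib, Finset.prod_pow_eq_pow_sum]
      have h4 : dl m cp (u (h a0)) j = l j + N0 m cp (u (h a0)) := by
        rw [hee a0 j, ha0 a0 le_rfl j hj]
      have h5 : cp j * (p : ℤ_[p]) ^ (∑ i, u (h a0) i * m j i) =
          (p : ℤ_[p]) ^ N0 m cp (u (h a0)) * ((p : ℤ_[p]) ^ l j * cu cp hc' j) := by
        rw [← mul_assoc, ← pow_add, add_comm (N0 m cp (u (h a0))), ← h4]
        conv_lhs => rw [cu_spec cp hc' j]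
        unfold dl
        rw [pow_add]
        ring
      rw [← mul_assoc, h5]
      ring
    have h3 : ((cp j * ∏ i, ((p : ℤ_[p]) ^ (u (h a0) i) * y0 i) ^ m j i : ℤ_[p]) : ℚ_[p]) =
        (((p : ℤ_[p]) ^ N0 m cp (u (h a0)) * XX m bi y0 j : ℤ_[p]) : ℚ_[p]) := by rw [h2]
    have h5 : ((∏ i, ((p : ℤ_[p]) ^ (u (h a0) i) * y0 i) ^ m j i : ℤ_[p]) : ℚ_[p]) =
        ∏ i, ((p : ℚ_[p]) ^ (u (h a0) i) * ((y0 i : ℤ_[p]) : ℚ_[p])) ^ m j i := by
      have h6 := map_prod (PadicInt.Coe.ringHom (p := p))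
        (fun i => ((p : ℤ_[p]) ^ (u (h a0) i) * y0 i) ^ m j i) Finset.univ
      refine h6.trans (Finset.prod_congr rfl fun i _ => ?_)
      rw [map_pow, map_mul, map_pow]
      rfl
    rw [PadicInt.coe_mul, PadicInt.coe_mul, PadicInt.coe_pow, PadicInt.coe_natCast, h5] at h3
    rw [h1, h3]
  have hXX0 : ∀ j, j ∉ J → XX m bi y0 j = 0 := by
    intro j hj
    unfold XX
    simp only [hbi]
    rw [if_neg hj, zero_mul]
  refine no_zero (p := p) m c J (by rw [← hface]; exact hnd u')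
    (fun i => (p : ℚ_[p]) ^ (u (h a0) i) * ((y0 i : ℤ_[p]) : ℚ_[p])) ?_ ?_ ?_
  · intro i
    refine mul_ne_zero (pow_ne_zero _ pQ_ne) ?_
    intro h0
    have := hy1 i
    rw [PadicInt.norm_def, h0, norm_zero] at this
    exact zero_ne_one this
  · rw [Finset.sum_congr rfl hterm, ← Finset.mul_sum]
    have h1 : ∑ j ∈ J, ((XX m bi y0 j : ℤ_[p]) : ℚ_[p]) = ((GG m bi y0 : ℤ_[p]) : ℚ_[p]) := by
      unfold GG
      rw [PadicInt.coe_sum]
      exact Finset.sum_subset (Finset.subset_univ J) fun j _ hj => by rw [hXX0 j hj]; rfl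
    rw [h1, hG0]
    simp
  · intro i
    have h2 : ∀ j ∈ J, (c j : ℚ_[p]) * (m j i : ℚ_[p]) *
        ∏ i', ((p : ℚ_[p]) ^ (u (h a0) i') * ((y0 i' : ℤ_[p]) : ℚ_[p])) ^ m j i' =
        (p : ℚ_[p]) ^ N0 m cp (u (h a0)) *
          (((m j i : ℤ_[p]) * XX m bi y0 j : ℤ_[p]) : ℚ_[p]) := by
      intro j hj
      have h3 := hterm j hj
      rw [PadicInt.coe_mul, PadicInt.coe_natCast]
      calc (c j : ℚ_[p]) * (m j i : ℚ_[p]) *
          ∏ i', ((p : ℚ_[p]) ^ (u (h a0) i') * ((y0 i' : ℤ_[p]) : ℚ_[p])) ^ m j i'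
          = (m j i : ℚ_[p]) * ((c j : ℚ_[p]) *
            ∏ i', ((p : ℚ_[p]) ^ (u (h a0) i') * ((y0 i' : ℤ_[p]) : ℚ_[p])) ^ m j i') := by ring
        _ = _ := by rw [h3]; ring
    rw [Finset.sum_congr rfl h2, ← Finset.mul_sum]
    have h1 : ∑ j ∈ J, (((m j i : ℤ_[p]) * XX m bi y0 j : ℤ_[p]) : ℚ_[p]) =
        ((DD m bi i y0 : ℤ_[p]) : ℚ_[p]) := by
      unfold DD
      rw [PadicInt.coe_sum]
      exact Finset.sum_subset (Finset.subset_univ J) fun j _ hj => by
        rw [hXX0 j hj, mul_zero]; rfl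
    rw [h1, hD0 i]
    simp

end Pool.Agent.TH216.EP
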