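import Pool.Agent.TH216.EP.C
import Pool.Agent.TH216.EP.Fin
import Pool.Agent.TH216.MF.Crit

set_option autoImplicit false
set_option linter.unusedSectionVars false
set_option linter.unusedVariables false

/-! Poles of the Poincare series for nondegenerate polynomials, every prime. -/

namespace Pool.Agent.TH216.EP

open MeasureTheory Pool.Agent.TH216.MF
open Pool.Agent.W426.SM (gord face)
open Pool.Agent.W424.SM.ZMU (GG XX)
open Pool.Agent.W422.SM (dl cu cu_norm measure_sol solCount N0 N0_le N0_mem bb VV)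
open Pool.Agent.W206.CU (poincare IsPoleOfOrder pole_ne_zero)
open Pool.Agent.H628R4.TP (IsBFunction)
open Pool.Agent.W425.SV (Kil1)
open Pool.Agent.W425.PN (Idn)

variable {n k : ℕ} {p : ℕ} [hp : Fact p.Prime]
  [MeasurableSpace (Fin n → ℤ_[p])] [BorelSpace (Fin n → ℤ_[p])]

/-- the shrinking property, nondegenerate polynomials -/
theorem Gm_shrink_nd (hk : 0 < k) (m : Fin k → Fin n → ℕ) (c : Fin k → ℤ) (hc : ∀ j, c j ≠ 0)
    (hnd : ∀ u : Fin n → ℕ, Idn m (fun j => (c j : ℚ))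
      (Finset.univ.filter fun j => ∑ i, u i * m j i = gord m u))
    (hc' : ∀ j, (c j : ℤ_[p]) ≠ 0) :
    ∃ L : ℕ, 1 ≤ L ∧ ∀ (u : Fin n → ℕ) (t : ℤ),
      (∃ j, (dl m (fun j => (c j : ℤ_[p])) u j : ℤ) - t < -(L : ℤ)) →
      Gm m (cu (fun j => (c j : ℤ_[p])) hc')
          (fun j => (dl m (fun j => (c j : ℤ_[p])) u j : ℤ) - t + 1) =
        p * Gm m (cu (fun j => (c j : ℤ_[p])) hc')
          (fun j => (dl m (fun j => (c j : ℤ_[p])) u j : ℤ) - t) := by
  obtain ⟨v, hv⟩ := unif (p := p) hk m c hc hnd hc'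
  refine ⟨2 * v + 1, by omega, fun u t ⟨j1, hj1⟩ => ?_⟩
  set cp : Fin k → ℤ_[p] := fun j => (c j : ℤ_[p]) with hcp
  obtain ⟨j0, hj0⟩ := N0_mem hk m cp u
  have hN1 := N0_le m cp u j1
  obtain ⟨l, hl⟩ : ∃ l : ℕ, (N0 m cp u : ℤ) - t = -((l : ℤ) + 1) :=
    ⟨(t - N0 m cp u - 1).toNat, by
      rw [Int.toNat_of_nonneg (by push_cast at hj1; omega)]; ring⟩
  have hl2 : 2 * v + 1 ≤ l := by
    push_cast at hj1
    omega
  have e1 : US m (cu cp hc') (fun j => (dl m cp u j : ℤ) - t) = VV m (bb m cp hc' u) (l + 1) := by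
    rw [US_eq_VV m _ _ (l + 1) fun j => by
      have := N0_le m cp u j
      push_cast
      omega]
    congr 1
    funext j
    unfold bb
    congr 2
    have := N0_le m cp u j
    push_cast
    omega
  have e2 : US m (cu cp hc') (fun j => (dl m cp u j : ℤ) - t + 1) = VV m (bb m cp hc' u) l := by
    rw [US_eq_VV m _ _ l fun j => by
      have := N0_le m cp u j
      omega]
    congr 1
    funext j
    unfold bb
    congr 2
    have := N0_le m cp u j
    omega
  have h1 := hensel m (bb m cp hc' u) v (hv u) l hl2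
  unfold Gm
  rw [e1, e2, h1, ENNReal.toReal_mul, ENNReal.toReal_natCast, mul_div_assoc]

/-- the truncated kernel function -/
noncomputable def PhiT (L : ℕ) (m : Fin k → Fin n → ℕ) (w : Fin k → ℤ_[p]) : Fn k := fun z =>
  open Classical in if ∃ j, z j < -(L : ℤ) then 0 else Phi m w z

lemma PhiT_min (L : ℕ) (m : Fin k → Fin n → ℕ) (w : Fin k → ℤ_[p]) (y : Fin k → ℤ) :
    PhiT L m w y = PhiT L m w (fun j => min (y j) 0) := by
  unfold PhiT
  have h1 : (∃ j, y j < -(L : ℤ)) ↔ ∃ j, min (y j) 0 < -(L : ℤ) := by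
    refine exists_congr fun j => ?_
    rw [min_lt_iff]
    constructor
    · exact fun h => Or.inl h
    · rintro (h | h)
      · exact h
      · omega
  rw [← Phi_min m w y]
  simp only [h1]

lemma PhiT_neg (L : ℕ) (m : Fin k → Fin n → ℕ) (w : Fin k → ℤ_[p]) (y : Fin k → ℤ)
    (h : ∃ j, y j < -(L : ℤ)) : PhiT L m w y = 0 := by
  unfold PhiT
  rw [if_pos h]

lemma norm_PhiT (L : ℕ) (m : Fin k → Fin n → ℕ) (w : Fin k → ℤ_[p]) (z : Fin k → ℤ) :
    ‖PhiT L m w z‖ ≤ 2 := by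
  unfold PhiT
  split_ifs
  · rw [norm_zero]
    norm_num
  · exact norm_Phi m w z

/-- the relations of the kernel function -/
theorem Phi_rel (m : Fin k → Fin n → ℕ) (w : Fin k → ℤ_[p]) (hw : ∀ j, ‖w j‖ = 1)
    (i : Fin n) (j0 : Fin k) (hm : m j0 i = 1) (y : Fin k → ℤ)
    (hy : ∀ j, j ≠ j0 → 0 < m j i → 0 ≤ y j) :
      Phi m w (Function.update y j0 0) + ((p : ℂ) - 1) * Phi m w (Function.update y j0 (-1)) = 0 ∧
        ∀ a : ℕ, 2 ≤ a → Phi m w (Function.update y j0 (-(a : ℤ))) = 0 := by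
  have hcond : ∀ a : ℤ, ∀ j, j ≠ j0 → 0 < m j i → 0 ≤ Function.update y j0 a j := by
    intro a j hj hmj
    rw [Function.update_of_ne hj]
    exact hy j hj hmj
  constructor
  · have h1 := Gm_b m w hw i j0 hm (Function.update y j0 (-1)) (Function.update_self _ _ _)
      (hcond (-1))
    rw [Function.update_idem] at h1
    have h2 : Gm m w (fun j => Function.update y j0 0 j + 1) =
        Gm m w (fun j => Function.update y j0 (-1) j + 1) := Gm_congr m w fun j => by
      by_cases hj : j = j0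
      · right
        rw [hj, Function.update_self, Function.update_self]
        norm_num
      · left
        rw [Function.update_of_ne hj, Function.update_of_ne hj]
    unfold Phi
    rw [h2, h1]
    push_cast
    have h3 : (p : ℂ)⁻¹ * p = 1 := inv_mul_cancel₀ pC_ne
    linear_combination (-((Gm m w (Function.update y j0 0) : ℝ) : ℂ) -
      ((p : ℂ) - 1) * ((Gm m w (Function.update y j0 (-1)) : ℝ) : ℂ)) * h3
  · intro a ha
    have h1 := Gm_a m w hw i j0 hm (Function.update y j0 (-(a : ℤ)))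
      (by rw [Function.update_self]; omega) (hcond _)
    unfold Phi
    rw [h1]
    push_cast
    rw [← mul_assoc, inv_mul_cancel₀ pC_ne, one_mul, sub_self]

theorem kern_PhiT (m : Fin k → Fin n → ℕ) (w : Fin k → ℤ_[p]) (hw : ∀ j, ‖w j‖ = 1) (L : ℕ)
    (hL : 1 ≤ L) : Kern p m (kF L (PhiT L m w)) := by
  classical
  refine kern_kF p L m (PhiT L m w) hL ?_
  intro i j0 hm y hy
  obtain ⟨h1, h2⟩ := Phi_rel m w hw i j0 hm y hy
  by_cases hc : ∃ j, j ≠ j0 ∧ y j < -(L : ℤ)
  · obtain ⟨j, hj, hjy⟩ := hc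
    have h3 : ∀ a : ℤ, PhiT L m w (Function.update y j0 a) = 0 := fun a =>
      PhiT_neg L m w _ ⟨j, by rw [Function.update_of_ne hj]; exact hjy⟩
    rw [h3, h3]
    exact ⟨by ring, fun a _ => h3 _⟩
  · push Not at hc
    have h3 : ∀ a : ℤ, -(L : ℤ) ≤ a →
        PhiT L m w (Function.update y j0 a) = Phi m w (Function.update y j0 a) := by
      intro a ha
      unfold PhiT
      rw [if_neg]
      rintro ⟨j, hj⟩
      by_cases hjj : j = j0
      · rw [hjj, Function.update_self] at hj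
        omega
      · rw [Function.update_of_ne hjj] at hj
        have := hc j hjj
        omega
    refine ⟨?_, fun a ha => ?_⟩
    · rw [h3 0 (by omega), h3 (-1) (by omega)]
      exact h1
    · unfold PhiT
      split_ifs
      · rfl
      · exact h2 a ha

omit [MeasurableSpace (Fin n → ℤ_[p])] [BorelSpace (Fin n → ℤ_[p])] in
/-- **The Poincare series, nondegenerate polynomials.** -/
theorem poincare_nd (hk : 0 < k) (m : Fin k → Fin n → ℕ) (c : Fin k → ℤ)
    (hc : ∀ j, c j ≠ 0)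
    (hnd : ∀ u : Fin n → ℕ, Idn m (fun j => (c j : ℚ))
      (Finset.univ.filter fun j => ∑ i, u i * m j i = gord m u)) (f : MvPolynomial (Fin n) ℤ)
    (hf : f = ∑ j, MvPolynomial.C (c j) * ∏ i, MvPolynomial.X i ^ m j i) :
    ∃ κ : MvPolynomial (Fin k) ℂ, Kern p m κ ∧ ∀ Q : Polynomial ℂ,
      Z p m (Polynomial.aeval (tau k) Q * κ) → ∃ R : Polynomial ℂ,
        ((Q * (1 - Polynomial.C ((p : ℂ)⁻¹) * Polynomial.X) : Polynomial ℂ) : PowerSeries ℂ) *
          poincare p f = (R : PowerSeries ℂ) := by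
  classical
  let _ : MeasurableSpace (Fin n → ℤ_[p]) := borel _
  have _ : BorelSpace (Fin n → ℤ_[p]) := ⟨rfl⟩
  set c' : Fin k → ℤ_[p] := fun j => (c j : ℤ_[p]) with hc'
  have hc'0 : ∀ j, c' j ≠ 0 := fun j => by
    simp only [hc']
    exact_mod_cast hc j
  set w : Fin k → ℤ_[p] := cu c' hc'0 with hw
  have hwn : ∀ j, ‖w j‖ = 1 := cu_norm c' hc'0
  obtain ⟨L, hL1, hL⟩ := Gm_shrink_nd (p := p) hk m c hc hnd hc'0
  set γ : Fin k → ℕ := fun j => (c' j).valuation with hγ
  set F0 : Fn k := fun y => ((Gm m w (fun j => y j + (γ j : ℤ)) : ℝ) : ℂ) with hF0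
  set F : Fn k := fun y => PhiT L m w (fun j => y j + (γ j : ℤ)) with hF
  have hFF0 : ∀ (x : Fin n → ℕ) (t : ℤ), F (fun j => ∑ i, (x i : ℤ) * (m j i : ℤ) - t) =
      F0 (fun j => ∑ i, (x i : ℤ) * (m j i : ℤ) - t) -
        (p : ℂ)⁻¹ * F0 (fun j => ∑ i, (x i : ℤ) * (m j i : ℤ) - t + 1) := by
    intro x t
    have h0 : (fun j => (∑ i, (x i : ℤ) * (m j i : ℤ) - t) + (γ j : ℤ)) =
        fun j => (dl m c' x j : ℤ) - t := (dl_cast m c' x t).symm
    have h1 : (fun j => (∑ i, (x i : ℤ) * (m j i : ℤ) - t + 1) + (γ j : ℤ)) =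
        fun j => (dl m c' x j : ℤ) - t + 1 := by
      funext j
      have := congrFun h0 j
      linarith
    simp only [hF, hF0]
    rw [h1, h0]
    unfold PhiT
    split_ifs with h2
    · rw [hL x t h2]
      push_cast
      rw [← mul_assoc, inv_mul_cancel₀ pC_ne, one_mul, sub_self]
    · rfl
  set mon : MvPolynomial (Fin k) ℂ :=
    MvPolynomial.monomial (Finsupp.equivFunOnFinite.symm γ) 1 with hmon
  have hkF : act k (kF L (PhiT L m w)) (FG fun _ => 1) = PhiT L m w :=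
    act_kF L (PhiT L m w) (PhiT_min L m w) fun y hy => PhiT_neg L m w y hy
  have hact : act k (mon * kF L (PhiT L m w)) (FG fun _ => 1) = F := by
    rw [act_mul, hkF]
    funext y
    rw [hmon, act_monomial, one_mul]
    rfl
  refine ⟨mon * kF L (PhiT L m w), fun i j0 h => Ideal.mul_mem_left _ _
    (kern_PhiT m w hwn L hL1 i j0 h), fun Q hZ => ?_⟩
  obtain ⟨A, hA⟩ := poly_aK p hp.out.two_le m _ F hact 2 (fun y => norm_PhiT L m w _) Q hZ
  -- the coefficients of the Poincare series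
  have hcoef : ∀ t : ℕ, PowerSeries.coeff t (poincare p f) = aK p m F0 t := by
    intro t
    have h1 := W_eq (p := p) m c' hc'0 t
    have h2 := measure_sol (p := p) f t
    have h3 : {x : Fin n → ℤ_[p] | (p : ℤ_[p]) ^ t ∣ GG m c' x} =
        {x | (p : ℤ_[p]) ^ t ∣ MvPolynomial.aeval x f} := by
      ext x
      have h4 : MvPolynomial.aeval x f = GG m c' x := by
        rw [hf]
        unfold GG XX
        rw [map_sum]
        refine Finset.sum_congr rfl fun j _ => ?_
        rw [map_mul, MvPolynomial.aeval_C, map_prod]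
        simp [hc']
      simp only [Set.mem_ofPred_eq]
      rw [h4]
    rw [h3, h2] at h1
    have h5 := mul_left_cancel₀ (V_pos (n := n) (p := p)).ne' h1
    have h6 : aK p m F0 t = (((∑' u : Fin n → ℕ, ((p : ℝ)⁻¹) ^ (∑ i, u i) *
        Gm m (cu c' hc'0) (fun j => (dl m c' u j : ℤ) - t) : ℝ)) : ℂ) := by
      unfold aK
      rw [Complex.ofReal_tsum]
      refine tsum_congr fun u => ?_
      rw [dl_cast]
      simp only [hF0, hγ, hw]
      push_cast
      rfl
    rw [h6, ← h5]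
    unfold poincare solCount
    rw [PowerSeries.coeff_mk, Nat.card_fin]
    push_cast
    rw [← pow_mul, ← pow_mul, mul_comm t n]
  have hsub : ∀ t : ℤ, aK p m F t = aK p m F0 t - (p : ℂ)⁻¹ * aK p m F0 (t - 1) := by
    intro t
    rw [← aK_sub m F0 1 (fun y => norm_Gm m w _)]
    unfold aK
    refine tsum_congr fun x => ?_
    rw [hFF0 x t]
  have hP : ((1 - Polynomial.C ((p : ℂ)⁻¹) * Polynomial.X : Polynomial ℂ) : PowerSeries ℂ) *
      poincare p f = PowerSeries.C (aK p m F0 (0 : ℕ) - aK p m F (0 : ℕ)) +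
        PowerSeries.mk (fun t : ℕ => aK p m F t) := by
    have e0 : ((1 - Polynomial.C ((p : ℂ)⁻¹) * Polynomial.X : Polynomial ℂ) : PowerSeries ℂ) =
        1 - PowerSeries.C ((p : ℂ)⁻¹) * PowerSeries.X := by
      rw [Polynomial.coe_sub, Polynomial.coe_mul, Polynomial.coe_one, Polynomial.coe_C,
        Polynomial.coe_X]
    rw [e0]
    ext t
    rw [sub_mul, one_mul, map_sub, mul_assoc, PowerSeries.coeff_C_mul, map_add,
      PowerSeries.coeff_mk, PowerSeries.coeff_C]
    rcases t with _ | t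
    · rw [PowerSeries.coeff_zero_X_mul, mul_zero, sub_zero, if_pos rfl, hcoef]
      ring
    · rw [PowerSeries.coeff_succ_X_mul, if_neg (Nat.succ_ne_zero t), zero_add, hcoef, hcoef,
        hsub]
      have h7 : ((t + 1 : ℕ) : ℤ) - 1 = (t : ℤ) := by
        push_cast
        ring
      rw [h7]
  refine ⟨Q * Polynomial.C (aK p m F0 (0 : ℕ) - aK p m F (0 : ℕ)) + A, ?_⟩
  rw [Polynomial.coe_mul, mul_assoc, hP, mul_add, hA, Polynomial.coe_add, Polynomial.coe_mul,
    Polynomial.coe_C]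

omit [MeasurableSpace (Fin n → ℤ_[p])] [BorelSpace (Fin n → ℤ_[p])] hp in
/-- the comparison of the multiplicities -/
theorem mult_le (hpp : p.Prime) {T₀ : ℂ} {μ : ℕ} {P : PowerSeries ℂ} (hP : IsPoleOfOrder P T₀ μ)
    (Q1 : Polynomial ℂ) (hQ1 : Q1.eval T₀ ≠ 0) (ν : ℕ) (R : Polynomial ℂ)
    (hR : ((Q1 * (Polynomial.X - Polynomial.C T₀) ^ ν *
      (1 - Polynomial.C ((p : ℂ)⁻¹) * Polynomial.X) : Polynomial ℂ) : PowerSeries ℂ) * P =
        (R : PowerSeries ℂ)) :
    μ ≤ (Polynomial.X + 1 : Polynomial ℂ).rootMultiplicity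
      ((-Real.log ‖T₀‖ / Real.log p : ℝ) : ℂ) + ν := by
  have hp0 : (p : ℂ) ≠ 0 := by exact_mod_cast hpp.ne_zero
  set t0 : ℂ := ((-Real.log ‖T₀‖ / Real.log p : ℝ) : ℂ) with ht0
  have hlin : (1 - Polynomial.C ((p : ℂ)⁻¹) * Polynomial.X : Polynomial ℂ) =
      Polynomial.C (-(p : ℂ)⁻¹) * (Polynomial.X - Polynomial.C (p : ℂ)) := by
    rw [mul_sub, ← Polynomial.C_mul, neg_mul, inv_mul_cancel₀ hp0]
    simp only [map_neg, map_one]
    ring
  have hlin0 : (1 - Polynomial.C ((p : ℂ)⁻¹) * Polynomial.X : Polynomial ℂ) ≠ 0 := by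
    rw [hlin]
    exact mul_ne_zero (Polynomial.C_ne_zero.2 (neg_ne_zero.2 (inv_ne_zero hp0)))
      (Polynomial.X_sub_C_ne_zero _)
  have hQ10 : Q1 ≠ 0 := by
    rintro rfl
    simp at hQ1
  have hpow0 : (Polynomial.X - Polynomial.C T₀ : Polynomial ℂ) ^ ν ≠ 0 :=
    pow_ne_zero _ (Polynomial.X_sub_C_ne_zero _)
  have hD0 : Q1 * (Polynomial.X - Polynomial.C T₀) ^ ν *
      (1 - Polynomial.C ((p : ℂ)⁻¹) * Polynomial.X) ≠ 0 :=
    mul_ne_zero (mul_ne_zero hQ10 hpow0) hlin0
  have h1 := order_le hP _ R hD0 hR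
  have h2 : (Q1 * (Polynomial.X - Polynomial.C T₀) ^ ν *
      (1 - Polynomial.C ((p : ℂ)⁻¹) * Polynomial.X)).rootMultiplicity T₀ =
      ν + (1 - Polynomial.C ((p : ℂ)⁻¹) * Polynomial.X : Polynomial ℂ).rootMultiplicity T₀ := by
    rw [Polynomial.rootMultiplicity_mul hD0,
      Polynomial.rootMultiplicity_mul (mul_ne_zero hQ10 hpow0),
      Polynomial.rootMultiplicity_eq_zero hQ1, Polynomial.rootMultiplicity_X_sub_C_pow, zero_add]
  rw [h2] at h1
  have hX1 : (Polynomial.X + 1 : Polynomial ℂ) = Polynomial.X - Polynomial.C (-1) := by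
    simp
  have h4 : (1 - Polynomial.C ((p : ℂ)⁻¹) * Polynomial.X : Polynomial ℂ).rootMultiplicity T₀ ≤
      (Polynomial.X + 1 : Polynomial ℂ).rootMultiplicity t0 := by
    by_cases hTp : T₀ = p
    · have hlp : Real.log p ≠ 0 :=
        (Real.log_pos (by exact_mod_cast hpp.one_lt)).ne'
      have h5 : t0 = -1 := by
        rw [ht0, hTp, Complex.norm_natCast, neg_div, div_self hlp]
        push_cast
        rfl
      rw [h5, hX1, Polynomial.rootMultiplicity_X_sub_C_self, hlin, hTp,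
        Polynomial.rootMultiplicity_mul (by rw [← hlin]; exact hlin0),
        Polynomial.rootMultiplicity_C, Polynomial.rootMultiplicity_X_sub_C_self]
    · have h5 : (1 - Polynomial.C ((p : ℂ)⁻¹) * Polynomial.X : Polynomial ℂ).rootMultiplicity T₀
          = 0 := by
        apply Polynomial.rootMultiplicity_eq_zero
        rw [hlin]
        intro h
        rw [Polynomial.IsRoot, Polynomial.eval_mul, Polynomial.eval_C, Polynomial.eval_sub,
          Polynomial.eval_X, Polynomial.eval_C] at h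
        rcases mul_eq_zero.1 h with h | h
        · exact neg_ne_zero.2 (inv_ne_zero hp0) h
        · exact hTp (sub_eq_zero.1 h)
      rw [h5]
      exact Nat.zero_le _
  omega

omit [MeasurableSpace (Fin n → ℤ_[p])] [BorelSpace (Fin n → ℤ_[p])] hp in
/-- **The orders of the poles, nondegenerate polynomials, every prime.** -/
theorem ndEP (hk : 0 < k) (m : Fin k → Fin n → ℕ) (c : Fin k → ℤ) (hc : ∀ j, c j ≠ 0)
    (hnd : ∀ u : Fin n → ℕ, Idn m (fun j => (c j : ℚ))
      (Finset.univ.filter fun j => ∑ i, u i * m j i = gord m u)) (f : MvPolynomial (Fin n) ℤ)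
    (hf : f = ∑ j, MvPolynomial.C (c j) * ∏ i, MvPolynomial.X i ^ m j i) (hpp : p.Prime)
    (T₀ : ℂ) (μ : ℕ) (hμ : 0 < μ) (hP : IsPoleOfOrder (poincare p f) T₀ μ)
    (pol : Polynomial ℂ) (hpol0 : pol ≠ 0) (θ : Fin k → ℤ)
    (hrel : RelG m (Kil1 m) (KilU m θ) pol) (hσ : HypS m (Real.log ‖T₀‖ / Real.log p)) :
    μ ≤ ((Polynomial.X + 1) * pol).rootMultiplicity
      ((-Real.log ‖T₀‖ / Real.log p : ℝ) : ℂ) := by
  classical
  have : Fact p.Prime := ⟨hpp⟩
  have hT0 : T₀ ≠ 0 := pole_ne_zero hμ hP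
  obtain ⟨κ, hκ, hκR⟩ := poincare_nd (p := p) hk m c hc hnd f hf
  set D : ℤ := ∑ j, |θ j| with hD
  have hθD : ∀ j, 0 ≤ D - θ j := by
    intro j
    have h1 := Finset.single_le_sum (f := fun j => |θ j|) (fun j _ => abs_nonneg _)
      (Finset.mem_univ j)
    have h3 := le_abs_self (θ j)
    have h4 : |θ j| ≤ D := h1
    linarith
  obtain ⟨Q1, hQ1, hZ⟩ := coreU p hpp.two_le m pol θ D (fun j => (D - θ j).toNat)
    (fun j => Int.toNat_of_nonneg (hθD j)) hrel κ hκ T₀ hT0 hpol0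
    (crit_of_hyp p hpp.two_le m κ hκ T₀ hT0 _ hσ)
  have hZ1 := hZ 1
  rw [mul_one] at hZ1
  obtain ⟨R, hR⟩ := hκR _ hZ1
  have h1 := mult_le hpp hP Q1 hQ1 _ R hR
  have hX10 : (Polynomial.X + 1 : Polynomial ℂ) ≠ 0 := by
    intro h
    have := congrArg (Polynomial.eval 0) h
    simp at this
  rw [Polynomial.rootMultiplicity_mul (mul_ne_zero hX10 hpol0)]
  exact h1

omit [MeasurableSpace (Fin n → ℤ_[p])] [BorelSpace (Fin n → ℤ_[p])] hp in
/-- The real parts of the poles are rational. -/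
theorem ratEP (hk : 0 < k) (m : Fin k → Fin n → ℕ) (c : Fin k → ℤ) (hc : ∀ j, c j ≠ 0)
    (hnd : ∀ u : Fin n → ℕ, Idn m (fun j => (c j : ℚ))
      (Finset.univ.filter fun j => ∑ i, u i * m j i = gord m u)) (f : MvPolynomial (Fin n) ℤ)
    (hf : f = ∑ j, MvPolynomial.C (c j) * ∏ i, MvPolynomial.X i ^ m j i) (hpp : p.Prime)
    (T₀ : ℂ) (μ : ℕ) (hμ : 0 < μ) (hP : IsPoleOfOrder (poincare p f) T₀ μ) :
    ∃ α : ℚ, -Real.log ‖T₀‖ / Real.log p = (α : ℝ) := by
  classical
  have : Fact p.Prime := ⟨hpp⟩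
  have hT0 : T₀ ≠ 0 := pole_ne_zero hμ hP
  by_contra hirr
  push Not at hirr
  obtain ⟨κ, hκ, hκR⟩ := poincare_nd (p := p) hk m c hc hnd f hf
  have hlog : Real.log p ≠ 0 := (Real.log_pos (by exact_mod_cast hpp.one_lt)).ne'
  obtain ⟨E, Q, hQ, hQI⟩ := stepC p hpp.two_le m T₀
  -- the ideal is the unit ideal
  have h1 : (1 : MvPolynomial (Fin k) ℂ) ∈ I1 p m ⊔ Ideal.span {tau k - MvPolynomial.C T₀} := by
    rw [← Ideal.eq_top_iff_one, ← Ideal.radical_eq_top, Ideal.eq_top_iff_one,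
      ← MvPolynomial.vanishingIdeal_zeroLocus_eq_radical (K := ℂ),
      MvPolynomial.mem_vanishingIdeal_iff]
    intro t ht
    exfalso
    have htau : ∏ j, t j = T₀ := by
      have h3 := (MvPolynomial.mem_zeroLocus_iff.1 ht) (tau k - MvPolynomial.C T₀)
        (Ideal.mem_sup_right (Ideal.subset_span rfl))
      unfold tau at h3
      rw [map_sub, map_prod, sub_eq_zero] at h3
      simpa [MvPolynomial.algHom_C] using h3
    have htI : t ∈ MvPolynomial.zeroLocus ℂ (I1 p m) := MvPolynomial.mem_zeroLocus_iff.2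
      fun g hg => (MvPolynomial.mem_zeroLocus_iff.1 ht) g (Ideal.mem_sup_left hg)
    obtain ⟨a, ha, haA, haj, haZ⟩ := zero_pair p m t htI
    obtain ⟨s, b, hs, hb1, hb2⟩ := pair_int' m
      (Finset.univ.filter fun i => MvPolynomial.aeval t (elm p m i) = 0)
      (Finset.univ.filter fun j => t j = 1) a ha
      (fun i hi => haA i fun h => hi (Finset.mem_filter.2 ⟨Finset.mem_univ i, h⟩))
      (fun j hj => haZ j fun h => hj (Finset.mem_filter.2 ⟨Finset.mem_univ j, h⟩))
    have h5 := tau_pow p hpp.two_le m t s b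
      (fun i hi => hb1.1 i fun h => hi (Finset.mem_filter.1 h).2)
      (fun j hj => hb2 j fun h => hj (Finset.mem_filter.1 h).2)
    rw [htau] at h5
    have h6 := congrArg (fun z : ℂ => Real.log ‖z‖) h5
    simp only [norm_pow, Complex.norm_natCast, Real.log_pow] at h6
    have hs' : (s : ℝ) ≠ 0 := by exact_mod_cast hs.ne'
    apply hirr (-(((∑ i, b i : ℕ) : ℚ) / s))
    push_cast
    rw [div_eq_iff hlog]
    push_cast at h6
    field_simp
    linarith
  obtain ⟨x, hx, y', hy', hxy⟩ := Submodule.mem_sup.1 h1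
  obtain ⟨y, hy⟩ := Ideal.mem_span_singleton'.1 hy'
  obtain ⟨d, hd⟩ : x ∣ (x + y') ^ E - y' ^ E := by
    have := sub_dvd_pow_sub_pow (x + y') y' E
    rwa [add_sub_cancel_right] at this
  have h2 : Polynomial.aeval (tau k) Q ∈ I1 p m := by
    have e2 : ∀ n, Polynomial.aeval (tau k) ((Polynomial.X - Polynomial.C T₀) ^ n) =
        (tau k - MvPolynomial.C T₀) ^ n := by
      intro n
      rw [map_pow, map_sub, Polynomial.aeval_X, Polynomial.aeval_C]
      rfl
    rw [map_mul, e2] at hQI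
    have h3 : (1 : MvPolynomial (Fin k) ℂ) = x * d + y ^ E * (tau k - MvPolynomial.C T₀) ^ E := by
      rw [← mul_pow, hy, ← hd, hxy]
      ring
    have h4 : Polynomial.aeval (tau k) Q = x * (d * Polynomial.aeval (tau k) Q) +
        y ^ E * ((tau k - MvPolynomial.C T₀) ^ E * Polynomial.aeval (tau k) Q) := by
      calc Polynomial.aeval (tau k) Q = 1 * Polynomial.aeval (tau k) Q := (one_mul _).symm
        _ = _ := by
          rw [h3]
          ring
    rw [h4]
    exact (I1 p m).add_mem ((I1 p m).mul_mem_right _ hx) ((I1 p m).mul_mem_left _ hQI)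
  have hZ : Z p m (Polynomial.aeval (tau k) Q * κ) := by
    rw [mul_comm]
    exact Z.of_I1 hpp.two_le h2 κ
  obtain ⟨R, hR⟩ := hκR _ hZ
  have h3 := mult_le hpp hP Q hQ 0 R (by
    rw [pow_zero, mul_one]
    exact hR)
  have h4 : (Polynomial.X + 1 : Polynomial ℂ).rootMultiplicity
      ((-Real.log ‖T₀‖ / Real.log p : ℝ) : ℂ) = 0 := by
    apply Polynomial.rootMultiplicity_eq_zero
    intro h
    rw [Polynomial.IsRoot, Polynomial.eval_add, Polynomial.eval_X, Polynomial.eval_one] at h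
    apply hirr (-1)
    have h5 : ((-Real.log ‖T₀‖ / Real.log p : ℝ) : ℂ) = ((-1 : ℝ) : ℂ) := by
      push_cast
      push_cast at h
      linear_combination h
    have h6 : (-Real.log ‖T₀‖ / Real.log p : ℝ) = -1 := by exact_mod_cast h5
    rw [h6]
    push_cast
    rfl
  rw [h4] at h3
  omega

end Pool.Agent.TH216.EP
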