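import Pool.Agent.TH216.EP.K

set_option autoImplicit false
set_option linter.unusedVariables false

/-! Kernel polynomials with given values, general relation. -/

namespace Pool.Agent.TH216.EP

open MvPolynomial Pool.Agent.TH216.MF

variable {r N : ℕ}

theorem kern_kF2 (q L : ℕ) (v : Fin r → Fin N → ℕ) (Φ : Fn r) (hL : 1 ≤ L)
    (h : ∀ (i : Fin N) (j0 : Fin r), v j0 i = 1 → ∀ y : Fin r → ℤ,
      (∀ j, j ≠ j0 → 0 < v j i → 0 ≤ y j) →
      Φ (Function.update y j0 0) + ((q : ℂ) - 1) * ∑ a ∈ Finset.range L,
        (q : ℂ) ^ a * Φ (Function.update y j0 (-((a + 1 : ℕ) : ℤ))) = 0) :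
    Kern q v (kF L Φ) := by
  classical
  intro i j0 hj0
  set I : Ideal (MvPolynomial (Fin r) ℂ) := Ideal.span {g : MvPolynomial (Fin r) ℂ | ∃ j, 0 < v j i ∧
      g = X j - C (if j = j0 then (q : ℂ) else 1)} with hI
  set s : Fin r → MvPolynomial (Fin r) ℂ := fun j =>
    if 0 < v j i then C (if j = j0 then (q : ℂ) else 1) else X j with hs
  have h0 : ∀ j, X j - s j ∈ I := by
    intro j
    simp only [hs]
    split_ifs with h1 h2
    · exact Ideal.subset_span ⟨j, h1, by rw [if_pos h2]⟩
    · exact Ideal.subset_span ⟨j, h1, by rw [if_neg h2]⟩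
    · rw [sub_self]
      exact I.zero_mem
  have hz : aeval s (kF L Φ) = 0 := by
    have e1 : aeval s (kF L Φ) = ∑ a ∈ Fintype.piFinset (fun _ : Fin r => Finset.range (L + 1)),
        C (Φ fun j => -(a j : ℤ)) * ∏ j, Polynomial.aeval (s j) (psi (a j)) := by
      unfold kF
      rw [map_sum]
      refine Finset.sum_congr rfl fun a _ => ?_
      rw [map_mul, aeval_C, map_prod]
      congr 1
      refine Finset.prod_congr rfl fun j _ => ?_
      rw [← Polynomial.aeval_algHom_apply, aeval_X]
    rw [e1]
    set P := Fintype.piFinset (fun _ : Fin r => Finset.range (L + 1)) with hP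
    set E : Fin r → ℕ → MvPolynomial (Fin r) ℂ := fun j a => Polynomial.aeval (s j) (psi a) with hE
    set G : (Fin r → ℕ) → MvPolynomial (Fin r) ℂ := fun a =>
      C (Φ fun j => -(a j : ℤ)) * ∏ j, E j (a j) with hG
    have e2 : ∑ a ∈ P, G a = ∑ x ∈ (P.filter fun a => a j0 = 0) ×ˢ Finset.range (L + 1),
        G (Function.update x.1 j0 x.2) := by
      refine Finset.sum_nbij' (fun a => (Function.update a j0 0, a j0))
        (fun x => Function.update x.1 j0 x.2) ?_ ?_ ?_ ?_ ?_
      · intro a ha
        rw [Finset.mem_product, Finset.mem_filter]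
        refine ⟨⟨?_, Function.update_self _ _ _⟩, Fintype.mem_piFinset.1 ha j0⟩
        rw [hP, Fintype.mem_piFinset]
        intro j
        show Function.update a j0 0 j ∈ Finset.range (L + 1)
        by_cases hj : j = j0
        · rw [hj, Function.update_self]
          exact Finset.mem_range.2 (Nat.succ_pos _)
        · rw [Function.update_of_ne hj]
          exact Fintype.mem_piFinset.1 ha j
      · intro x hx
        rw [Finset.mem_product, Finset.mem_filter] at hx
        rw [hP, Fintype.mem_piFinset]
        intro j
        by_cases hj : j = j0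
        · subst hj
          rw [Function.update_self]
          exact hx.2
        · rw [Function.update_of_ne hj]
          exact Fintype.mem_piFinset.1 hx.1.1 j
      · intro a _
        simp
      · intro x hx
        rw [Finset.mem_product, Finset.mem_filter] at hx
        have h3 : x.1 j0 = 0 := hx.1.2
        refine Prod.ext ?_ ?_
        · show Function.update (Function.update x.1 j0 x.2) j0 0 = x.1
          rw [Function.update_idem]
          rw [← h3, Function.update_eq_self]
        · show Function.update x.1 j0 x.2 j0 = x.2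
          rw [Function.update_self]
      · intro a _
        simp
    show ∑ a ∈ P, G a = 0
    rw [e2, Finset.sum_product]
    refine Finset.sum_eq_zero fun a ha => ?_
    have hEother : ∀ j, j ≠ j0 → 0 < v j i → ∀ b : ℕ, b ≠ 0 → E j b = 0 := by
      intro j hj hv b hb
      obtain ⟨b', rfl⟩ := Nat.exists_eq_succ_of_ne_zero hb
      simp only [hE]
      show Polynomial.aeval (s j) (Polynomial.X ^ b' * (Polynomial.X - Polynomial.C 1)) = 0
      rw [map_mul, map_sub, Polynomial.aeval_X, Polynomial.aeval_C]
      simp only [hs]
      rw [if_pos hv, if_neg hj, map_one, map_one, sub_self, mul_zero]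
    have e3 : ∀ t : ℕ, G (Function.update a j0 t) =
        (C (Φ (Function.update (fun j => -(a j : ℤ)) j0 (-(t : ℤ)))) * E j0 t) *
          ∏ j ∈ Finset.univ.erase j0, E j (a j) := by
      intro t
      simp only [hG]
      have e4 : (fun j => -((Function.update a j0 t j : ℕ) : ℤ)) =
          Function.update (fun j => -(a j : ℤ)) j0 (-(t : ℤ)) := by
        funext j
        by_cases hj : j = j0
        · subst hj
          rw [Function.update_self, Function.update_self]
        · rw [Function.update_of_ne hj, Function.update_of_ne hj]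
      rw [e4, ← Finset.mul_prod_erase Finset.univ _ (Finset.mem_univ j0), Function.update_self,
        mul_assoc]
      congr 2
      refine Finset.prod_congr rfl fun j hj => ?_
      rw [Function.update_of_ne (Finset.ne_of_mem_erase hj)]
    simp only [e3]
    rw [← Finset.sum_mul]
    by_cases hcase : ∃ j, j ≠ j0 ∧ 0 < v j i ∧ a j ≠ 0
    · obtain ⟨j, hj, hv, haj⟩ := hcase
      rw [Finset.prod_eq_zero (Finset.mem_erase.2 ⟨hj, Finset.mem_univ j⟩)
        (hEother j hj hv _ haj), mul_zero]
    · push Not at hcase
      have h4 := h i j0 hj0 (fun j => -(a j : ℤ)) fun j hj hv => by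
        rw [hcase j hj hv]
        simp
      have hE0 : E j0 0 = 1 := by
        simp only [hE]
        show Polynomial.aeval (s j0) (1 : Polynomial ℂ) = 1
        rw [map_one]
      have hE1 : ∀ t, E j0 (t + 1) = C ((q : ℂ) ^ t * ((q : ℂ) - 1)) := by
        intro t
        simp only [hE]
        show Polynomial.aeval (s j0) (Polynomial.X ^ t * (Polynomial.X - Polynomial.C 1)) = _
        rw [map_mul, map_pow, map_sub, Polynomial.aeval_X, Polynomial.aeval_C]
        simp only [hs]
        rw [if_pos (by omega), if_pos trivial, map_mul, map_pow, map_sub]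
        rfl
      have e5 : ∑ t ∈ Finset.range (L + 1),
          C (Φ (Function.update (fun j => -(a j : ℤ)) j0 (-(t : ℤ)))) * E j0 t =
          (0 : MvPolynomial (Fin r) ℂ) := by
        rw [Finset.sum_range_succ', hE0, mul_one]
        have e6 : ∀ t ∈ Finset.range L,
            C (Φ (Function.update (fun j => -(a j : ℤ)) j0 (-((t + 1 : ℕ) : ℤ)))) * E j0 (t + 1) =
            (C (((q : ℂ) - 1) * ((q : ℂ) ^ t *
              Φ (Function.update (fun j => -(a j : ℤ)) j0 (-((t + 1 : ℕ) : ℤ))))) :
              MvPolynomial (Fin r) ℂ) := by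
          intro t _
          rw [hE1, ← map_mul]
          congr 1
          ring
        rw [Finset.sum_congr rfl e6, ← map_sum, ← Finset.mul_sum, ← map_add]
        have h6 : ((0 : ℕ) : ℤ) = 0 := rfl
        rw [h6, neg_zero, add_comm, h4, map_zero]
      rw [e5, zero_mul]
  have h2 := sub_aeval_mem I s h0 (kF L Φ)
  rw [hz, sub_zero] at h2
  exact h2

end Pool.Agent.TH216.EP
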