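import Pool.Agent.TH216.EP.G
import Pool.Agent.TH216.EP.K2
import Pool.Agent.TH216.MF.Conv

set_option autoImplicit false
set_option linter.unusedSectionVars false
set_option linter.unusedVariables false

/-! Poles of the Poincare series for nondegenerate polynomials, every prime: dropping the
exponents in the convex hull. -/

namespace Pool.Agent.TH216.EP

open MeasureTheory Pool.Agent.TH216.MF
open Pool.Agent.W426.SM (gord face)
open Pool.Agent.W424.SM.ZMU (GG XX)
open Pool.Agent.W422.SM (dl cu cu_norm measure_sol solCount N0 N0_le N0_mem bb VV)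
open Pool.Agent.W206.CU (poincare IsPoleOfOrder pole_ne_zero)
open Pool.Agent.H628R4.TP (IsBFunction)
open Pool.Agent.W425.SV (Kil1)
open Pool.Agent.W425.PN (Idn)

variable {n k k' : ℕ} {p : ℕ} [hp : Fact p.Prime]
  [MeasurableSpace (Fin n → ℤ_[p])] [BorelSpace (Fin n → ℤ_[p])]

lemma PhiT_congr (L : ℕ) (m : Fin k → Fin n → ℕ) (w : Fin k → ℤ_[p]) {z z' : Fin k → ℤ}
    (h : ∀ j, z j = z' j ∨ (0 ≤ z j ∧ 0 ≤ z' j)) : PhiT L m w z = PhiT L m w z' := by
  rw [PhiT_min L m w z, PhiT_min L m w z']
  congr 1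
  funext j
  rcases h j with h | ⟨h1, h2⟩
  · rw [h]
  · rw [min_eq_right h1, min_eq_right h2]

theorem PhiT_rel (m : Fin k → Fin n → ℕ) (w : Fin k → ℤ_[p]) (hw : ∀ j, ‖w j‖ = 1) (L : ℕ)
    (hL : 1 ≤ L) (i : Fin n) (j0 : Fin k) (hm : m j0 i = 1) (y : Fin k → ℤ)
    (hy : ∀ j, j ≠ j0 → 0 < m j i → 0 ≤ y j) :
    PhiT L m w (Function.update y j0 0) + ((p : ℂ) - 1) * PhiT L m w (Function.update y j0 (-1)) = 0 ∧
        ∀ a : ℕ, 2 ≤ a → PhiT L m w (Function.update y j0 (-(a : ℤ))) = 0 := by
  obtain ⟨h1, h2⟩ := Phi_rel m w hw i j0 hm y hy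
  by_cases hc : ∃ j, j ≠ j0 ∧ y j < -(L : ℤ)
  · obtain ⟨j, hj, hjy⟩ := hc
    have h3 : ∀ a : ℤ, PhiT L m w (Function.update y j0 a) = 0 := fun a =>
      PhiT_neg L m w _ ⟨j, by rw [Function.update_of_ne hj]; exact hjy⟩
    rw [h3, h3]
    exact ⟨by ring, fun a _ => h3 _⟩
  · push Not at hc
    have h3 : ∀ a : ℤ, -(L : ℤ) ≤ a →
        PhiT L m w (Function.update y j0 a) = Phi m w (Function.update y j0 a) := by
      intro a ha
      unfold PhiT
      rw [if_neg]
      rintro ⟨j, hj⟩
      by_cases hjj : j = j0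
      · rw [hjj, Function.update_self] at hj
        omega
      · rw [Function.update_of_ne hjj] at hj
        have := hc j hjj
        omega
    refine ⟨?_, fun a ha => ?_⟩
    · rw [h3 0 (by omega), h3 (-1) (by omega)]
      exact h1
    · unfold PhiT
      split_ifs
      · rfl
      · exact h2 a ha

lemma sum_val (q : ℂ) (f : ℕ → ℂ) (A B : ℂ) (G L : ℕ) (hGL : G < L) (h1 : ∀ a < G, f a = A)
    (h2 : f G = B) (h3 : ∀ a, G < a → f a = 0) (hAB : A + (q - 1) * B = 0) :
    A + (q - 1) * ∑ a ∈ Finset.range L, q ^ a * f a = 0 := by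
  have e1 : ∑ a ∈ Finset.range L, q ^ a * f a = ∑ a ∈ Finset.range (G + 1), q ^ a * f a := by
    symm
    apply Finset.sum_subset
    · intro a ha
      rw [Finset.mem_range] at ha ⊢
      omega
    · intro a _ ha
      rw [Finset.mem_range] at ha
      rw [h3 a (by omega), mul_zero]
  rw [e1, Finset.sum_range_succ, h2]
  have e2 : ∑ a ∈ Finset.range G, q ^ a * f a = (∑ a ∈ Finset.range G, q ^ a) * A := by
    rw [Finset.sum_mul]
    exact Finset.sum_congr rfl fun a ha => by rw [h1 a (Finset.mem_range.1 ha)]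
  have e3 := geom_sum_mul q G
  rw [e2]
  linear_combination A * e3 + q ^ G * hAB

/-- the thresholds of all monomials -/
noncomputable def zz (lam : Fin k → Fin k' → ℝ) (γ : Fin k → ℕ) (y : Fin k' → ℤ) (j : Fin k) : ℤ :=
  ⌈∑ l, lam j l * (y l : ℝ)⌉ + (γ j : ℤ)

lemma zz_lin (m : Fin k → Fin n → ℕ) (m' : Fin k' → Fin n → ℕ) (lam : Fin k → Fin k' → ℝ)
    (h1 : ∀ j, ∑ l, lam j l = 1) (hM : ∀ j i, ∑ l, lam j l * (m' l i : ℝ) = (m j i : ℝ))
    (γ : Fin k → ℕ) (x : Fin n → ℕ) (t : ℤ) (j : Fin k) :
    zz lam γ (fun l => ∑ i, (x i : ℤ) * (m' l i : ℤ) - t) j =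
      (∑ i, (x i : ℤ) * (m j i : ℤ) - t) + (γ j : ℤ) := by
  unfold zz
  have e : ∑ l, lam j l * (((∑ i, (x i : ℤ) * (m' l i : ℤ) - t : ℤ)) : ℝ) =
      ((∑ i, (x i : ℤ) * (m j i : ℤ) - t : ℤ) : ℝ) := by
    push_cast
    simp only [mul_sub, Finset.sum_sub_distrib, Finset.mul_sum]
    rw [← Finset.sum_mul, h1 j, one_mul, Finset.sum_comm]
    congr 1
    refine Finset.sum_congr rfl fun i _ => ?_
    rw [← hM j i, Finset.mul_sum]
    exact Finset.sum_congr rfl fun l _ => by ring
  rw [e, Int.ceil_intCast]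

lemma zz_sigma (lam : Fin k → Fin k' → ℝ) (σ : Fin k' → Fin k) (γ : Fin k → ℕ)
    (hs : ∀ l l', lam (σ l) l' = if l' = l then 1 else 0) (y : Fin k' → ℤ) (l : Fin k') :
    zz lam γ y (σ l) = y l + (γ (σ l) : ℤ) := by
  unfold zz
  simp [hs]

lemma zz_nonneg (lam : Fin k → Fin k' → ℝ) (γ : Fin k → ℕ) (B C : ℕ)
    (h0 : ∀ j l, 0 ≤ lam j l) (h1 : ∀ j, ∑ l, lam j l = 1)
    (hC : ∀ j l, 0 < lam j l → (B : ℝ) ≤ lam j l * C) (y : Fin k' → ℤ)
    (hy : ∀ l, -(B : ℤ) ≤ y l) (j : Fin k) (l0 : Fin k') (hl : 0 < lam j l0)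
    (hyl : (C : ℤ) ≤ y l0) : 0 ≤ zz lam γ y j := by
  unfold zz
  have h : 0 ≤ ∑ l, lam j l * (y l : ℝ) := by
    have e : ∑ l, lam j l * ((y l : ℝ) + B) = ∑ l, lam j l * (y l : ℝ) + B := by
      simp only [mul_add, Finset.sum_add_distrib, ← Finset.sum_mul, h1 j, one_mul]
    have e2 : lam j l0 * ((y l0 : ℝ) + B) ≤ ∑ l, lam j l * ((y l : ℝ) + B) :=
      Finset.single_le_sum (f := fun l => lam j l * ((y l : ℝ) + B)) (fun l _ =>
        mul_nonneg (h0 j l) (by
          have h2 : (-(B : ℝ)) ≤ y l := by exact_mod_cast hy l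
          linarith)) (Finset.mem_univ l0)
    have e3 : (B : ℝ) ≤ lam j l0 * ((y l0 : ℝ) + B) := by
      refine (hC j l0 hl).trans (mul_le_mul_of_nonneg_left ?_ (h0 j l0))
      have h2 : (C : ℝ) ≤ y l0 := by exact_mod_cast hyl
      linarith [Nat.cast_nonneg (α := ℝ) B]
    linarith
  have h2 := Int.ceil_nonneg h
  omega

lemma exC (lam : Fin k → Fin k' → ℝ) (B : ℕ) :
    ∃ C : ℕ, ∀ j l, 0 < lam j l → (B : ℝ) ≤ lam j l * C := by
  have h1 : ∀ j l, ∃ N : ℕ, 0 < lam j l → (B : ℝ) ≤ lam j l * N := by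
    intro j l
    by_cases h : 0 < lam j l
    · obtain ⟨N, hN⟩ := exists_nat_ge ((B : ℝ) / lam j l)
      refine ⟨N, fun _ => ?_⟩
      rw [div_le_iff₀ h] at hN
      linarith
    · exact ⟨0, fun h' => absurd h' h⟩
  choose N hN using h1
  refine ⟨∑ j, ∑ l, N j l, fun j l h => (hN j l h).trans (mul_le_mul_of_nonneg_left ?_ h.le)⟩
  have h2 : N j l ≤ ∑ l, N j l := Finset.single_le_sum (f := fun l => N j l)
    (fun _ _ => Nat.zero_le _) (Finset.mem_univ l)
  have h3 : ∑ l, N j l ≤ ∑ j, ∑ l, N j l := Finset.single_le_sum (f := fun j => ∑ l, N j l)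
    (fun _ _ => Nat.zero_le _) (Finset.mem_univ j)
  exact_mod_cast h2.trans h3

/-- the kernel function -/
noncomputable def Ph (L : ℕ) (m : Fin k → Fin n → ℕ) (w : Fin k → ℤ_[p])
    (lam : Fin k → Fin k' → ℝ) (γ : Fin k → ℕ) (C : ℕ) : Fn k' := fun y =>
  PhiT L m w (zz lam γ (fun l => y l + (C : ℤ)))

lemma Ph_neg (L : ℕ) (m : Fin k → Fin n → ℕ) (w : Fin k → ℤ_[p])
    (lam : Fin k → Fin k' → ℝ) (γ : Fin k → ℕ) (B C : ℕ) (σ : Fin k' → Fin k)
    (hs : ∀ l l', lam (σ l) l' = if l' = l then 1 else 0) (hB : ∀ l, L + γ (σ l) ≤ B)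
    (y : Fin k' → ℤ) (h : ∃ l, y l < -((B + C : ℕ) : ℤ)) : Ph L m w lam γ C y = 0 := by
  obtain ⟨l, hl⟩ := h
  unfold Ph
  refine PhiT_neg L m w _ ⟨σ l, ?_⟩
  rw [zz_sigma lam σ γ hs]
  have := hB l
  push_cast at hl
  omega

lemma Ph_min (L : ℕ) (m : Fin k → Fin n → ℕ) (w : Fin k → ℤ_[p])
    (lam : Fin k → Fin k' → ℝ) (γ : Fin k → ℕ) (B C : ℕ) (σ : Fin k' → Fin k)
    (hs : ∀ l l', lam (σ l) l' = if l' = l then 1 else 0) (hB : ∀ l, L + γ (σ l) ≤ B)
    (h0 : ∀ j l, 0 ≤ lam j l) (h1 : ∀ j, ∑ l, lam j l = 1)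
    (hC : ∀ j l, 0 < lam j l → (B : ℝ) ≤ lam j l * C) (y : Fin k' → ℤ) :
    Ph L m w lam γ C y = Ph L m w lam γ C (fun l => min (y l) 0) := by
  by_cases h : ∃ l, y l < -((B + C : ℕ) : ℤ)
  · rw [Ph_neg L m w lam γ B C σ hs hB y h, Ph_neg L m w lam γ B C σ hs hB]
    obtain ⟨l, hl⟩ := h
    exact ⟨l, lt_of_le_of_lt (min_le_left _ _) hl⟩
  · push Not at h
    unfold Ph
    refine PhiT_congr L m w fun j => ?_
    by_cases hj : ∃ l, 0 < lam j l ∧ 0 < y l
    · obtain ⟨l, hl, hyl⟩ := hj
      right
      constructor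
      · refine zz_nonneg lam γ B C h0 h1 hC _ (fun l => ?_) j l hl ?_
        · have := h l
          push_cast at this
          show -(B : ℤ) ≤ y l + C
          omega
        · show (C : ℤ) ≤ y l + C
          omega
      · refine zz_nonneg lam γ B C h0 h1 hC _ (fun l => ?_) j l hl ?_
        · have := h l
          push_cast at this
          show -(B : ℤ) ≤ min (y l) 0 + C
          omega
        · show (C : ℤ) ≤ min (y l) 0 + C
          omega
    · push Not at hj
      left
      unfold zz
      congr 2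
      refine Finset.sum_congr rfl fun l _ => ?_
      beta_reduce
      by_cases hl : 0 < lam j l
      · rw [min_eq_left (hj l hl)]
      · have h2 : lam j l = 0 := le_antisymm (not_lt.1 hl) (h0 j l)
        rw [h2, zero_mul, zero_mul]

theorem kern_Ph (L : ℕ) (hL : 1 ≤ L) (m : Fin k → Fin n → ℕ) (hinj : Function.Injective m)
    (m' : Fin k' → Fin n → ℕ) (w : Fin k → ℤ_[p]) (hw : ∀ j, ‖w j‖ = 1)
    (lam : Fin k → Fin k' → ℝ) (γ : Fin k → ℕ) (B C : ℕ) (σ : Fin k' → Fin k)
    (hs : ∀ l l', lam (σ l) l' = if l' = l then 1 else 0) (hB : ∀ l, L + γ (σ l) ≤ B)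
    (h0 : ∀ j l, 0 ≤ lam j l) (h1 : ∀ j, ∑ l, lam j l = 1)
    (hM : ∀ j i, ∑ l, lam j l * (m' l i : ℝ) = (m j i : ℝ))
    (hC : ∀ j l, 0 < lam j l → (B : ℝ) ≤ lam j l * C) (hBC : 1 ≤ B + C) :
    Kern p m' (kF (B + C) (Ph L m w lam γ C)) := by
  classical
  refine kern_kF2 p (B + C) m' _ hBC ?_
  intro i l0 hm y hy
  have hσm : ∀ l i, m (σ l) i = m' l i := by
    intro l i
    have h2 := hM (σ l) i
    simp only [hs, ite_mul, one_mul, zero_mul, Finset.sum_ite_eq', Finset.mem_univ, if_true] at h2
    exact_mod_cast h2.symm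
  by_cases hc : ∃ l, l ≠ l0 ∧ y l < -((B + C : ℕ) : ℤ)
  · obtain ⟨l, hl, hly⟩ := hc
    have h3 : ∀ a : ℤ, Ph L m w lam γ C (Function.update y l0 a) = 0 := fun a =>
      Ph_neg L m w lam γ B C σ hs hB _ ⟨l, by rw [Function.update_of_ne hl]; exact hly⟩
    rw [h3, zero_add, Finset.sum_eq_zero (fun a _ => by rw [h3, mul_zero]), mul_zero]
  · push Not at hc
    set Y : ℤ → Fin k' → ℤ := fun b l => if l = l0 then b else y l + C with hY
    set z0 : Fin k → ℤ := zz lam γ (Y C) with hz0
    have hYB : ∀ b : ℤ, -(B : ℤ) ≤ b → ∀ l, -(B : ℤ) ≤ Y b l := by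
      intro b hb l
      simp only [hY]
      split_ifs with h
      · exact hb
      · have := hc l h
        push_cast at this
        omega
    have hval : ∀ a : ℤ, 0 ≤ a → a ≤ B + C → Ph L m w lam γ C (Function.update y l0 (-a)) =
        PhiT L m w (Function.update z0 (σ l0) (C - a + γ (σ l0))) := by
      intro a ha0 ha
      unfold Ph
      have e0 : (fun l => Function.update y l0 (-a) l + (C : ℤ)) = Y (C - a) := by
        funext l
        simp only [hY]
        split_ifs with h
        · subst h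
          rw [Function.update_self]
          ring
        · rw [Function.update_of_ne h]
      rw [e0]
      refine PhiT_congr L m w fun j => ?_
      by_cases hj : j = σ l0
      · left
        rw [hj, Function.update_self, zz_sigma lam σ γ hs]
        simp [hY]
      · rw [Function.update_of_ne hj]
        by_cases hjl : lam j l0 = 0
        · left
          simp only [hz0]
          unfold zz
          congr 2
          refine Finset.sum_congr rfl fun l _ => ?_
          by_cases h : l = l0
          · rw [h, hjl, zero_mul, zero_mul]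
          · simp [hY, h]
        · right
          have hjl' : 0 < lam j l0 := lt_of_le_of_ne (h0 j l0) (Ne.symm hjl)
          obtain ⟨l, hll, hlam, hml⟩ : ∃ l, l ≠ l0 ∧ 0 < lam j l ∧ 0 < m' l i := by
            by_contra hcon
            push Not at hcon
            have e1 : ∑ l, lam j l * (m' l i : ℝ) = lam j l0 := by
              rw [Finset.sum_eq_single l0]
              · rw [hm]
                simp
              · intro l _ hl
                rcases (h0 j l).eq_or_lt with h2 | h2
                · rw [← h2, zero_mul]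
                · have h3 := hcon l hl h2
                  have h4 : m' l i = 0 := by omega
                  rw [h4]
                  simp
              · intro h
                exact absurd (Finset.mem_univ _) h
            rw [hM j i] at e1
            have e2 : lam j l0 ≤ 1 := by
              rw [← h1 j]
              exact Finset.single_le_sum (f := fun l => lam j l) (fun l _ => h0 j l)
                (Finset.mem_univ l0)
            have e3 : m j i = 1 := by
              have h5 : (m j i : ℝ) ≤ 1 := by rw [e1]; exact e2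
              have h6 : (0 : ℝ) < (m j i : ℝ) := by rw [e1]; exact hjl'
              have h7 : m j i ≤ 1 := by exact_mod_cast h5
              have h8 : 0 < m j i := by exact_mod_cast h6
              omega
            have e4 : lam j l0 = 1 := by
              rw [← e1, e3]
              simp
            have e5 : ∀ l, l ≠ l0 → lam j l = 0 := by
              intro l hl
              have h5 := h1 j
              rw [← Finset.add_sum_erase Finset.univ _ (Finset.mem_univ l0), e4] at h5
              have h6 : ∑ x ∈ Finset.univ.erase l0, lam j x = 0 := by linarith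
              exact (Finset.sum_eq_zero_iff_of_nonneg fun l _ => h0 j l).1 h6 l
                (Finset.mem_erase.2 ⟨hl, Finset.mem_univ _⟩)
            apply hj
            apply hinj
            funext i'
            rw [hσm]
            have h5 := hM j i'
            rw [Finset.sum_eq_single l0 (fun l _ hl => by rw [e5 l hl, zero_mul])
              (fun h => absurd (Finset.mem_univ _) h), e4, one_mul] at h5
            exact_mod_cast h5.symm
          have hyl : ∀ b : ℤ, (C : ℤ) ≤ Y b l := by
            intro b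
            simp only [hY]
            rw [if_neg hll]
            have := hy l hll hml
            omega
          exact ⟨zz_nonneg lam γ B C h0 h1 hC _ (hYB _ (by omega)) j l hlam (hyl _),
            zz_nonneg lam γ B C h0 h1 hC _ (hYB _ (by omega)) j l hlam (hyl _)⟩
    have hcond : ∀ j, j ≠ σ l0 → 0 < m j i → 0 ≤ z0 j := by
      intro j _ hmj
      obtain ⟨l, hlam, hml⟩ : ∃ l, 0 < lam j l ∧ 0 < m' l i := by
        by_contra hcon
        push Not at hcon
        have e1 : ∑ l, lam j l * (m' l i : ℝ) = 0 := by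
          refine Finset.sum_eq_zero fun l _ => ?_
          rcases (h0 j l).eq_or_lt with h2 | h2
          · rw [← h2, zero_mul]
          · have h3 := hcon l h2
            have h4 : m' l i = 0 := by omega
            rw [h4]
            simp
        rw [hM j i] at e1
        have e2 : m j i = 0 := by exact_mod_cast e1
        omega
      refine zz_nonneg lam γ B C h0 h1 hC _ (hYB _ (by omega)) j l hlam ?_
      simp only [hY]
      split_ifs with h
      · exact le_refl _
      · have := hy l h hml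
        omega
    obtain ⟨r1, r2⟩ := PhiT_rel m w hw L hL i (σ l0) (by rw [hσm]; exact hm) z0 hcond
    have hBl := hB l0
    have hA : Ph L m w lam γ C (Function.update y l0 0) =
        PhiT L m w (Function.update z0 (σ l0) 0) := by
      have h3 := hval 0 le_rfl (by positivity)
      rw [neg_zero] at h3
      rw [h3]
      refine PhiT_congr L m w fun j => ?_
      by_cases hj : j = σ l0
      · right
        rw [hj, Function.update_self, Function.update_self]
        exact ⟨by omega, le_rfl⟩
      · left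
        rw [Function.update_of_ne hj, Function.update_of_ne hj]
    rw [hA]
    refine sum_val (p : ℂ) _ _ (PhiT L m w (Function.update z0 (σ l0) (-1))) (C + γ (σ l0)) (B + C)
      (by omega) ?_ ?_ ?_ r1
    · intro a ha
      rw [hval ((a + 1 : ℕ) : ℤ) (by positivity) (by push_cast; omega)]
      refine PhiT_congr L m w fun j => ?_
      by_cases hj : j = σ l0
      · right
        rw [hj, Function.update_self, Function.update_self]
        exact ⟨by push_cast; omega, le_rfl⟩
      · left
        rw [Function.update_of_ne hj, Function.update_of_ne hj]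
    · rw [hval (((C + γ (σ l0)) + 1 : ℕ) : ℤ) (by positivity) (by push_cast; omega)]
      congr 2
      push_cast
      ring
    · intro a ha
      by_cases hle : a + 1 ≤ B + C
      · rw [hval ((a + 1 : ℕ) : ℤ) (by positivity) (by exact_mod_cast hle)]
        have e1 : (C : ℤ) - ((a + 1 : ℕ) : ℤ) + γ (σ l0) =
            -((a + 1 - (C + γ (σ l0)) : ℕ) : ℤ) := by
          rw [Nat.cast_sub (by omega)]
          push_cast
          ring
        rw [e1]
        exact r2 _ (by omega)
      · refine Ph_neg L m w lam γ B C σ hs hB _ ⟨l0, ?_⟩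
        rw [Function.update_self]
        push_cast
        omega

end Pool.Agent.TH216.EP
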