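import Pool.Agent.TH216.EP.G2

set_option autoImplicit false
set_option linter.unusedSectionVars false
set_option linter.unusedVariables false

/-! Poles of the Poincare series for nondegenerate polynomials, every prime: dropping the
exponents in the convex hull. The result. -/

namespace Pool.Agent.TH216.EP

open MeasureTheory Pool.Agent.TH216.MF
open Pool.Agent.W426.SM (gord face)
open Pool.Agent.W424.SM.ZMU (GG XX)
open Pool.Agent.W422.SM (dl cu cu_norm measure_sol solCount N0 N0_le N0_mem bb VV)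
open Pool.Agent.W206.CU (poincare IsPoleOfOrder pole_ne_zero)
open Pool.Agent.H628R4.TP (IsBFunction)
open Pool.Agent.W425.SV (Kil1)
open Pool.Agent.W425.PN (Idn)

variable {n k k' : ℕ} {p : ℕ} [hp : Fact p.Prime]
  [MeasurableSpace (Fin n → ℤ_[p])] [BorelSpace (Fin n → ℤ_[p])]

/-- from the coefficients to the Poincare series -/
theorem core_nd (hk : 0 < k) (m : Fin k → Fin n → ℕ) (c : Fin k → ℤ)
    (hc : ∀ j, c j ≠ 0)
    (hnd : ∀ u : Fin n → ℕ, Idn m (fun j => (c j : ℚ))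
      (Finset.univ.filter fun j => ∑ i, u i * m j i = gord m u)) (f : MvPolynomial (Fin n) ℤ)
    (hf : f = ∑ j, MvPolynomial.C (c j) * ∏ i, MvPolynomial.X i ^ m j i) :
    ∃ (L : ℕ) (w : Fin k → ℤ_[p]), 1 ≤ L ∧ (∀ j, ‖w j‖ = 1) ∧ ∀ Q A : Polynomial ℂ,
      (Q : PowerSeries ℂ) * PowerSeries.mk (fun t : ℕ => aK p m (fun y =>
        PhiT L m w (fun j => y j + ((c j : ℤ_[p]).valuation : ℤ))) t) = (A : PowerSeries ℂ) →
      ∃ R : Polynomial ℂ,
        ((Q * (1 - Polynomial.C ((p : ℂ)⁻¹) * Polynomial.X) : Polynomial ℂ) : PowerSeries ℂ) *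
          poincare p f = (R : PowerSeries ℂ) := by
  classical
  set c' : Fin k → ℤ_[p] := fun j => (c j : ℤ_[p]) with hc'
  have hc'0 : ∀ j, c' j ≠ 0 := fun j => by
    simp only [hc']
    exact_mod_cast hc j
  set w : Fin k → ℤ_[p] := cu c' hc'0 with hw
  have hwn : ∀ j, ‖w j‖ = 1 := cu_norm c' hc'0
  obtain ⟨L, hL1, hL⟩ := Gm_shrink_nd (p := p) hk m c hc hnd hc'0
  refine ⟨L, w, hL1, hwn, fun Q A hA => ?_⟩
  set γ : Fin k → ℕ := fun j => (c' j).valuation with hγ
  set F0 : Fn k := fun y => ((Gm m w (fun j => y j + (γ j : ℤ)) : ℝ) : ℂ) with hF0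
  set F : Fn k := fun y => PhiT L m w (fun j => y j + (γ j : ℤ)) with hF
  have hFF0 : ∀ (x : Fin n → ℕ) (t : ℤ), F (fun j => ∑ i, (x i : ℤ) * (m j i : ℤ) - t) =
      F0 (fun j => ∑ i, (x i : ℤ) * (m j i : ℤ) - t) -
        (p : ℂ)⁻¹ * F0 (fun j => ∑ i, (x i : ℤ) * (m j i : ℤ) - t + 1) := by
    intro x t
    have h0 : (fun j => (∑ i, (x i : ℤ) * (m j i : ℤ) - t) + (γ j : ℤ)) =
        fun j => (dl m c' x j : ℤ) - t := (dl_cast m c' x t).symm
    have h1 : (fun j => (∑ i, (x i : ℤ) * (m j i : ℤ) - t + 1) + (γ j : ℤ)) =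
        fun j => (dl m c' x j : ℤ) - t + 1 := by
      funext j
      have := congrFun h0 j
      linarith
    simp only [hF, hF0]
    rw [h1, h0]
    unfold PhiT
    split_ifs with h2
    · rw [hL x t h2]
      push_cast
      rw [← mul_assoc, inv_mul_cancel₀ pC_ne, one_mul, sub_self]
    · rfl
  have hA' : (Q : PowerSeries ℂ) * PowerSeries.mk (fun t : ℕ => aK p m F t) =
      (A : PowerSeries ℂ) := hA
  -- the coefficients of the Poincare series
  have hcoef : ∀ t : ℕ, PowerSeries.coeff t (poincare p f) = aK p m F0 t := by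
    intro t
    have h1 := W_eq (p := p) m c' hc'0 t
    have h2 := measure_sol (p := p) f t
    have h3 : {x : Fin n → ℤ_[p] | (p : ℤ_[p]) ^ t ∣ GG m c' x} =
        {x | (p : ℤ_[p]) ^ t ∣ MvPolynomial.aeval x f} := by
      ext x
      have h4 : MvPolynomial.aeval x f = GG m c' x := by
        rw [hf]
        unfold GG XX
        rw [map_sum]
        refine Finset.sum_congr rfl fun j _ => ?_
        rw [map_mul, MvPolynomial.aeval_C, map_prod]
        simp [hc']
      simp only [Set.mem_ofPred_eq]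
      rw [h4]
    rw [h3, h2] at h1
    have h5 := mul_left_cancel₀ (V_pos (n := n) (p := p)).ne' h1
    have h6 : aK p m F0 t = (((∑' u : Fin n → ℕ, ((p : ℝ)⁻¹) ^ (∑ i, u i) *
        Gm m (cu c' hc'0) (fun j => (dl m c' u j : ℤ) - t) : ℝ)) : ℂ) := by
      unfold aK
      rw [Complex.ofReal_tsum]
      refine tsum_congr fun u => ?_
      rw [dl_cast]
      simp only [hF0, hγ, hw]
      push_cast
      rfl
    rw [h6, ← h5]
    unfold poincare solCount
    rw [PowerSeries.coeff_mk, Nat.card_fin]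
    push_cast
    rw [← pow_mul, ← pow_mul, mul_comm t n]
  have hsub : ∀ t : ℤ, aK p m F t = aK p m F0 t - (p : ℂ)⁻¹ * aK p m F0 (t - 1) := by
    intro t
    rw [← aK_sub m F0 1 (fun y => norm_Gm m w _)]
    unfold aK
    refine tsum_congr fun x => ?_
    rw [hFF0 x t]
  have hP : ((1 - Polynomial.C ((p : ℂ)⁻¹) * Polynomial.X : Polynomial ℂ) : PowerSeries ℂ) *
      poincare p f = PowerSeries.C (aK p m F0 (0 : ℕ) - aK p m F (0 : ℕ)) +
        PowerSeries.mk (fun t : ℕ => aK p m F t) := by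
    have e0 : ((1 - Polynomial.C ((p : ℂ)⁻¹) * Polynomial.X : Polynomial ℂ) : PowerSeries ℂ) =
        1 - PowerSeries.C ((p : ℂ)⁻¹) * PowerSeries.X := by
      rw [Polynomial.coe_sub, Polynomial.coe_mul, Polynomial.coe_one, Polynomial.coe_C,
        Polynomial.coe_X]
    rw [e0]
    ext t
    rw [sub_mul, one_mul, map_sub, mul_assoc, PowerSeries.coeff_C_mul, map_add,
      PowerSeries.coeff_mk, PowerSeries.coeff_C]
    rcases t with _ | t
    · rw [PowerSeries.coeff_zero_X_mul, mul_zero, sub_zero, if_pos rfl, hcoef]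
      ring
    · rw [PowerSeries.coeff_succ_X_mul, if_neg (Nat.succ_ne_zero t), zero_add, hcoef, hcoef,
        hsub]
      have h7 : ((t + 1 : ℕ) : ℤ) - 1 = (t : ℤ) := by
        push_cast
        ring
      rw [h7]
  refine ⟨Q * Polynomial.C (aK p m F0 (0 : ℕ) - aK p m F (0 : ℕ)) + A, ?_⟩
  rw [Polynomial.coe_mul, mul_assoc, hP, mul_add, hA', Polynomial.coe_add, Polynomial.coe_mul,
    Polynomial.coe_C]

lemma poly_of_shift (φ : PowerSeries ℂ) (C : ℕ) (A : Polynomial ℂ)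
    (h : (PowerSeries.X : PowerSeries ℂ) ^ C * φ = (A : PowerSeries ℂ)) :
    ∃ A' : Polynomial ℂ, φ = (A' : PowerSeries ℂ) := by
  refine ⟨PowerSeries.trunc (A.natDegree + 1) φ, ?_⟩
  ext t
  rw [Polynomial.coeff_coe, PowerSeries.coeff_trunc]
  split_ifs with ht
  · rfl
  · have h1 := congrArg (PowerSeries.coeff (t + C)) h
    rw [PowerSeries.coeff_X_pow_mul, Polynomial.coeff_coe,
      Polynomial.coeff_eq_zero_of_natDegree_lt (by omega)] at h1
    exact h1

/-- shifting the coefficients -/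
lemma shift_poly (a : ℤ → ℂ) (C : ℕ) (Q A : Polynomial ℂ)
    (h : (Q : PowerSeries ℂ) * PowerSeries.mk (fun t : ℕ => a ((t : ℤ) - C)) =
      (A : PowerSeries ℂ)) :
    ∃ A' : Polynomial ℂ, (Q : PowerSeries ℂ) * PowerSeries.mk (fun t : ℕ => a t) =
      (A' : PowerSeries ℂ) := by
  classical
  set B : PowerSeries ℂ := PowerSeries.mk (fun t : ℕ => a ((t : ℤ) - C)) with hB
  have h1 : B = ((PowerSeries.trunc C B : Polynomial ℂ) : PowerSeries ℂ) +
      PowerSeries.X ^ C * PowerSeries.mk (fun t : ℕ => a t) := by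
    ext t
    rw [map_add, Polynomial.coeff_coe, PowerSeries.coeff_trunc, PowerSeries.coeff_X_pow_mul']
    by_cases ht : t < C
    · rw [if_pos ht, if_neg (by omega), add_zero]
    · rw [if_neg ht, if_pos (by omega), zero_add, hB, PowerSeries.coeff_mk, PowerSeries.coeff_mk]
      congr 1
      omega
  refine poly_of_shift _ C (A - Q * PowerSeries.trunc C B) ?_
  rw [Polynomial.coe_sub, Polynomial.coe_mul, ← h]
  linear_combination (Q : PowerSeries ℂ) * (-h1)

omit [MeasurableSpace (Fin n → ℤ_[p])] [BorelSpace (Fin n → ℤ_[p])] in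
/-- **The Poincare series, nondegenerate polynomials, a subfamily with the same hull.** -/
theorem poincare_sub (hk : 0 < k) (m : Fin k → Fin n → ℕ) (hinj : Function.Injective m)
    (m' : Fin k' → Fin n → ℕ) (hinj' : Function.Injective m') (ha : ∀ l, ∃ j, m j = m' l)
    (hb : ∀ j, InC m' Finset.univ (m j)) (c : Fin k → ℤ)
    (hc : ∀ j, c j ≠ 0)
    (hnd : ∀ u : Fin n → ℕ, Idn m (fun j => (c j : ℚ))
      (Finset.univ.filter fun j => ∑ i, u i * m j i = gord m u)) (f : MvPolynomial (Fin n) ℤ)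
    (hf : f = ∑ j, MvPolynomial.C (c j) * ∏ i, MvPolynomial.X i ^ m j i) :
    ∃ κ : MvPolynomial (Fin k') ℂ, Kern p m' κ ∧ ∀ Q : Polynomial ℂ,
      Z p m' (Polynomial.aeval (tau k') Q * κ) → ∃ R : Polynomial ℂ,
        ((Q * (1 - Polynomial.C ((p : ℂ)⁻¹) * Polynomial.X) : Polynomial ℂ) : PowerSeries ℂ) *
          poincare p f = (R : PowerSeries ℂ) := by
  classical
  let _ : MeasurableSpace (Fin n → ℤ_[p]) := borel _
  have _ : BorelSpace (Fin n → ℤ_[p]) := ⟨rfl⟩
  obtain ⟨L, w, hL1, hwn, hcore⟩ := core_nd (p := p) hk m c hc hnd f hf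
  choose σ hσ using ha
  have hσi : Function.Injective σ := by
    intro l l' h
    apply hinj'
    rw [← hσ, ← hσ, h]
  -- the weights
  have hlam : ∀ j, ∃ lam : Fin k' → ℝ, (∀ l, 0 ≤ lam l) ∧ ∑ l, lam l = 1 ∧
      (∀ i, ∑ l, lam l * (m' l i : ℝ) = (m j i : ℝ)) ∧
      ∀ l, j = σ l → ∀ l', lam l' = if l' = l then 1 else 0 := by
    intro j
    by_cases hj : ∃ l, j = σ l
    · obtain ⟨l, hl⟩ := hj
      refine ⟨fun l' => if l' = l then 1 else 0, fun l' => ?_, by simp, fun i => ?_,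
        fun l1 hl1 l' => ?_⟩
      · dsimp only
        split_ifs <;> norm_num
      · rw [hl, hσ]
        simp
      · have : l = l1 := hσi (by rw [← hl, hl1])
        rw [this]
    · obtain ⟨lam, h1, -, h3, h4⟩ := hb j
      exact ⟨lam, h1, h3, h4, fun l hl => absurd ⟨l, hl⟩ hj⟩
  choose lam h0 h1 hM hs' using hlam
  have hs : ∀ l l', lam (σ l) l' = if l' = l then 1 else 0 := fun l l' => hs' (σ l) l rfl l'
  set γ : Fin k → ℕ := fun j => (c j : ℤ_[p]).valuation with hγ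
  set B : ℕ := L + ∑ j, γ j with hBdef
  have hB : ∀ l, L + γ (σ l) ≤ B := by
    intro l
    have := Finset.single_le_sum (f := γ) (fun _ _ => Nat.zero_le _) (Finset.mem_univ (σ l))
    omega
  obtain ⟨C, hC⟩ := exC lam B
  set Φ : Fn k' := Ph L m w lam γ C with hΦ
  have hact : act k' (kF (B + C) Φ) (FG fun _ => 1) = Φ :=
    act_kF (B + C) Φ (Ph_min L m w lam γ B C σ hs hB h0 h1 hC)
      fun y hy => Ph_neg L m w lam γ B C σ hs hB y hy
  refine ⟨kF (B + C) Φ, kern_Ph L hL1 m hinj m' w hwn lam γ B C σ hs hB h0 h1 hM hC (by omega),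
    fun Q hZ => ?_⟩
  obtain ⟨A, hA⟩ := poly_aK p hp.out.two_le m' _ Φ hact 2 (fun y => norm_PhiT L m w _) Q hZ
  set F : Fn k := fun y => PhiT L m w (fun j => y j + (γ j : ℤ)) with hF
  have haK : ∀ t : ℤ, aK p m' Φ t = aK p m F (t - C) := by
    intro t
    unfold aK
    refine tsum_congr fun x => ?_
    congr 1
    simp only [hΦ, hF]
    unfold Ph
    congr 1
    funext j
    have e1 : (fun l => (∑ i, (x i : ℤ) * (m' l i : ℤ) - t) + (C : ℤ)) =
        fun l => ∑ i, (x i : ℤ) * (m' l i : ℤ) - (t - C) := by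
      funext l
      ring
    rw [e1]
    exact zz_lin m m' lam h1 hM γ x (t - C) j
  obtain ⟨A', hA'⟩ := shift_poly (fun t => aK p m F t) C Q A (by
    rw [← hA]
    congr 2
    funext t
    exact (haK t).symm)
  exact hcore Q A' hA'

omit [MeasurableSpace (Fin n → ℤ_[p])] [BorelSpace (Fin n → ℤ_[p])] hp in
/-- **The orders of the poles, nondegenerate polynomials, every prime, a subfamily.** -/
theorem ndEP2 (hk : 0 < k) (m : Fin k → Fin n → ℕ) (hinj : Function.Injective m)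
    (m' : Fin k' → Fin n → ℕ) (hinj' : Function.Injective m') (ha : ∀ l, ∃ j, m j = m' l)
    (hb : ∀ j, InC m' Finset.univ (m j)) (c : Fin k → ℤ) (hc : ∀ j, c j ≠ 0)
    (hnd : ∀ u : Fin n → ℕ, Idn m (fun j => (c j : ℚ))
      (Finset.univ.filter fun j => ∑ i, u i * m j i = gord m u)) (f : MvPolynomial (Fin n) ℤ)
    (hf : f = ∑ j, MvPolynomial.C (c j) * ∏ i, MvPolynomial.X i ^ m j i) (hpp : p.Prime)
    (T₀ : ℂ) (μ : ℕ) (hμ : 0 < μ) (hP : IsPoleOfOrder (poincare p f) T₀ μ)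
    (pol : Polynomial ℂ) (hpol0 : pol ≠ 0) (θ : Fin k' → ℤ)
    (hrel : RelG m' (Kil1 m') (KilU m' θ) pol) (hσ : HypS m' (Real.log ‖T₀‖ / Real.log p)) :
    μ ≤ ((Polynomial.X + 1) * pol).rootMultiplicity
      ((-Real.log ‖T₀‖ / Real.log p : ℝ) : ℂ) := by
  classical
  have : Fact p.Prime := ⟨hpp⟩
  have hT0 : T₀ ≠ 0 := pole_ne_zero hμ hP
  obtain ⟨κ, hκ, hκR⟩ := poincare_sub (p := p) hk m hinj m' hinj' ha hb c hc hnd f hf
  set D : ℤ := ∑ j, |θ j| with hD
  have hθD : ∀ j, 0 ≤ D - θ j := by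
    intro j
    have h1 := Finset.single_le_sum (f := fun j => |θ j|) (fun j _ => abs_nonneg _)
      (Finset.mem_univ j)
    have h3 := le_abs_self (θ j)
    have h4 : |θ j| ≤ D := h1
    linarith
  obtain ⟨Q1, hQ1, hZ⟩ := coreU p hpp.two_le m' pol θ D (fun j => (D - θ j).toNat)
    (fun j => Int.toNat_of_nonneg (hθD j)) hrel κ hκ T₀ hT0 hpol0
    (crit_of_hyp p hpp.two_le m' κ hκ T₀ hT0 _ hσ)
  have hZ1 := hZ 1
  rw [mul_one] at hZ1
  obtain ⟨R, hR⟩ := hκR _ hZ1
  have h1 := mult_le hpp hP Q1 hQ1 _ R hR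
  have hX10 : (Polynomial.X + 1 : Polynomial ℂ) ≠ 0 := by
    intro h
    have := congrArg (Polynomial.eval 0) h
    simp at this
  rw [Polynomial.rootMultiplicity_mul (mul_ne_zero hX10 hpol0)]
  exact h1

end Pool.Agent.TH216.EP
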