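import Pool.Agent.TH216.EP.M

set_option autoImplicit false
set_option linter.unusedSectionVars false

/-! Hensel's lemma for sets of units, general form. -/

namespace Pool.Agent.TH216.EP

open MeasureTheory Pool.Agent.W426.SM Pool.Agent.W424.SM.ZMU Pool.Agent.W22.SM.ZMA
open Pool.Agent.W422.SM

variable {n k : ℕ} {p : ℕ} [hp : Fact p.Prime]

lemma DD_eq (m : Fin k → Fin n → ℕ) (b : Fin k → ℤ_[p]) (i : Fin n) (y : Fin n → ℤ_[p]) :
    DD m b i y = GG m (fun j => (m j i : ℤ_[p]) * b j) y := by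
  unfold DD GG XX
  exact Finset.sum_congr rfl fun j _ => by ring

lemma DD_congr' (m : Fin k → Fin n → ℕ) (b : Fin k → ℤ_[p]) (i : Fin n) (y lam : Fin n → ℤ_[p])
    (x : ℤ_[p]) (e : ℕ) (hx : (p : ℤ_[p]) ^ e ∣ x) :
    (p : ℤ_[p]) ^ e ∣ DD m b i (mulu lam x y) ↔ (p : ℤ_[p]) ^ e ∣ DD m b i y := by
  rw [DD_eq, DD_eq]
  obtain ⟨E, hE⟩ := GG_taylor m (fun j => (m j i : ℤ_[p]) * b j) y lam x
  unfold mulu
  rw [hE, add_assoc]
  refine dvd_add_left ?_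
  refine dvd_add (Dvd.dvd.mul_left hx _) (Dvd.dvd.mul_left (dvd_pow hx (by norm_num)) _)

/-- the minimal order of the derivatives is `e`, first attained for `i` -/
def PE (m : Fin k → Fin n → ℕ) (b : Fin k → ℤ_[p]) (e : ℕ) (i : Fin n) : Set (Fin n → ℤ_[p]) :=
  {y | (∀ i', (p : ℤ_[p]) ^ e ∣ DD m b i' y) ∧ ¬ (p : ℤ_[p]) ^ (e + 1) ∣ DD m b i y ∧
    ∀ i' < i, (p : ℤ_[p]) ^ (e + 1) ∣ DD m b i' y}

lemma PE_congr (m : Fin k → Fin n → ℕ) (b : Fin k → ℤ_[p]) (e : ℕ) (i : Fin n)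
    (y lam : Fin n → ℤ_[p]) (x : ℤ_[p]) (hx : (p : ℤ_[p]) ^ (e + 1) ∣ x) :
    mulu lam x y ∈ PE m b e i ↔ y ∈ PE m b e i := by
  have hx' : (p : ℤ_[p]) ^ e ∣ x := (pow_dvd_pow _ (Nat.le_succ e)).trans hx
  unfold PE
  simp only [Set.mem_ofPred_eq, DD_congr' m b _ y lam x e hx', DD_congr' m b _ y lam x (e + 1) hx]

lemma PE_disj (m : Fin k → Fin n → ℕ) (b : Fin k → ℤ_[p]) {e e' : ℕ} {i i' : Fin n}
    {y : Fin n → ℤ_[p]} (h : y ∈ PE m b e i) (h' : y ∈ PE m b e' i') : e = e' ∧ i = i' := by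
  have key : ∀ {e e' : ℕ} {i i' : Fin n}, y ∈ PE m b e i → y ∈ PE m b e' i' → ¬ e < e' := by
    intro e e' i i' h h' hlt
    exact h.2.1 ((pow_dvd_pow _ hlt).trans (h'.1 i))
  have he : e = e' := le_antisymm (not_lt.1 (key h' h)) (not_lt.1 (key h h'))
  subst he
  refine ⟨rfl, ?_⟩
  have key2 : ∀ {i i' : Fin n}, y ∈ PE m b e i → y ∈ PE m b e i' → ¬ i < i' := by
    intro i i' h h' hlt
    exact h.2.1 (h'.2.2 i hlt)
  exact le_antisymm (not_lt.1 (key2 h' h)) (not_lt.1 (key2 h h'))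

lemma PE_exists (m : Fin k → Fin n → ℕ) (b : Fin k → ℤ_[p]) (v : ℕ) (y : Fin n → ℤ_[p])
    (h : ∃ i, ¬ (p : ℤ_[p]) ^ (v + 1) ∣ DD m b i y) : ∃ e ≤ v, ∃ i, y ∈ PE m b e i := by
  classical
  have hex : ∃ e, ∃ i, ¬ (p : ℤ_[p]) ^ (e + 1) ∣ DD m b i y := ⟨v, h⟩
  set e := Nat.find hex with he
  have h1 : ∃ i, ¬ (p : ℤ_[p]) ^ (e + 1) ∣ DD m b i y := Nat.find_spec hex
  obtain ⟨i, hi, hmin⟩ := WellFounded.has_min (wellFounded_lt (α := Fin n))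
    {i | ¬ (p : ℤ_[p]) ^ (e + 1) ∣ DD m b i y} h1
  refine ⟨e, Nat.find_min' hex h, i, ?_, hi, fun i' hi' => ?_⟩
  · intro i'
    rcases Nat.eq_zero_or_pos e with h0 | h0
    · rw [h0, pow_zero]
      exact one_dvd _
    · have h2 := Nat.find_min hex (m := e - 1) (by omega)
      push Not at h2
      have h3 := h2 i'
      rwa [Nat.sub_add_cancel h0] at h3
  · by_contra h2
    exact hmin i' h2 hi'

section key

variable (m : Fin k → Fin n → ℕ) (b : Fin k → ℤ_[p])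

lemma taylor_PE (e : ℕ) (i : Fin n) (l : ℕ) (hl : 2 * e + 1 ≤ l) (y : Fin n → ℤ_[p])
    (hy : y ∈ PE m b e i) : ∃ D : ℤ_[p], ‖D‖ = 1 ∧ ∀ r : ℤ_[p], ∃ F : ℤ_[p],
      GG m b (mulu (Pi.single i 1) ((p : ℤ_[p]) ^ (l - e) * r) y) =
        GG m b y + (p : ℤ_[p]) ^ l * (D * r + p * F) := by
  classical
  obtain ⟨D, hD⟩ := hy.1 i
  have hD1 : ‖D‖ = 1 := by
    have h1 : ¬ (p : ℤ_[p]) ∣ D := by
      rintro ⟨D', hD'⟩
      apply hy.2.1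
      exact ⟨D', by rw [hD, hD', pow_succ]; ring⟩
    rw [← toZMod_ne_zero, Ne, toZMod_eq_zero']
    exact h1
  refine ⟨D, hD1, fun r => ?_⟩
  obtain ⟨E, hE⟩ := GG_taylor m b y (Pi.single i 1) ((p : ℤ_[p]) ^ (l - e) * r)
  obtain ⟨s, hs⟩ : ∃ s, l = e + (e + 1 + s) := ⟨l - (2 * e + 1), by omega⟩
  have e1 : l - e = e + 1 + s := by omega
  refine ⟨E * (p : ℤ_[p]) ^ s * r ^ 2, ?_⟩
  unfold mulu
  rw [hE]
  have h1 : ∑ i', (Pi.single i 1 : Fin n → ℤ_[p]) i' * DD m b i' y = DD m b i y := by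
    rw [Finset.sum_eq_single i]
    · rw [Pi.single_eq_same, one_mul]
    · intro i' _ hi'
      rw [Pi.single_eq_of_ne hi', zero_mul]
    · intro h
      exact absurd (Finset.mem_univ i) h
  rw [h1, hD, e1, hs]
  ring

lemma mulu_units (i : Fin n) (x : ℤ_[p]) (hx : (p : ℤ_[p]) ∣ x) (y : Fin n → ℤ_[p]) :
    (∀ i', ‖mulu (Pi.single i 1) x y i'‖ = 1) ↔ ∀ i', ‖y i'‖ = 1 := by
  classical
  refine forall_congr' fun i' => ?_
  unfold mulu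
  rw [norm_mul]
  have h1 : ‖1 + (Pi.single i 1 : Fin n → ℤ_[p]) i' * x‖ = 1 := by
    apply norm_one_add
    rw [PadicInt.norm_lt_one_iff_dvd]
    exact Dvd.dvd.mul_left hx _
  rw [h1, mul_one]

lemma lift_PE (e : ℕ) (i : Fin n) (l : ℕ) (hl : 2 * e + 1 ≤ l) (y : Fin n → ℤ_[p])
    (hy : y ∈ VV m b l ∩ PE m b e i) : ∃ r₀ : ZMod p, ∀ r : ℕ,
      mulu (Pi.single i 1) ((p : ℤ_[p]) ^ (l - e) * (r : ℤ_[p])) y ∈
        VV m b (l + 1) ∩ PE m b e i ↔ (r : ZMod p) = r₀ := by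
  obtain ⟨⟨hu, w, hw⟩, hPE⟩ := hy
  obtain ⟨D, hD1, hD⟩ := taylor_PE m b e i l hl y hPE
  have hU : PadicInt.toZMod D ≠ 0 := toZMod_ne_zero.2 hD1
  refine ⟨- PadicInt.toZMod w / PadicInt.toZMod D, fun r => ?_⟩
  obtain ⟨F, hF⟩ := hD (r : ℤ_[p])
  have hx1 : (p : ℤ_[p]) ^ (e + 1) ∣ (p : ℤ_[p]) ^ (l - e) * (r : ℤ_[p]) :=
    Dvd.dvd.mul_right (pow_dvd_pow _ (by omega)) _
  have hx0 : (p : ℤ_[p]) ∣ (p : ℤ_[p]) ^ (l - e) * (r : ℤ_[p]) :=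
    Dvd.dvd.mul_right (dvd_pow_self _ (by omega)) _
  have e0 : mulu (Pi.single i 1) ((p : ℤ_[p]) ^ (l - e) * (r : ℤ_[p])) y ∈
      VV m b (l + 1) ∩ PE m b e i ↔ (p : ℤ_[p]) ^ (l + 1) ∣
        GG m b (mulu (Pi.single i 1) ((p : ℤ_[p]) ^ (l - e) * (r : ℤ_[p])) y) :=
    ⟨fun h => h.1.2, fun h => ⟨⟨(mulu_units i _ hx0 y).2 hu, h⟩,
      (PE_congr m b e i y _ _ hx1).2 hPE⟩⟩
  rw [e0, hF, hw]
  have e2 : (p : ℤ_[p]) ^ l * w + (p : ℤ_[p]) ^ l * (D * (r : ℤ_[p]) + p * F) =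
      (p : ℤ_[p]) ^ l * (w + D * r + p * F) := by ring
  rw [e2, pow_succ (p : ℤ_[p]) l]
  have hp0 : (p : ℤ_[p]) ^ l ≠ 0 := pow_ne_zero _ (by exact_mod_cast hp.out.ne_zero)
  rw [mul_dvd_mul_iff_left hp0, ← toZMod_eq_zero', map_add, map_mul PadicInt.toZMod (p : ℤ_[p]),
    toZMod_p, zero_mul, add_zero, map_add, map_mul PadicInt.toZMod D, map_natCast,
    eq_div_iff hU, eq_neg_iff_add_eq_zero, add_comm, mul_comm]

lemma of_lift_PE (e : ℕ) (i : Fin n) (l : ℕ) (hl : 2 * e + 1 ≤ l) (r : ℕ) (y : Fin n → ℤ_[p])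
    (hy : mulu (Pi.single i 1) ((p : ℤ_[p]) ^ (l - e) * (r : ℤ_[p])) y ∈
        VV m b (l + 1) ∩ PE m b e i) : y ∈ VV m b l ∩ PE m b e i := by
  obtain ⟨⟨hu, hd⟩, hPE⟩ := hy
  have hx1 : (p : ℤ_[p]) ^ (e + 1) ∣ (p : ℤ_[p]) ^ (l - e) * (r : ℤ_[p]) :=
    Dvd.dvd.mul_right (pow_dvd_pow _ (by omega)) _
  have hx0 : (p : ℤ_[p]) ∣ (p : ℤ_[p]) ^ (l - e) * (r : ℤ_[p]) :=
    Dvd.dvd.mul_right (dvd_pow_self _ (by omega)) _
  have hPE' := (PE_congr m b e i y _ _ hx1).1 hPE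
  obtain ⟨D, hD1, hD⟩ := taylor_PE m b e i l hl y hPE'
  obtain ⟨F, hF⟩ := hD (r : ℤ_[p])
  refine ⟨⟨(mulu_units i _ hx0 y).1 hu, ?_⟩, hPE'⟩
  rw [hF] at hd
  exact (dvd_add_left (dvd_mul_right _ _)).1 ((pow_dvd_pow _ (Nat.le_succ l)).trans hd)

end key

section meas

variable (m : Fin k → Fin n → ℕ) (b : Fin k → ℤ_[p])
  [MeasurableSpace (Fin n → ℤ_[p])] [BorelSpace (Fin n → ℤ_[p])]

lemma meas_dvdD (l : ℕ) (i : Fin n) :
    MeasurableSet {y : Fin n → ℤ_[p] | (p : ℤ_[p]) ^ l ∣ DD m b i y} := by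
  simp only [DD_eq]
  exact meas_dvd m _ l

lemma meas_PE (e : ℕ) (i : Fin n) : MeasurableSet (PE m b e i) := by
  unfold PE
  refine MeasurableSet.inter ?_ (MeasurableSet.inter ?_ ?_)
  · have : {y : Fin n → ℤ_[p] | ∀ i', (p : ℤ_[p]) ^ e ∣ DD m b i' y} =
        ⋂ i', {y | (p : ℤ_[p]) ^ e ∣ DD m b i' y} := by
      ext y
      simp
    show MeasurableSet {y : Fin n → ℤ_[p] | ∀ i', (p : ℤ_[p]) ^ e ∣ DD m b i' y}
    rw [this]
    exact MeasurableSet.iInter fun i' => meas_dvdD m b e i'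
  · exact (meas_dvdD m b (e + 1) i).compl
  · have : {y : Fin n → ℤ_[p] | ∀ i' < i, (p : ℤ_[p]) ^ (e + 1) ∣ DD m b i' y} =
        ⋂ i', ⋂ _ : i' < i, {y | (p : ℤ_[p]) ^ (e + 1) ∣ DD m b i' y} := by
      ext y
      simp
    show MeasurableSet {y : Fin n → ℤ_[p] | ∀ i' < i, (p : ℤ_[p]) ^ (e + 1) ∣ DD m b i' y}
    rw [this]
    exact MeasurableSet.iInter fun i' => MeasurableSet.iInter fun _ => meas_dvdD m b (e + 1) i'

lemma piece (e : ℕ) (i : Fin n) (l : ℕ) (hl : 2 * e + 1 ≤ l) :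
    (Measure.addHaar : Measure (Fin n → ℤ_[p])) (VV m b l ∩ PE m b e i) =
      p * (Measure.addHaar : Measure (Fin n → ℤ_[p])) (VV m b (l + 1) ∩ PE m b e i) := by
  have hms : MeasurableSet (VV m b (l + 1) ∩ PE m b e i) :=
    (meas_VV m b (l + 1)).inter (meas_PE m b e i)
  have hlt : ∀ r : ℕ, ‖(p : ℤ_[p]) ^ (l - e) * (r : ℤ_[p])‖ < 1 := by
    intro r
    rw [PadicInt.norm_lt_one_iff_dvd]
    exact Dvd.dvd.mul_right (dvd_pow_self _ (by omega)) _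
  have hmm : ∀ r : ℕ, Measurable
      (mulu (Pi.single i 1 : Fin n → ℤ_[p]) ((p : ℤ_[p]) ^ (l - e) * (r : ℤ_[p]))) := by
    intro r
    have hc : Continuous
      (mulu (Pi.single i 1 : Fin n → ℤ_[p]) ((p : ℤ_[p]) ^ (l - e) * (r : ℤ_[p]))) :=
      continuous_pi fun i => (continuous_apply i).mul continuous_const
    exact hc.measurable
  have hset : VV m b l ∩ PE m b e i = ⋃ r ∈ Finset.range p,
      (mulu (Pi.single i 1) ((p : ℤ_[p]) ^ (l - e) * (r : ℤ_[p]))) ⁻¹'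
        (VV m b (l + 1) ∩ PE m b e i) := by
    ext y
    simp only [Set.mem_iUnion, exists_prop]
    constructor
    · intro hy
      obtain ⟨r₀, hr⟩ := lift_PE m b e i l hl y hy
      refine ⟨r₀.val, Finset.mem_range.2 (ZMod.val_lt r₀), ?_⟩
      rw [Set.mem_preimage, hr]
      exact ZMod.natCast_zmod_val r₀
    · rintro ⟨r, -, hr⟩
      exact of_lift_PE m b e i l hl r y hr
  rw [hset, measure_biUnion_finset]
  · have h1 : ∀ r ∈ Finset.range p, (Measure.addHaar : Measure (Fin n → ℤ_[p]))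
        ((mulu (Pi.single i 1) ((p : ℤ_[p]) ^ (l - e) * (r : ℤ_[p]))) ⁻¹'
        (VV m b (l + 1) ∩ PE m b e i)) =
          (Measure.addHaar : Measure (Fin n → ℤ_[p])) (VV m b (l + 1) ∩ PE m b e i) :=
      fun r _ => measure_mulu _ _ (hlt r) _ hms
    rw [Finset.sum_congr rfl h1, Finset.sum_const, Finset.card_range, nsmul_eq_mul]
  · intro r hr r' hr' hne
    rw [Function.onFun, Set.disjoint_left]
    intro y h1 h2
    have hy := of_lift_PE m b e i l hl r y h1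
    obtain ⟨r₀, hr₀⟩ := lift_PE m b e i l hl y hy
    have e1 := (hr₀ r).1 h1
    have e2 := (hr₀ r').1 h2
    rw [Finset.coe_range, Set.mem_Iio] at hr hr'
    apply hne
    have e3 : (r : ZMod p) = (r' : ZMod p) := by rw [e1, e2]
    rw [ZMod.natCast_eq_natCast_iff'] at e3
    rwa [Nat.mod_eq_of_lt hr, Nat.mod_eq_of_lt hr'] at e3
  · intro r _
    exact hms.preimage (hmm r)

lemma sum_pieces (v : ℕ) (hv : ∀ y : Fin n → ℤ_[p], (∀ i, ‖y i‖ = 1) →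
      (p : ℤ_[p]) ^ (v + 1) ∣ GG m b y → ∃ i, ¬ (p : ℤ_[p]) ^ (v + 1) ∣ DD m b i y)
    (l : ℕ) (hl : v + 1 ≤ l) :
    (Measure.addHaar : Measure (Fin n → ℤ_[p])) (VV m b l) =
      ∑ x ∈ (Finset.range (v + 1)) ×ˢ (Finset.univ : Finset (Fin n)),
        (Measure.addHaar : Measure (Fin n → ℤ_[p])) (VV m b l ∩ PE m b x.1 x.2) := by
  rw [← measure_biUnion_finset]
  · congr 1
    ext y
    simp only [Set.mem_iUnion, exists_prop]
    constructor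
    · intro hy
      obtain ⟨e, he, i, hi⟩ := PE_exists m b v y (hv y hy.1 ((pow_dvd_pow _ hl).trans hy.2))
      exact ⟨(e, i), Finset.mem_product.2 ⟨Finset.mem_range.2 (by omega), Finset.mem_univ i⟩,
        hy, hi⟩
    · rintro ⟨x, -, hy, -⟩
      exact hy
  · intro x _ x' _ hne
    rw [Function.onFun, Set.disjoint_left]
    rintro y ⟨_, h1⟩ ⟨_, h2⟩
    obtain ⟨h3, h4⟩ := PE_disj m b h1 h2
    exact hne (Prod.ext h3 h4)
  · intro x _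
    exact (meas_VV m b l).inter (meas_PE m b x.1 x.2)

/-- **Hensel's lemma.** -/
theorem hensel (v : ℕ) (hv : ∀ y : Fin n → ℤ_[p], (∀ i, ‖y i‖ = 1) →
      (p : ℤ_[p]) ^ (v + 1) ∣ GG m b y → ∃ i, ¬ (p : ℤ_[p]) ^ (v + 1) ∣ DD m b i y)
    (l : ℕ) (hl : 2 * v + 1 ≤ l) :
    (Measure.addHaar : Measure (Fin n → ℤ_[p])) (VV m b l) =
      p * (Measure.addHaar : Measure (Fin n → ℤ_[p])) (VV m b (l + 1)) := by
  rw [sum_pieces m b v hv l (by omega), sum_pieces m b v hv (l + 1) (by omega), Finset.mul_sum]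
  refine Finset.sum_congr rfl fun x hx => ?_
  have h1 := Finset.mem_range.1 (Finset.mem_product.1 hx).1
  exact piece m b x.1 x.2 l (by omega)

end meas

end Pool.Agent.TH216.EP
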