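import Pool.Agent.TH216.MF.Core

set_option autoImplicit false

/-! Kernel polynomials with given values. -/

namespace Pool.Agent.TH216.EP

open MvPolynomial Pool.Agent.TH216.MF

variable {r N : ℕ}

/-- `1`, and `X ^ a (X - 1)` for `a + 1` -/
noncomputable def psi : ℕ → Polynomial ℂ
  | 0 => 1
  | a + 1 => Polynomial.X ^ a * (Polynomial.X - Polynomial.C 1)

lemma act1_psi (a : ℕ) (y : ℤ) :
    act1 (psi a) (H1 1) y = if min y 0 = -(a : ℤ) then 1 else 0 := by
  rcases a with _ | a
  · show act1 1 (H1 1) y = _
    rw [map_one]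
    show H1 1 y = _
    unfold H1
    by_cases h : 0 ≤ y
    · rw [if_pos h, one_pow, if_pos]
      simp [h]
    · rw [if_neg h, if_neg]
      rw [min_eq_left (by omega)]
      push_cast
      omega
  · show act1 (Polynomial.X ^ a * (Polynomial.X - Polynomial.C 1)) (H1 1) y = _
    rw [act1_mul, act1_X_sub]
    have h1 : act1 (Polynomial.X ^ a) del y = del (y + a) := by
      unfold act1
      rw [map_pow, Polynomial.aeval_X]
      exact S1_pow a del y
    rw [h1]
    unfold del
    by_cases h : y + (a : ℤ) = -1
    · rw [if_pos h, if_pos]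
      rw [min_eq_left (by omega)]
      push_cast
      omega
    · rw [if_neg h, if_neg]
      push_cast
      intro h2
      rcases le_total y 0 with h3 | h3
      · rw [min_eq_left h3] at h2
        omega
      · rw [min_eq_right h3] at h2
        omega

/-- the kernel polynomial with the values `Φ` -/
noncomputable def kF (L : ℕ) (Φ : Fn r) : MvPolynomial (Fin r) ℂ :=
  ∑ a ∈ Fintype.piFinset (fun _ : Fin r => Finset.range (L + 1)),
    C (Φ fun j => -(a j : ℤ)) * ∏ j, Polynomial.aeval (X j : MvPolynomial (Fin r) ℂ) (psi (a j))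

theorem act_kF (L : ℕ) (Φ : Fn r) (hΦ1 : ∀ y, Φ y = Φ (fun j => min (y j) 0))
    (hΦ2 : ∀ y : Fin r → ℤ, (∃ j, y j < -(L : ℤ)) → Φ y = 0) :
    act r (kF L Φ) (FG fun _ => 1) = Φ := by
  classical
  funext y
  unfold kF
  rw [map_sum, LinearMap.sum_apply, Finset.sum_apply]
  have h1 : ∀ a : Fin r → ℕ, act r (C (Φ fun j => -(a j : ℤ)) *
      ∏ j, Polynomial.aeval (X j : MvPolynomial (Fin r) ℂ) (psi (a j))) (FG fun _ => 1) y =
      Φ (fun j => -(a j : ℤ)) * ∏ j, (if min (y j) 0 = -(a j : ℤ) then 1 else 0) := by
    intro a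
    rw [act_mul, act_C, Pi.smul_apply, smul_eq_mul, FG, act_prod]
    unfold Fp
    simp only [act1_psi]
  simp only [h1]
  by_cases hy : ∃ j, y j < -(L : ℤ)
  · rw [hΦ2 y hy]
    obtain ⟨j, hj⟩ := hy
    refine Finset.sum_eq_zero fun a ha => ?_
    rw [Finset.prod_eq_zero (Finset.mem_univ j), mul_zero]
    rw [if_neg]
    have h2 := Finset.mem_range.1 (Fintype.mem_piFinset.1 ha j)
    rw [min_eq_left (by omega)]
    omega
  · push Not at hy
    set a0 : Fin r → ℕ := fun j => (-(min (y j) 0)).toNat with ha0
    have h2 : ∀ j, (a0 j : ℤ) = -(min (y j) 0) := by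
      intro j
      rw [ha0]
      simp only
      rw [Int.toNat_of_nonneg]
      have := min_le_right (y j) 0
      omega
    rw [Finset.sum_eq_single a0]
    · have h3 : (fun j => -(a0 j : ℤ)) = fun j => min (y j) 0 := by
        funext j
        rw [h2 j]
        ring
      rw [h3, ← hΦ1 y, Finset.prod_eq_one, mul_one]
      intro j _
      rw [if_pos]
      rw [h2 j]
      ring
    · intro a _ hne
      have h3 : ∃ j, a j ≠ a0 j := by
        by_contra hc
        push Not at hc
        exact hne (funext hc)
      obtain ⟨j, hj⟩ := h3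
      rw [Finset.prod_eq_zero (Finset.mem_univ j), mul_zero]
      rw [if_neg]
      intro h4
      apply hj
      have h5 := h2 j
      omega
    · intro hn
      exfalso
      apply hn
      rw [Fintype.mem_piFinset]
      intro j
      rw [Finset.mem_range]
      have h5 := h2 j
      have h6 := hy j
      have h7 : -(L : ℤ) ≤ min (y j) 0 := le_min h6 (by omega)
      omega

/-- substitution -/
lemma sub_aeval_mem (I : Ideal (MvPolynomial (Fin r) ℂ)) (s : Fin r → MvPolynomial (Fin r) ℂ)
    (hs : ∀ j, X j - s j ∈ I) (g : MvPolynomial (Fin r) ℂ) : g - aeval s g ∈ I := by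
  rw [← Ideal.Quotient.eq_zero_iff_mem, map_sub, sub_eq_zero]
  have h1 : (Ideal.Quotient.mkₐ ℂ I) = (Ideal.Quotient.mkₐ ℂ I).comp (aeval s) := by
    apply MvPolynomial.algHom_ext
    intro j
    rw [AlgHom.comp_apply, aeval_X]
    have h2 := Ideal.Quotient.eq_zero_iff_mem.2 (hs j)
    rw [map_sub, sub_eq_zero] at h2
    exact h2
  have h2 := congrArg (fun φ => φ g) h1
  exact h2

theorem kern_kF (q L : ℕ) (v : Fin r → Fin N → ℕ) (Φ : Fn r) (hL : 1 ≤ L)
    (h : ∀ (i : Fin N) (j0 : Fin r), v j0 i = 1 → ∀ y : Fin r → ℤ,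
      (∀ j, j ≠ j0 → 0 < v j i → 0 ≤ y j) →
      Φ (Function.update y j0 0) + ((q : ℂ) - 1) * Φ (Function.update y j0 (-1)) = 0 ∧
        ∀ a : ℕ, 2 ≤ a → Φ (Function.update y j0 (-(a : ℤ))) = 0) : Kern q v (kF L Φ) := by
  classical
  intro i j0 hj0
  set I : Ideal (MvPolynomial (Fin r) ℂ) := Ideal.span {g : MvPolynomial (Fin r) ℂ | ∃ j, 0 < v j i ∧
      g = X j - C (if j = j0 then (q : ℂ) else 1)} with hI
  set s : Fin r → MvPolynomial (Fin r) ℂ := fun j =>
    if 0 < v j i then C (if j = j0 then (q : ℂ) else 1) else X j with hs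
  have h0 : ∀ j, X j - s j ∈ I := by
    intro j
    simp only [hs]
    split_ifs with h1 h2
    · exact Ideal.subset_span ⟨j, h1, by rw [if_pos h2]⟩
    · exact Ideal.subset_span ⟨j, h1, by rw [if_neg h2]⟩
    · rw [sub_self]
      exact I.zero_mem
  have hz : aeval s (kF L Φ) = 0 := by
    have e1 : aeval s (kF L Φ) = ∑ a ∈ Fintype.piFinset (fun _ : Fin r => Finset.range (L + 1)),
        C (Φ fun j => -(a j : ℤ)) * ∏ j, Polynomial.aeval (s j) (psi (a j)) := by
      unfold kF
      rw [map_sum]
      refine Finset.sum_congr rfl fun a _ => ?_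
      rw [map_mul, aeval_C, map_prod]
      congr 1
      refine Finset.prod_congr rfl fun j _ => ?_
      rw [← Polynomial.aeval_algHom_apply, aeval_X]
    rw [e1]
    set P := Fintype.piFinset (fun _ : Fin r => Finset.range (L + 1)) with hP
    set E : Fin r → ℕ → MvPolynomial (Fin r) ℂ := fun j a => Polynomial.aeval (s j) (psi a) with hE
    set G : (Fin r → ℕ) → MvPolynomial (Fin r) ℂ := fun a =>
      C (Φ fun j => -(a j : ℤ)) * ∏ j, E j (a j) with hG
    have e2 : ∑ a ∈ P, G a = ∑ x ∈ (P.filter fun a => a j0 = 0) ×ˢ Finset.range (L + 1),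
        G (Function.update x.1 j0 x.2) := by
      refine Finset.sum_nbij' (fun a => (Function.update a j0 0, a j0))
        (fun x => Function.update x.1 j0 x.2) ?_ ?_ ?_ ?_ ?_
      · intro a ha
        rw [Finset.mem_product, Finset.mem_filter]
        refine ⟨⟨?_, Function.update_self _ _ _⟩, Fintype.mem_piFinset.1 ha j0⟩
        rw [hP, Fintype.mem_piFinset]
        intro j
        show Function.update a j0 0 j ∈ Finset.range (L + 1)
        by_cases hj : j = j0
        · rw [hj, Function.update_self]
          exact Finset.mem_range.2 (Nat.succ_pos _)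
        · rw [Function.update_of_ne hj]
          exact Fintype.mem_piFinset.1 ha j
      · intro x hx
        rw [Finset.mem_product, Finset.mem_filter] at hx
        rw [hP, Fintype.mem_piFinset]
        intro j
        by_cases hj : j = j0
        · subst hj
          rw [Function.update_self]
          exact hx.2
        · rw [Function.update_of_ne hj]
          exact Fintype.mem_piFinset.1 hx.1.1 j
      · intro a _
        simp
      · intro x hx
        rw [Finset.mem_product, Finset.mem_filter] at hx
        have h3 : x.1 j0 = 0 := hx.1.2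
        refine Prod.ext ?_ ?_
        · show Function.update (Function.update x.1 j0 x.2) j0 0 = x.1
          rw [Function.update_idem]
          rw [← h3, Function.update_eq_self]
        · show Function.update x.1 j0 x.2 j0 = x.2
          rw [Function.update_self]
      · intro a _
        simp
    show ∑ a ∈ P, G a = 0
    rw [e2, Finset.sum_product]
    refine Finset.sum_eq_zero fun a ha => ?_
    have hEother : ∀ j, j ≠ j0 → 0 < v j i → ∀ b : ℕ, b ≠ 0 → E j b = 0 := by
      intro j hj hv b hb
      obtain ⟨b', rfl⟩ := Nat.exists_eq_succ_of_ne_zero hb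
      simp only [hE]
      show Polynomial.aeval (s j) (Polynomial.X ^ b' * (Polynomial.X - Polynomial.C 1)) = 0
      rw [map_mul, map_sub, Polynomial.aeval_X, Polynomial.aeval_C]
      simp only [hs]
      rw [if_pos hv, if_neg hj, map_one, map_one, sub_self, mul_zero]
    have e3 : ∀ t : ℕ, G (Function.update a j0 t) =
        (C (Φ (Function.update (fun j => -(a j : ℤ)) j0 (-(t : ℤ)))) * E j0 t) *
          ∏ j ∈ Finset.univ.erase j0, E j (a j) := by
      intro t
      simp only [hG]
      have e4 : (fun j => -((Function.update a j0 t j : ℕ) : ℤ)) =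
          Function.update (fun j => -(a j : ℤ)) j0 (-(t : ℤ)) := by
        funext j
        by_cases hj : j = j0
        · subst hj
          rw [Function.update_self, Function.update_self]
        · rw [Function.update_of_ne hj, Function.update_of_ne hj]
      rw [e4, ← Finset.mul_prod_erase Finset.univ _ (Finset.mem_univ j0), Function.update_self,
        mul_assoc]
      congr 2
      refine Finset.prod_congr rfl fun j hj => ?_
      rw [Function.update_of_ne (Finset.ne_of_mem_erase hj)]
    simp only [e3]
    rw [← Finset.sum_mul]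
    by_cases hcase : ∃ j, j ≠ j0 ∧ 0 < v j i ∧ a j ≠ 0
    · obtain ⟨j, hj, hv, haj⟩ := hcase
      rw [Finset.prod_eq_zero (Finset.mem_erase.2 ⟨hj, Finset.mem_univ j⟩)
        (hEother j hj hv _ haj), mul_zero]
    · push Not at hcase
      obtain ⟨L', rfl⟩ : ∃ L', L = L' + 1 := ⟨L - 1, by omega⟩
      obtain ⟨h4, h5⟩ := h i j0 hj0 (fun j => -(a j : ℤ)) fun j hj hv => by
        rw [hcase j hj hv]
        simp
      have hE0 : E j0 0 = 1 := by
        simp only [hE]
        show Polynomial.aeval (s j0) (1 : Polynomial ℂ) = 1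
        rw [map_one]
      have hE1 : E j0 1 = C ((q : ℂ) - 1) := by
        simp only [hE]
        show Polynomial.aeval (s j0) (Polynomial.X ^ 0 * (Polynomial.X - Polynomial.C 1)) = _
        rw [pow_zero, one_mul, map_sub, Polynomial.aeval_X, Polynomial.aeval_C]
        simp only [hs]
        rw [if_pos (by omega), if_pos trivial, map_sub]
        rfl
      have e5 : ∑ t ∈ Finset.range (L' + 1 + 1),
          C (Φ (Function.update (fun j => -(a j : ℤ)) j0 (-(t : ℤ)))) * E j0 t =
          (0 : MvPolynomial (Fin r) ℂ) := by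
        rw [Finset.sum_range_succ', Finset.sum_range_succ', Finset.sum_eq_zero, zero_add]
        · rw [show ((0 + 1 : ℕ) : ℤ) = 1 by norm_num, show ((0 : ℕ) : ℤ) = 0 by norm_num, zero_add,
            neg_zero, hE0, hE1, mul_one, ← map_mul, ← map_add]
          rw [show Φ (Function.update (fun j => -(a j : ℤ)) j0 (-1)) * ((q : ℂ) - 1) +
            Φ (Function.update (fun j => -(a j : ℤ)) j0 0) = 0 by linear_combination h4, map_zero]
        · intro t _
          rw [h5 (t + 1 + 1) (by omega), map_zero, zero_mul]
      rw [e5, zero_mul]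
  have h2 := sub_aeval_mem I s h0 (kF L Φ)
  rw [hz, sub_zero] at h2
  exact h2

end Pool.Agent.TH216.EP
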