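import Pool.Agent.TH216.MF.Rays

set_option autoImplicit false

/-! The condition on the faces in at most three variables. -/

namespace Pool.Agent.TH216.EP

open Pool.Agent.TH216.MF
open Pool.Agent.W426.SM (gord IsRay face)
open Pool.Agent.W425.BF (B1)

variable {r N : ℕ}

/-- the barycentre of points of the polyhedron -/
lemma Pt_avg (v : Fin r → Fin N → ℕ) (A : Finset (Fin N)) (Z : Finset (Fin r)) (hN : 0 < N)
    (a : Fin N → Fin N → ℚ) (ha : ∀ i, a i ∈ Pt v A Z) :
    (fun x => (∑ i, a i x) / (N : ℚ)) ∈ Pt v A Z := by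
  have hN' : (0 : ℚ) < N := by exact_mod_cast hN
  have hs : ∀ j, ∑ x, (∑ i, a i x) / (N : ℚ) * (v j x : ℚ) =
      (∑ i, ∑ x, a i x * (v j x : ℚ)) / (N : ℚ) := by
    intro j
    rw [Finset.sum_comm, Finset.sum_div]
    refine Finset.sum_congr rfl fun x _ => ?_
    rw [div_mul_eq_mul_div, Finset.sum_mul]
  refine ⟨fun x => div_nonneg (Finset.sum_nonneg fun i _ => (ha i).1 x) hN'.le,
    fun x hx => ?_, fun j => ?_, fun j hj => ?_⟩
  · beta_reduce
    rw [Finset.sum_eq_zero fun i _ => (ha i).2.1 x hx, zero_div]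
  · beta_reduce
    rw [hs, le_div_iff₀ hN', one_mul]
    calc (N : ℚ) = ∑ _i : Fin N, (1 : ℚ) := by simp
      _ ≤ _ := Finset.sum_le_sum fun i _ => (ha i).2.2.1 j
  · beta_reduce
    rw [hs, div_eq_iff hN'.ne', one_mul]
    calc ∑ i, ∑ x, a i x * (v j x : ℚ) = ∑ _i : Fin N, (1 : ℚ) :=
          Finset.sum_congr rfl fun i _ => (ha i).2.2.2 j hj
      _ = N := by simp

/-- **The condition on the faces in at most three variables.** -/
theorem hypS_three (hN3 : N ≤ 3) (hr : 0 < r) (m : Fin r → Fin N → ℕ) (σ : ℝ) (C : Finset (Fin r))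
    (hC : ∀ a : Fin N → ℚ, (∀ i, 0 < a i) → (∀ j, 1 ≤ ∑ i, a i * (m j i : ℚ)) →
      ∀ x, ∑ i, a i * (m x i : ℚ) = 1 → x ∈ C)
    (hS : ∀ b : Fin N → ℕ, IsRay m b → 0 < gord m b →
      ((∑ i, b i : ℕ) : ℝ) / gord m b = σ → ∀ u : Fin r → ℚ, (∀ x, x ∉ C → u x = 0) →
      (∀ x, ¬ face m b x → u x = 0) → (∀ i, b i ≠ 0 → ∑ x, u x * (m x i : ℚ) = 0) → ∀ x, u x = 0)
    (hB : ∀ b : Fin N → ℕ, IsRay m b → 0 < gord m b →
      ((∑ i, b i : ℕ) : ℝ) / gord m b = σ → (∃ i0, b i0 = 0) → ∃ i, B1 m i b) : HypS m σ := by
  classical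
  intro A Z hne hconst hprem
  obtain ⟨a0, b, ha0, hb0, hray, hg, hf, hlev⟩ := ray_of_vertex hr m A Z hne
  have hlev' : ((∑ i, b i : ℕ) : ℝ) / gord m b = σ := by
    rw [← hconst a0 ha0, ← hlev]
    push_cast
    rfl
  have hbA : ∀ i, b i ≠ 0 → i ∈ A := fun i hi => by
    by_contra hiA
    exact hi ((hb0 i).2 (ha0.2.1 i hiA))
  have hbf : ∀ x, x ∉ Z → face m b x := fun x hx => (hf x).2 (ha0.2.2.2 x hx)
  by_cases hfull : ∃ a ∈ Pt m A Z, ∀ i, a i ≠ 0
  · obtain ⟨a, ha, hai⟩ := hfull
    left
    intro u hu1 hu2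
    refine hS b hray hg hlev' u (fun x hx => ?_) (fun x hx => ?_) (fun i hi => hu1 i (hbA i hi))
    · apply hu2
      by_contra hxZ
      exact hx (hC a (fun i => lt_of_le_of_ne (ha.1 i) (Ne.symm (hai i))) ha.2.2.1 x
        (ha.2.2.2 x hxZ))
    · apply hu2
      by_contra hxZ
      exact hx (hbf x hxZ)
  · push Not at hfull
    obtain ⟨i0, hi0⟩ : ∃ i0, ∀ a ∈ Pt m A Z, a i0 = 0 := by
      by_contra hcon
      push Not at hcon
      choose a ha hai using hcon
      have hN : 0 < N := by
        obtain ⟨i, -⟩ := hfull a0 ha0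
        exact Fin.pos i
      obtain ⟨i, hi⟩ := hfull _ (Pt_avg m A Z hN a ha)
      have hN' : (N : ℚ) ≠ 0 := by exact_mod_cast hN.ne'
      have h1 : ∑ i', a i' i = 0 := by
        rcases div_eq_zero_iff.1 hi with h | h
        · exact h
        · exact absurd h hN'
      exact hai i ((Finset.sum_eq_zero_iff_of_nonneg fun i' _ => (ha i').1 i).1 h1 i
        (Finset.mem_univ i))
    obtain ⟨i, hbi, j0, hj0f, hj0, hj0u⟩ := hB b hray hg hlev' ⟨i0, (hb0 i0).2 (hi0 a0 ha0)⟩
    have hii0 : i ≠ i0 := by
      rintro rfl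
      exact hbi ((hb0 i).2 (hi0 a0 ha0))
    by_cases huniq : ∀ a ∈ Pt m A Z, a = a0
    · right
      refine ⟨i, hbA i hbi, j0, hj0, fun a ha hai => ?_, fun j hj hji a ha haj => ?_⟩
      · rw [huniq a ha] at hai
        exact hbi ((hb0 i).2 hai)
      · rw [huniq a ha] at haj
        have h1 := hj0u j ((hf j).2 haj) hj
        omega
    · push Not at huniq
      obtain ⟨a', ha', hne'⟩ := huniq
      left
      have hsum : ∑ t, a' t = ∑ t, a0 t := by
        have h1 := (hconst a' ha').trans (hconst a0 ha0).symm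
        exact_mod_cast h1
      have key : ∀ x, x ∉ Z → x = j0 := by
        intro x hxZ
        by_contra hxj
        have hxi := hj0u x (hbf x hxZ) hxj
        apply hne'
        have hout : ∀ t, t ≠ i → a' t = a0 t := by
          intro t hti
          by_cases ht0 : t = i0
          · rw [ht0, hi0 a' ha', hi0 a0 ha0]
          · have hother : ∀ s, s ≠ t → s ≠ i → s = i0 := by
              intro s hst hsi
              by_contra hs0
              have h1 : ({s, t, i, i0} : Finset (Fin N)).card = 4 := by
                rw [Finset.card_insert_of_notMem, Finset.card_insert_of_notMem,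
                  Finset.card_insert_of_notMem, Finset.card_singleton]
                · simp [hii0]
                · simp [hti, ht0]
                · simp [hst, hsi, hs0]
              have h2 := Finset.card_le_univ ({s, t, i, i0} : Finset (Fin N))
              rw [h1, Fintype.card_fin] at h2
              omega
            have hs : ∀ a ∈ Pt m A Z, ∑ s, a s * (m x s : ℚ) = a t * (m x t : ℚ) := by
              intro a ha
              refine Finset.sum_eq_single t (fun s _ hst => ?_)
                fun h => absurd (Finset.mem_univ _) h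
              by_cases hsi : s = i
              · rw [hsi, hxi]
                simp
              · rw [hother s hst hsi, hi0 a ha, zero_mul]
            have e1 := hs a' ha'
            have e2 := hs a0 ha0
            rw [ha'.2.2.2 x hxZ] at e1
            rw [ha0.2.2.2 x hxZ] at e2
            have hm0 : (m x t : ℚ) ≠ 0 := by
              intro h0
              rw [h0, mul_zero] at e1
              exact one_ne_zero e1
            exact mul_right_cancel₀ hm0 (e1.symm.trans e2)
        funext t
        by_cases hti : t = i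
        · rw [hti]
          have h1 : ∑ t, (a' t - a0 t) = 0 := by
            rw [Finset.sum_sub_distrib, hsum, sub_self]
          rw [Finset.sum_eq_single i (fun t _ ht => by rw [hout t ht, sub_self])
            (fun h => absurd (Finset.mem_univ _) h)] at h1
          exact sub_eq_zero.1 h1
        · exact hout t hti
      intro u hu1 hu2 x
      have hux : ∀ x, x ≠ j0 → u x = 0 := by
        intro x hx
        apply hu2
        by_contra hxZ
        exact hx (key x hxZ)
      by_cases hx : x = j0
      · have h1 := hu1 i (hbA i hbi)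
        rw [Finset.sum_eq_single j0 (fun y _ hy => by rw [hux y hy, zero_mul])
          (fun h => absurd (Finset.mem_univ _) h), hj0, Nat.cast_one, mul_one] at h1
        rw [hx]
        exact h1
      · exact hux x hx

end Pool.Agent.TH216.EP
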