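import Pool.Agent.TH216.G3.S7
import Pool.Agent.TH216.EP.T1

set_option autoImplicit false

/-! The rays with a zero coordinate, at most three variables. -/

namespace Pool.Agent.TH216.EP

open MvPolynomial Pool.Agent.W425.SV Pool.Agent.W425.MM Pool.Agent.W425.GN
open Pool.Agent.W426.SM (gord IsRay face)
open Pool.Agent.W803.SM (gord_le exists_gord)
open Pool.Agent.TH216.MF Pool.Agent.TH216.G3
open Pool.Agent.W425.BF (B1 hp_nonB)

variable {r N k' : ℕ}

/-- convex combinations on a face -/
lemma face_comb {s : ℕ} (v : Fin s → Fin N → ℕ) (b : Fin N → ℕ) (c : Fin s → ℝ)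
    (hc : ∀ j, 0 ≤ c j) (hc1 : ∑ j, c j = 1) (w : Fin N → ℕ)
    (hw : ∀ i, ∑ j, c j * (v j i : ℝ) = (w i : ℝ)) (hf : ∑ i, b i * w i = gord v b) (j1 : Fin s)
    (hj1 : c j1 ≠ 0) : face v b j1 := by
  unfold face
  by_contra hne
  have hj1' : 0 < c j1 := lt_of_le_of_ne (hc j1) (Ne.symm hj1)
  have h1 : (gord v b : ℝ) < ∑ j, c j * ((∑ i, b i * v j i : ℕ) : ℝ) := by
    calc (gord v b : ℝ) = ∑ j, c j * (gord v b : ℝ) := by rw [← Finset.sum_mul, hc1, one_mul]
      _ < _ := by
        refine Finset.sum_lt_sum (fun j _ =>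
          mul_le_mul_of_nonneg_left (by exact_mod_cast gord_le v b j) (hc j))
          ⟨j1, Finset.mem_univ j1, ?_⟩
        refine mul_lt_mul_of_pos_left ?_ hj1'
        exact_mod_cast lt_of_le_of_ne (gord_le v b j1) (Ne.symm hne)
  have h2 := inC_pair hw b
  rw [hf] at h2
  linarith

/-- a unique apex gives a B1 ray -/
theorem b1_of (v : Fin r → Fin N → ℕ) (m : Fin k' → Fin N → ℕ) (hm : Function.Injective m)
    (b : Fin N → ℕ) (hgm : gord m b = gord v b) (hmv : ∀ x, InC v Finset.univ (m x))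
    (hvm : ∀ j, InC m Finset.univ (v j)) (i : Fin N) (hbi : b i ≠ 0)
    (hle : ∀ j, face v b j → v j i ≤ 1) (α : Fin r) (hα : face v b α) (hα1 : v α i = 1)
    (huniq : ∀ j, face v b j → v j i = 1 → j = α) : B1 m i b := by
  classical
  have key : ∀ x, face m b x → m x i ≠ 0 → m x = v α := by
    intro x hx hxi
    obtain ⟨c, hc0, -, hc1, hc2⟩ := hmv x
    have hfj := fun j hj => face_comb v b c hc0 hc1 (m x) hc2 (by rw [← hgm]; exact hx) j hj
    have h3 : ∀ j ∈ Finset.univ, 0 ≤ c j * (1 - (v j i : ℝ)) := by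
      intro j _
      by_cases hj : c j = 0
      · rw [hj, zero_mul]
      · refine mul_nonneg (hc0 j) ?_
        have h4 : (v j i : ℝ) ≤ 1 := by exact_mod_cast hle j (hfj j hj)
        linarith
    have h2 : ∑ j, c j * (1 - (v j i : ℝ)) = 1 - (m x i : ℝ) := by
      simp only [mul_sub, mul_one, Finset.sum_sub_distrib]
      rw [hc1, hc2 i]
    have h4 : ∑ j, c j * (1 - (v j i : ℝ)) = 0 := by
      refine le_antisymm ?_ (Finset.sum_nonneg h3)
      rw [h2]
      have : (1 : ℝ) ≤ m x i := by exact_mod_cast Nat.one_le_iff_ne_zero.2 hxi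
      linarith
    have h1 : ∀ j, c j ≠ 0 → j = α := by
      intro j hj
      have h5 := (Finset.sum_eq_zero_iff_of_nonneg h3).1 h4 j (Finset.mem_univ j)
      have h6 : 1 - (v j i : ℝ) = 0 := (mul_eq_zero.1 h5).resolve_left hj
      have h7 : (v j i : ℝ) = 1 := by linarith
      exact huniq j (hfj j hj) (by exact_mod_cast h7)
    have hz : ∀ j, j ≠ α → c j = 0 := fun j hj => by
      by_contra h
      exact hj (h1 j h)
    have h5 : c α = 1 := by
      rw [← hc1]
      symm
      exact Finset.sum_eq_single α (fun j _ hj => hz j hj) (fun h => absurd (Finset.mem_univ _) h)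
    funext t
    have h6 := hc2 t
    rw [Finset.sum_eq_single α (fun j _ hj => by rw [hz j hj, zero_mul])
      (fun h => absurd (Finset.mem_univ _) h), h5, one_mul] at h6
    exact_mod_cast h6.symm
  obtain ⟨c, hc0, -, hc1, hc2⟩ := hvm α
  have hfx := fun x hx => face_comb m b c hc0 hc1 (v α) hc2 (by rw [hgm]; exact hα) x hx
  obtain ⟨x0, hx0, hx0i⟩ : ∃ x, c x ≠ 0 ∧ m x i ≠ 0 := by
    by_contra hcon
    push Not at hcon
    have h := hc2 i
    rw [hα1, Finset.sum_eq_zero (fun x _ => by
      by_cases h' : c x = 0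
      · rw [h', zero_mul]
      · rw [hcon x h']
        simp)] at h
    simp at h
  have hx0v := key x0 (hfx x0 hx0) hx0i
  refine ⟨hbi, x0, hfx x0 hx0, by rw [hx0v, hα1], fun y hy hyx => ?_⟩
  by_contra hyi
  exact hyx (hm ((key y hy hyi).trans hx0v.symm))

/-- pairs on a face with two coordinates -/
theorem pair_pattern [NeZero r] {F : Type} [Field F] (v : Fin r → Fin N → ℕ)
    (hv : Function.Injective v) (hv0 : ∀ j, v j ≠ 0) (h : MvPolynomial (Fin N) F)
    (hh : ∀ w ∈ h.support, NP v w) (a : Fin N → ℕ) (hg : 0 < gord v a)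
    (i k : Fin N) (hik : i ≠ k) (hsupp : ∀ x, x ≠ i → x ≠ k → a x = 0) (hai : a i ≠ 0)
    (hak : a k ≠ 0) (hHP : ¬ HP v h (-(((∑ i, a i : ℕ) : ℚ) / gord v a)) 0)
    (hval : ∀ j, face v a j → a i * v j i + a k * v j k = gord v a)
    (α γ : Fin r) (hα : face v a α) (hγ : face v a γ) (hlt : v α i < v γ i) :
    (v α i = 0 ∧ v γ i = 1) ∨ (v α k = 1 ∧ v γ k = 0) := by
  classical
  by_contra hcon
  push Not at hcon
  obtain ⟨hc1, hc2⟩ := hcon
  apply hHP
  have hαγ : α ≠ γ := by
    rintro rfl
    exact lt_irrefl _ hlt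
  have eα := hval α hα
  have eγ := hval γ hγ
  have hkp := Nat.pos_of_ne_zero hak
  have hip := Nat.pos_of_ne_zero hai
  have hlt2 : v γ k < v α k := by
    have h1 : a i * v α i < a i * v γ i := Nat.mul_lt_mul_of_pos_left hlt hip
    have h2 : a k * v γ k < a k * v α k := by omega
    exact Nat.lt_of_mul_lt_mul_left h2
  have hsum2 : ∀ f : Fin r → ℚ, (∀ j, j ∉ ({α, γ} : Finset (Fin r)) → f j = 0) →
      ∑ j, f j = f α + f γ := by
    intro f hf
    rw [← Finset.sum_subset (Finset.subset_univ ({α, γ} : Finset (Fin r)))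
      fun j _ hj => hf j hj, Finset.sum_pair hαγ]
  refine hp_nonB v hv hv0 h hh a hg (nonB_ofF v a {α, γ} ?_ ?_ ?_ ?_)
  · rw [Finset.card_pair hαγ]
    have : (Finset.univ.filter fun x => a x ≠ 0) = {i, k} := by
      ext x
      simp only [Finset.mem_filter, Finset.mem_univ, true_and, Finset.mem_insert,
        Finset.mem_singleton]
      constructor
      · intro hx
        by_contra hcon
        push Not at hcon
        exact hx (hsupp x hcon.1 hcon.2)
      · rintro (rfl | rfl)
        · exact hai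
        · exact hak
    rw [this, Finset.card_pair hik]
  · intro j hj
    rw [Finset.mem_insert, Finset.mem_singleton] at hj
    rcases hj with rfl | rfl
    · exact hα
    · exact hγ
  · intro w hw h1
    have e1 : ∀ x, a x ≠ 0 → w α * (v α x : ℚ) + w γ * (v γ x : ℚ) = 0 := fun x hx => by
      rw [← hsum2 (fun j => w j * (v j x : ℚ)) fun j hj => by rw [hw j hj, zero_mul]]
      exact h1 x hx
    have e2 := e1 i hai
    have e3 := e1 k hak
    have f1 : (v α i : ℚ) < v γ i := by exact_mod_cast hlt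
    have f2 : (v γ k : ℚ) < v α k := by exact_mod_cast hlt2
    have f3 : (0 : ℚ) ≤ v α i := Nat.cast_nonneg _
    have f4 : (0 : ℚ) ≤ v γ k := Nat.cast_nonneg _
    have f5 : (0 : ℚ) < (v γ i : ℚ) * v α k - (v α i : ℚ) * v γ k := by
      have g1 : (v α i : ℚ) * v γ k ≤ (v α i : ℚ) * v α k := mul_le_mul_of_nonneg_left f2.le f3
      have g2 : (v α i : ℚ) * v α k < (v γ i : ℚ) * v α k :=
        mul_lt_mul_of_pos_right f1 (lt_of_le_of_lt f4 f2)
      linarith
    have e4 : w α * ((v γ i : ℚ) * v α k - (v α i : ℚ) * v γ k) = 0 := by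
      linear_combination (v γ i : ℚ) * e3 - (v γ k : ℚ) * e2
    have e5 : w γ * ((v γ i : ℚ) * v α k - (v α i : ℚ) * v γ k) = 0 := by
      linear_combination (v α k : ℚ) * e2 - (v α i : ℚ) * e3
    have e6 := (mul_eq_zero.1 e4).resolve_right f5.ne'
    have e7 := (mul_eq_zero.1 e5).resolve_right f5.ne'
    intro j
    by_cases hj : j ∈ ({α, γ} : Finset (Fin r))
    · rw [Finset.mem_insert, Finset.mem_singleton] at hj
      rcases hj with rfl | rfl
      · exact e6
      · exact e7
    · exact hw j hj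
  · intro x hx
    have hxx : x = i ∨ x = k := by
      by_contra hcon
      push Not at hcon
      exact hx (hsupp x hcon.1 hcon.2)
    rintro ⟨j0, hj0, h1, h2⟩
    rw [Finset.mem_insert, Finset.mem_singleton] at hj0
    rcases hxx with rfl | rfl
    · rcases hj0 with rfl | rfl
      · have := h2 γ (by simp) hαγ.symm
        omega
      · have := h2 α (by simp) hαγ
        exact hc1 this h1
    · rcases hj0 with rfl | rfl
      · have := h2 γ (by simp) hαγ.symm
        exact hc2 h1 this
      · have := h2 α (by simp) hαγ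
        omega

end Pool.Agent.TH216.EP
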