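import Pool.Agent.TH216.EP.T2

set_option autoImplicit false

/-! The rays with a zero coordinate, at most three variables: the result. -/

namespace Pool.Agent.TH216.EP

open MvPolynomial Pool.Agent.W425.SV Pool.Agent.W425.MM Pool.Agent.W425.GN
open Pool.Agent.W426.SM (gord IsRay face)
open Pool.Agent.W803.SM (gord_le exists_gord)
open Pool.Agent.TH216.MF Pool.Agent.TH216.G3
open Pool.Agent.W425.BF (B1 hp_nonB)

variable {r N k' : ℕ}

theorem b1_apex [NeZero r] {F : Type} [Field F] (v : Fin r → Fin N → ℕ)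
    (hv : Function.Injective v) (hv0 : ∀ j, v j ≠ 0) (h : MvPolynomial (Fin N) F)
    (hh : ∀ w ∈ h.support, NP v w) (m : Fin k' → Fin N → ℕ)
    (hm : Function.Injective m) (b : Fin N → ℕ) (hns' : NoSp v ∨ ∑ i, b i ≠ 2 * gord v b)
    (hgm : gord m b = gord v b)
    (hmv : ∀ x, InC v Finset.univ (m x)) (hvm : ∀ j, InC m Finset.univ (v j))
    (hg : 0 < gord v b) (i k : Fin N) (hik : i ≠ k) (hsupp : ∀ x, x ≠ i → x ≠ k → b x = 0)
    (hbi : b i ≠ 0) (hbk : b k ≠ 0) (hHP : ¬ HP v h (-(((∑ i, b i : ℕ) : ℚ) / gord v b)) 0)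
    (hval : ∀ j, ∑ x, b x * v j x = b i * v j i + b k * v j k)
    (α γ : Fin r) (hα : face v b α) (hγ : face v b γ) (hα1 : v α i = 1) (hγ0 : v γ i = 0) :
    ∃ i', B1 m i' b := by
  have hvf : ∀ j, face v b j → b i * v j i + b k * v j k = gord v b := fun j hj => by
    rw [← hval]
    exact hj
  have hip := Nat.pos_of_ne_zero hbi
  have hkp := Nat.pos_of_ne_zero hbk
  have eα := hvf α hα
  have eγ := hvf γ hγ
  rw [hα1, mul_one] at eα
  rw [hγ0, mul_zero, zero_add] at eγ
  have hle : ∀ δ, face v b δ → v δ i ≤ 1 := by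
    intro δ hδ
    by_contra hcon
    push Not at hcon
    rcases pair_pattern v hv hv0 h hh b hg i k hik hsupp hbi hbk hHP hvf γ δ hγ hδ (by omega)
      with ⟨-, h1⟩ | ⟨h1, h2⟩
    · omega
    · have eδ := hvf δ hδ
      rw [h2, mul_zero, add_zero] at eδ
      rw [h1, mul_one] at eγ
      rcases Nat.eq_zero_or_pos (v α k) with h3 | h3
      · rw [h3, mul_zero, add_zero] at eα
        have h4 : b i * v δ i = b i * 1 := by omega
        have h5 := Nat.eq_of_mul_eq_mul_left hip h4
        omega
      · have h4 : b k * 1 ≤ b k * v α k := Nat.mul_le_mul_left _ h3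
        omega
  by_cases hu : ∀ β, face v b β → v β i = 1 → β = α
  · exact ⟨i, b1_of v m hm b hgm hmv hvm i hbi hle α hα hα1 hu⟩
  · push Not at hu
    obtain ⟨β, hβ, hβ1, hβα⟩ := hu
    by_cases hsp : v α k = 0 ∧ v γ i = 0 ∧ v γ k = 1
    · obtain ⟨s1, -, s3⟩ := hsp
      rw [s1, mul_zero, add_zero] at eα
      rw [s3, mul_one] at eγ
      have hns : NoSp v := by
        rcases hns' with h7 | h7
        · exact h7
        · exfalso
          apply h7
          have h8 : ∑ x, b x = b i + b k := by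
            rw [← Finset.sum_pair (f := fun x => b x) hik]
            refine (Finset.sum_subset (Finset.subset_univ _) fun x _ hx => ?_).symm
            rw [Finset.mem_insert, Finset.mem_singleton] at hx
            push Not at hx
            exact hsupp x hx.1 hx.2
          rw [h8, eα, eγ, two_mul]
      have hY : ∀ δ, face v b δ → v δ i + v δ k = 1 := by
        intro δ hδ
        have e1 := hvf δ hδ
        rw [eα, eγ, ← mul_add] at e1
        exact Nat.eq_of_mul_eq_mul_left hg (by omega)
      refine ⟨k, b1_of v m hm b hgm hmv hvm k hbk (fun δ hδ => by have := hY δ hδ; omega) γ hγ s3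
        fun δ hδ hδ1 => ?_⟩
      by_contra hne
      refine hns i k hik (fun j => ?_)
        ⟨α, β, Ne.symm hβα, hα1, s1, hβ1, by have := hY β hβ; omega⟩
        ⟨γ, δ, Ne.symm hne, hγ0, s3, by have := hY δ hδ; omega, hδ1⟩
      by_contra hcon
      push Not at hcon
      have h1 := gord_le v b j
      rw [hval, hcon.1, hcon.2, mul_zero, mul_zero] at h1
      omega
    · exfalso
      exact hHP (ray_root2 v hv hv0 h hh b hg i k hik hsupp hbi hbk α β γ (Ne.symm hβα) hα hβ hγ
        hα1 hβ1 (Or.inl (by omega)) hsp)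

theorem b1_plane [NeZero r] (hN3 : N ≤ 3) {F : Type} [Field F] (v : Fin r → Fin N → ℕ)
    (hv : Function.Injective v) (hv0 : ∀ j, v j ≠ 0) (h : MvPolynomial (Fin N) F)
    (hh : ∀ w ∈ h.support, NP v w) (m : Fin k' → Fin N → ℕ)
    (hm : Function.Injective m) (b : Fin N → ℕ) (hns' : NoSp v ∨ ∑ i, b i ≠ 2 * gord v b)
    (hgm : gord m b = gord v b)
    (hmv : ∀ x, InC v Finset.univ (m x)) (hvm : ∀ j, InC m Finset.univ (v j))
    (hg : 0 < gord v b) (hray : IsRay v b) (hz : ∃ i0, b i0 = 0)
    (h1 : ∑ i, b i ≠ gord v b) (hHP : ¬ HP v h (-(((∑ i, b i : ℕ) : ℚ) / gord v b)) 0) :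
    ∃ i', B1 m i' b := by
  classical
  by_cases h2 : ∃ x y, x ≠ y ∧ b x ≠ 0 ∧ b y ≠ 0
  · obtain ⟨i, k, hik, hbi, hbk⟩ := h2
    obtain ⟨i0, hi0⟩ := hz
    have hsupp : ∀ t, t ≠ i → t ≠ k → b t = 0 := by
      intro t hti htk
      by_contra hbt
      have e1 : ({i, k, t, i0} : Finset (Fin N)).card = 4 := by
        rw [Finset.card_insert_of_notMem, Finset.card_insert_of_notMem,
          Finset.card_insert_of_notMem, Finset.card_singleton]
        · rw [Finset.mem_singleton]
          rintro rfl
          exact hbt hi0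
        · rw [Finset.mem_insert, Finset.mem_singleton, not_or]
          refine ⟨Ne.symm htk, ?_⟩
          rintro rfl
          exact hbk hi0
        · rw [Finset.mem_insert, Finset.mem_insert, Finset.mem_singleton, not_or, not_or]
          refine ⟨hik, Ne.symm hti, ?_⟩
          rintro rfl
          exact hbi hi0
      have e2 := Finset.card_le_univ ({i, k, t, i0} : Finset (Fin N))
      rw [e1, Fintype.card_fin] at e2
      omega
    have hval : ∀ j, ∑ x, b x * v j x = b i * v j i + b k * v j k := by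
      intro j
      rw [← Finset.sum_pair (f := fun x => b x * v j x) hik]
      refine (Finset.sum_subset (Finset.subset_univ _) fun x _ hx => ?_).symm
      rw [Finset.mem_insert, Finset.mem_singleton] at hx
      push Not at hx
      rw [hsupp x hx.1 hx.2, zero_mul]
    have hvf : ∀ j, face v b j → b i * v j i + b k * v j k = gord v b := fun j hj => by
      rw [← hval]
      exact hj
    have hval' : ∀ j, ∑ x, b x * v j x = b k * v j k + b i * v j i := fun j => by
      rw [hval, add_comm]
    obtain ⟨γ1, γ2, hγ1, hγ2, hne⟩ : ∃ γ1 γ2, face v b γ1 ∧ face v b γ2 ∧ v γ1 i < v γ2 i := by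
      by_contra hcon
      push Not at hcon
      have heq : ∀ j j', face v b j → face v b j' → v j i = v j' i := fun j j' hj hj' =>
        le_antisymm (hcon j' j hj' hj) (hcon j j' hj hj')
      have hs : ∀ j, ∑ x, (if x = i then (1 : ℚ) else 0) * (v j x : ℚ) = v j i := by
        intro j
        simp
      obtain ⟨t, ht⟩ := hray.2 (fun x => if x = i then 1 else 0) (fun x hx => by
        rw [if_neg]
        rintro rfl
        exact hbi hx) (fun j j' hj hj' => by rw [hs, hs, heq j j' hj hj'])
      have h3 := ht k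
      rw [if_neg hik.symm] at h3
      have h4 : (b k : ℚ) ≠ 0 := by exact_mod_cast hbk
      have h5 : t = 0 := (mul_eq_zero.1 h3.symm).resolve_right h4
      have h6 := ht i
      rw [if_pos rfl, h5, zero_mul] at h6
      exact one_ne_zero h6
    rcases pair_pattern v hv hv0 h hh b hg i k hik hsupp hbi hbk hHP hvf γ1 γ2 hγ1 hγ2 hne
      with ⟨h3, h4⟩ | ⟨h3, h4⟩
    · exact b1_apex v hv hv0 h hh m hm b hns' hgm hmv hvm hg i k hik hsupp hbi hbk hHP hval
        γ2 γ1 hγ2 hγ1 h4 h3
    · exact b1_apex v hv hv0 h hh m hm b hns' hgm hmv hvm hg k i hik.symm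
        (fun x h5 h6 => hsupp x h6 h5) hbk hbi hHP hval' γ1 γ2 hγ1 hγ2 h3 h4
  · exfalso
    push Not at h2
    obtain ⟨i0, hi0⟩ : ∃ i0, b i0 ≠ 0 := by
      by_contra hcon
      push Not at hcon
      exact hray.1 (funext hcon)
    rcases ray_root1 v hv hv0 h hh b hg i0 fun t => ⟨fun ht => by
      by_contra hne
      exact ht (h2 i0 t (Ne.symm hne) hi0), fun ht => ht ▸ hi0⟩ with h3 | h3
    · exact h1 h3
    · exact hHP h3

end Pool.Agent.TH216.EP
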