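import Pool.Agent.TH216.MF.Ext

set_option autoImplicit false

/-! Adding exponents in the Newton polyhedron to the relation. -/

namespace Pool.Agent.TH216.EP

open MvPolynomial Pool.Agent.H628R4.TZ Pool.Agent.W425.SM Pool.Agent.W425.SV
open Pool.Agent.TH216.MF

variable {r N : ℕ}

/-- the relation with the exponents `w` -/
theorem relU2 {l : ℕ} (v : Fin r → Fin N → ℕ) (w : Fin l → Fin N → ℕ)
    (hw : ∀ x, NP v (Finsupp.equivFunOnFinite.symm (w x))) (θ1 : Fin r → ℤ) (p : Polynomial ℂ)
    (h : RelG v (Kil1 v) (KilU v θ1) p) :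
    ∃ θ' : Fin (r + l) → ℤ,
      RelG (Fin.append v w) (Kil1 (Fin.append v w)) (KilU (Fin.append v w) θ') p := by
  classical
  obtain ⟨M, n, n0, c, B, q, c0, q0, hc, hc0, hrel⟩ := h
  set θw : ℤ := -(∑ j, |θ1 j|) - 1 with hθw
  set m : Fin (r + l) → Fin N → ℕ := Fin.append v w with hm
  refine ⟨Fin.append θ1 fun _ => θw, ?_⟩
  -- embedding
  let ι : MvPolynomial (Fin r) ℂ →ₐ[ℂ] MvPolynomial (Fin (r + l)) ℂ := rename (Fin.castAdd l)
  have hιdm : ∀ j, ι (dm M j) = dm M (Fin.castAdd l j) := by
    intro j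
    show rename (Fin.castAdd l) (dm M j) = _
    unfold dm
    rw [map_prod]
    refine Finset.prod_congr rfl fun m _ => ?_
    rw [map_add, rename_X, rename_C]
  have hιX : ∀ j, ι (X j) = X (Fin.castAdd l j) := fun j => rename_X _ _
  set D' : MvPolynomial (Fin (r + l)) ℂ := ∏ x : Fin l, dm M (Fin.natAdd r x) with hD'
  have hprod : ∏ j : Fin (r + l), dm M j = ι (∏ j, dm M j) * D' := by
    rw [Fin.prod_univ_add, map_prod]
    simp only [hιdm]
    rfl
  have hprodc : ∀ c : Fin r → ℤ, ∏ j : Fin (r + l),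
      (if (Fin.append c fun _ => (0 : ℤ)) j < 0 then X j * dm M j else 1 :
        MvPolynomial (Fin (r + l)) ℂ) = ι (∏ j, if c j < 0 then X j * dm M j else 1) := by
    intro c
    rw [Fin.prod_univ_add, map_prod]
    have h1 : ∏ x : Fin l, (if (Fin.append c fun _ => (0 : ℤ)) (Fin.natAdd r x) < 0 then
        X (Fin.natAdd r x) * dm M (Fin.natAdd r x) else 1 : MvPolynomial (Fin (r + l)) ℂ) = 1 :=
      Finset.prod_eq_one fun x _ => by
        rw [Fin.append_right, if_neg (lt_irrefl 0)]
    rw [h1, mul_one]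
    refine Finset.prod_congr rfl fun j _ => ?_
    rw [Fin.append_left]
    split_ifs
    · rw [map_mul, hιX, hιdm]
    · rw [map_one]
  -- the ideal of the new variables
  set 𝔵 : Ideal (MvPolynomial (Fin (r + l)) ℂ) :=
    Ideal.span (Set.range fun x : Fin l => X (Fin.natAdd r x)) with h𝔵
  have hmkX : ∀ x : Fin l, Ideal.Quotient.mk 𝔵 (X (Fin.natAdd r x)) = 0 := fun x =>
    Ideal.Quotient.eq_zero_iff_mem.2 (Ideal.subset_span ⟨x, rfl⟩)
  have hmkS : Ideal.Quotient.mk 𝔵 (∑ j : Fin (r + l), X j) =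
      Ideal.Quotient.mk 𝔵 (ι (∑ j, X j)) := by
    rw [Fin.sum_univ_add, map_add, map_sum (Ideal.Quotient.mk 𝔵) (fun x : Fin l => X _)]
    simp only [hmkX, Finset.sum_const_zero, add_zero]
    rw [map_sum ι]
    simp only [hιX]
  have hmkel : ∀ i, Ideal.Quotient.mk 𝔵 (el m i) = Ideal.Quotient.mk 𝔵 (ι (el v i)) := by
    intro i
    have e1 : el m i = 1 + ∑ j, C ((m j i : ℕ) : ℂ) * X j := rfl
    have e2 : el v i = 1 + ∑ j, C ((v j i : ℕ) : ℂ) * X j := rfl
    rw [e1, e2, Fin.sum_univ_add, map_add, map_add, map_add, map_add, map_one, map_one, map_one,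
      map_sum (Ideal.Quotient.mk 𝔵) (fun x : Fin l => _), map_sum ι]
    have h1 : ∑ x : Fin l, Ideal.Quotient.mk 𝔵 (C ((m (Fin.natAdd r x) i : ℕ) : ℂ) *
        X (Fin.natAdd r x)) = 0 := Finset.sum_eq_zero fun x _ => by
      rw [map_mul, hmkX, mul_zero]
    rw [h1, add_zero]
    congr 2
    refine Finset.sum_congr rfl fun j _ => ?_
    rw [map_mul, hιX, hm, Fin.append_left]
    congr 1
    exact (rename_C _ _).symm
  set y1 : MvPolynomial (Fin (r + l)) ℂ :=
    Polynomial.aeval (∑ j : Fin (r + l), X j : MvPolynomial (Fin (r + l)) ℂ) p *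
      ι (∏ j, dm M j) - (∑ k, (∏ i ∈ B k, el m i) *
        (ι (∏ j, if c k j < 0 then X j * dm M j else 1) * ι (q k)) +
        ∑ k, ι (∏ j, if c0 k j < 0 then X j * dm M j else 1) * ι (q0 k)) with hy1
  have hy1mem : y1 ∈ 𝔵 := by
    rw [← Ideal.Quotient.eq_zero_iff_mem, hy1, map_sub, sub_eq_zero]
    have h1 := congrArg (fun z => Ideal.Quotient.mk 𝔵 (ι z)) hrel
    simp only [map_add, map_mul] at h1 ⊢
    have h2 : Ideal.Quotient.mk 𝔵 (Polynomial.aeval
        (∑ j : Fin (r + l), X j : MvPolynomial (Fin (r + l)) ℂ) p) =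
        Ideal.Quotient.mk 𝔵 (ι (Polynomial.aeval (∑ j, X j : MvPolynomial (Fin r) ℂ) p)) := by
      rw [← Polynomial.aeval_algHom_apply ι]
      have h3 : ∀ z : MvPolynomial (Fin (r + l)) ℂ, Ideal.Quotient.mk 𝔵 (Polynomial.aeval z p) =
          Polynomial.aeval (Ideal.Quotient.mk 𝔵 z) p := by
        intro z
        exact (Polynomial.aeval_algHom_apply (Ideal.Quotient.mkₐ ℂ 𝔵) z p).symm
      rw [h3, h3, hmkS]
    rw [h2, h1]
    congr 1
    · rw [map_sum ι, map_sum (Ideal.Quotient.mk 𝔵), map_sum (Ideal.Quotient.mk 𝔵)]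
      refine Finset.sum_congr rfl fun k _ => ?_
      rw [map_mul ι, map_mul (Ideal.Quotient.mk 𝔵), map_mul (Ideal.Quotient.mk 𝔵),
        map_prod ι (fun i => el v i), map_prod (Ideal.Quotient.mk 𝔵) (fun i => el m i),
        map_prod (Ideal.Quotient.mk 𝔵) (fun i => ι (el v i)), map_mul ι]
      congr 1
      exact Finset.prod_congr rfl fun i _ => (hmkel i).symm
    · rw [map_sum ι, map_sum (Ideal.Quotient.mk 𝔵), map_sum (Ideal.Quotient.mk 𝔵)]
      refine Finset.sum_congr rfl fun k _ => ?_
      rw [map_mul ι]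
  obtain ⟨g, hg⟩ := Ideal.mem_span_range_iff_exists_fun.1 hy1mem
  refine ⟨M, n, n0 + l, fun k => Fin.append (c k) fun _ => 0, B, fun k => ι (q k) * D',
    Fin.append (fun k => Fin.append (c0 k) fun _ => 0)
      (fun x j => if j = Fin.natAdd r x then -1 else 0),
    Fin.append (fun k => ι (q0 k) * D') (fun x => g x * ∏ x' ∈ Finset.univ.erase x,
      dm M (Fin.natAdd r x')), fun k => ?_, fun k => ?_, ?_⟩
  · -- `Kil1`
    obtain ⟨lm1, hl, hl1, hlB⟩ := hc k
    refine ⟨Fin.append lm1 fun _ => 0, fun j => ?_, ?_, fun i hi => ?_⟩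
    · refine Fin.addCases (fun j => ?_) (fun x => ?_) j
      · rw [Fin.append_left]; exact hl j
      · rw [Fin.append_right]
    · rw [Fin.sum_univ_add]
      simp only [Fin.append_left, Fin.append_right]
      simpa using hl1
    · rw [Fin.sum_univ_add]
      simp only [hm, Fin.append_left, Fin.append_right]
      simpa using hlB i hi
  · -- `KilU`
    refine Fin.addCases (fun k => ?_) (fun x => ?_) k
    · rw [Fin.append_left]
      obtain ⟨l0, g0, g1, g2, g3⟩ := hc0 k
      refine ⟨Fin.append l0 fun _ => 0, fun j => ?_, ?_, fun i => ?_, ?_⟩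
      · refine Fin.addCases (fun j => ?_) (fun x => ?_) j
        · rw [Fin.append_left]; exact g0 j
        · rw [Fin.append_right]
      · rw [Fin.sum_univ_add]
        simp only [Fin.append_left, Fin.append_right]
        simpa using g1
      · rw [Fin.sum_univ_add]
        simp only [hm, Fin.append_left, Fin.append_right]
        simpa using g2 i
      · rw [Fin.sum_univ_add]
        simp only [Fin.append_left, Fin.append_right]
        simpa using g3
    · rw [Fin.append_right]
      obtain ⟨lm1, hl, hl1, hlw⟩ := hw x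
      have hsum : ∀ f : Fin (r + l) → ℝ, ∑ j, (((if j = Fin.natAdd r x then (-1 : ℤ) else 0 : ℤ) :
          ℝ) + (Fin.append lm1 fun _ => (0 : ℝ)) j) * f j =
          ∑ j, lm1 j * f (Fin.castAdd l j) - f (Fin.natAdd r x) := by
        intro f
        rw [Fin.sum_univ_add]
        simp only [Fin.append_left, Fin.append_right]
        have h1 : ∀ j : Fin r, (Fin.castAdd l j = Fin.natAdd r x) = False := fun j => by
          rw [eq_iff_iff, iff_false]
          intro h
          have := congrArg Fin.val h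
          simp at this
          omega
        have h2 : ∀ x' : Fin l, (Fin.natAdd r x' = Fin.natAdd r x) = (x' = x) := fun x' => by
          simp
        simp only [h1, h2, if_false, Int.cast_zero, zero_add, add_zero]
        rw [sub_eq_add_neg]
        congr 1
        rw [Finset.sum_eq_single x]
        · simp
        · intro x' _ hx'
          rw [if_neg hx']
          simp
        · simp
      refine ⟨Fin.append lm1 fun _ => 0, fun j => ?_, ?_, fun i => ?_, ?_⟩
      · refine Fin.addCases (fun j => ?_) (fun x => ?_) j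
        · rw [Fin.append_left]; exact hl j
        · rw [Fin.append_right]
      · have h1 := hsum fun _ => 1
        simp only [mul_one] at h1
        rw [h1, hl1, sub_self]
      · rw [hsum fun j => (m j i : ℝ)]
        simp only [hm, Fin.append_left, Fin.append_right]
        have h1 := hlw i
        have h2 : ((Finsupp.equivFunOnFinite.symm (w x) i : ℕ) : ℝ) = w x i := rfl
        rw [h2] at h1
        linarith
      · rw [hsum fun j => ((Fin.append θ1 fun _ => θw) j : ℝ)]
        simp only [Fin.append_left, Fin.append_right]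
        have h1 : ∀ j, -(∑ j, |(θ1 j : ℝ)|) ≤ (θ1 j : ℝ) := by
          intro j
          have h2 := Finset.single_le_sum (f := fun j => |(θ1 j : ℝ)|)
            (fun j _ => abs_nonneg _) (Finset.mem_univ j)
          have h3 := neg_abs_le (θ1 j : ℝ)
          linarith
        have h2 : -(∑ j, |(θ1 j : ℝ)|) ≤ ∑ j, lm1 j * (θ1 j : ℝ) := by
          calc -(∑ j, |(θ1 j : ℝ)|) = ∑ j, lm1 j * -(∑ j, |(θ1 j : ℝ)|) := by
                rw [← Finset.sum_mul, hl1, one_mul]
            _ ≤ _ := Finset.sum_le_sum fun j _ => mul_le_mul_of_nonneg_left (h1 j) (hl j)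
        have h3 : (θw : ℝ) = -(∑ j, |(θ1 j : ℝ)|) - 1 := by
          rw [hθw]
          push_cast
          rfl
        rw [h3]
        linarith
  · -- the identity
    have hgen : ∀ P : MvPolynomial (Fin (r + l)) ℂ, P = Polynomial.aeval
        (∑ j : Fin (r + l), X j : MvPolynomial (Fin (r + l)) ℂ) p → y1 = P * ι (∏ j, dm M j) -
        (∑ k, (∏ i ∈ B k, el m i) *
        (ι (∏ j, if c k j < 0 then X j * dm M j else 1) * ι (q k)) +
        ∑ k, ι (∏ j, if c0 k j < 0 then X j * dm M j else 1) * ι (q0 k)) := fun P hP => by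
      rw [hP]
    clear hy1
    generalize Polynomial.aeval
      (∑ j : Fin (r + l), X j : MvPolynomial (Fin (r + l)) ℂ) p = P at hgen ⊢
    have hy1 := hgen P rfl
    rw [hprod, Fin.sum_univ_add]
    simp only [Fin.append_left, Fin.append_right, hprodc]
    have h1 : ∀ x : Fin l, ∏ j : Fin (r + l), (if (if j = Fin.natAdd r x then (-1 : ℤ) else 0) < 0
        then X j * dm M j else 1 : MvPolynomial (Fin (r + l)) ℂ) =
        X (Fin.natAdd r x) * dm M (Fin.natAdd r x) := by
      intro x
      rw [Finset.prod_eq_single (Fin.natAdd r x)]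
      · rw [if_pos rfl, if_pos (by norm_num)]
      · intro j _ hj
        rw [if_neg hj, if_neg (lt_irrefl 0)]
      · simp
    simp only [h1]
    have h2 : ∀ x : Fin l, X (Fin.natAdd r x) * dm M (Fin.natAdd r x) *
        (g x * ∏ x' ∈ Finset.univ.erase x, dm M (Fin.natAdd r x')) =
        (g x * X (Fin.natAdd r x)) * D' := by
      intro x
      rw [hD', ← Finset.mul_prod_erase _ _ (Finset.mem_univ x)]
      ring
    simp only [h2]
    rw [← Finset.sum_mul, hg]
    have h3 : ∑ k, (∏ i ∈ B k, el m i) * (ι (∏ j, if c k j < 0 then X j * dm M j else 1) *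
        (ι (q k) * D')) = (∑ k, (∏ i ∈ B k, el m i) *
          (ι (∏ j, if c k j < 0 then X j * dm M j else 1) * ι (q k))) * D' := by
      rw [Finset.sum_mul]
      exact Finset.sum_congr rfl fun k _ => by ring
    have h4 : ∑ k, ι (∏ j, if c0 k j < 0 then X j * dm M j else 1) * (ι (q0 k) * D') =
        (∑ k, ι (∏ j, if c0 k j < 0 then X j * dm M j else 1) * ι (q0 k)) * D' := by
      rw [Finset.sum_mul]
      exact Finset.sum_congr rfl fun k _ => by ring
    rw [h3, h4, hy1]
    ring

end Pool.Agent.TH216.EP
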