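import Pool.Agent.TH216.EP.T3
import Pool.Agent.TH216.EP.X2
import Pool.Agent.TH216.EP.GenF

set_option autoImplicit false
set_option linter.unusedVariables false

/-! At most three variables: the family of the vertices and of the exponents outside their hull. -/

namespace Pool.Agent.TH216.EP

open MvPolynomial Pool.Agent.W425.SV Pool.Agent.W425.MM Pool.Agent.W425.GN
open Pool.Agent.W426.SM (gord IsRay face)
open Pool.Agent.W803.SM (gord_le exists_gord)
open Pool.Agent.TH216.MF Pool.Agent.TH216.G3
open Pool.Agent.TH216.LX (Vert InN gord_np Circ circ_root atMost3)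
open Pool.Agent.W425.BF (B1 hp_nonB)

variable {r N : ℕ}

theorem faces3 [NeZero r] (hN3 : N ≤ 3) {F : Type} [Field F] (v : Fin r → Fin N → ℕ)
    (hv : Function.Injective v) (hv0 : ∀ j, v j ≠ 0) (h : MvPolynomial (Fin N) F)
    (hh : ∀ w ∈ h.support, NP v w) {R0 : ℕ} (m : Fin R0 → Fin N → ℕ)
    (hm : Function.Injective m) (hmv : ∀ j, ∃ x, m x = v j)
    (hull : ∀ x, InC v Finset.univ (m x)) (σ : ℚ) (hns : NoSp v ∨ σ ≠ 2) (hσ1 : σ ≠ 1)
    (hσ : ¬ HP v h (-σ) 0) :
    ∃ (k' : ℕ) (m' : Fin k' → Fin N → ℕ) (θ : Fin k' → ℤ) (pol : Polynomial ℂ),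
      Function.Injective m' ∧ (∀ l, ∃ x, m x = m' l) ∧ (∀ x, InC m' Finset.univ (m x)) ∧
      RelG m' (Kil1 m') (KilU m' θ) pol ∧ pol.eval ((-σ : ℚ) : ℂ) ≠ 0 ∧ HypS m' (σ : ℝ) := by
  classical
  have hr : 0 < r := Nat.pos_of_ne_zero (NeZero.ne r)
  have hz : zf Finset.univ v = v := by
    funext j i
    exact zf_in (Finset.mem_univ i) v j
  obtain ⟨R, ι, hR, hι, hV, hcov⟩ := exists_sub hr v
  set w : Fin R → Fin N → ℕ := fun k => v (ι k) with hw
  have hwι : ∀ k, v (ι k) = w k := fun k => rfl
  obtain ⟨θ, p, hrel, hp⟩ := rel_sub v hv hv0 h hh (-σ) hσ Finset.univ w ι hι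
    (fun k => by rw [hz]) (fun j => by rw [hz]; exact hcov j)
  have hwinj : Function.Injective w := fun k k' hk => hι (hv hk)
  have hNv : ∀ j, InN w Finset.univ (v j) := by
    intro j
    obtain ⟨l, h1, h2, h3⟩ := hcov j
    exact ⟨l, h1, h2, h3, fun i hi => absurd (Finset.mem_univ i) hi⟩
  have hgv : ∀ a, gord v a = gord w a := fun a =>
    gord_np v w Finset.univ hr hR (fun k => ⟨ι k, rfl⟩) hNv a
  have hNPm : ∀ x, ∃ l : Fin R → ℝ, (∀ k, 0 ≤ l k) ∧ ∑ k, l k = 1 ∧
      ∀ i, ∑ k, l k * (w k i : ℝ) ≤ (m x i : ℝ) := by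
    intro x
    obtain ⟨c, h1, -, h3, h4⟩ := hull x
    choose l hl0 hl1 hl2 using hcov
    refine ⟨fun k => ∑ j, c j * l j k, fun k => Finset.sum_nonneg fun j _ =>
      mul_nonneg (h1 j) (hl0 j k), ?_, fun i => ?_⟩
    · rw [Finset.sum_comm]
      simp only [← Finset.mul_sum, hl1, mul_one]
      exact h3
    · rw [← h4 i]
      simp only [Finset.sum_mul]
      rw [Finset.sum_comm]
      refine Finset.sum_le_sum fun j _ => ?_
      have e1 : ∑ k', c j * l j k' * (w k' i : ℝ) = c j * ∑ k', l j k' * (w k' i : ℝ) := by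
        rw [Finset.mul_sum]
        exact Finset.sum_congr rfl fun k' _ => by ring
      rw [e1]
      exact mul_le_mul_of_nonneg_left (hl2 j i) (h1 j)
  set E : Finset (Fin R0) := Finset.univ.filter fun x => ¬ InC w Finset.univ (m x) with hE
  set rest : Fin E.card → Fin N → ℕ := fun l => m (E.equivFin.symm l).1 with hrest
  have hrestE : ∀ l, ¬ InC w Finset.univ (rest l) := fun l =>
    (Finset.mem_filter.1 (E.equivFin.symm l).2).2
  have hNP : ∀ l, NP w (Finsupp.equivFunOnFinite.symm (rest l)) := fun l =>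
    hNPm (E.equivFin.symm l).1
  set m' : Fin (R + E.card) → Fin N → ℕ := Fin.append w rest with hm'
  have hrayg := pRAY w rest hR hNP
  have hinj : Function.Injective m' := by
    intro j j'
    refine Fin.addCases (fun j => ?_) (fun l => ?_) j <;>
      refine Fin.addCases (fun j' => ?_) (fun l' => ?_) j'
    · rw [hm', Fin.append_left, Fin.append_left]
      intro h3
      rw [hwinj h3]
    · rw [hm', Fin.append_left, Fin.append_right]
      intro h3
      exact absurd (h3 ▸ inC_self w _ j (Finset.mem_univ _)) (hrestE l')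
    · rw [hm', Fin.append_left, Fin.append_right]
      intro h3
      exact absurd (h3 ▸ inC_self w _ j' (Finset.mem_univ _)) (hrestE l)
    · rw [hm', Fin.append_right, Fin.append_right]
      intro h3
      have h4 : (E.equivFin.symm l) = (E.equivFin.symm l') := Subtype.ext (hm h3)
      rw [E.equivFin.symm.injective h4]
  have hma : ∀ l, ∃ x, m x = m' l := by
    intro l
    refine Fin.addCases (fun k => ?_) (fun l => ?_) l
    · obtain ⟨x, hx⟩ := hmv (ι k)
      exact ⟨x, by rw [hm', Fin.append_left, hx]⟩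
    · exact ⟨(E.equivFin.symm l).1, by rw [hm', Fin.append_right]⟩
  have hmb : ∀ x, InC m' Finset.univ (m x) := by
    intro x
    by_cases hC : InC w Finset.univ (m x)
    · exact inC_append w rest _ hC
    · have hmem : x ∈ E := Finset.mem_filter.2 ⟨Finset.mem_univ _, hC⟩
      have h3 : m' (Fin.natAdd R (E.equivFin ⟨x, hmem⟩)) = m x := by
        rw [hm', Fin.append_right, hrest]
        simp only [Equiv.symm_apply_apply]
      rw [← h3]
      exact inC_self _ _ _ (Finset.mem_univ _)
  obtain ⟨θ', hθ'⟩ := relU2 w rest hNP θ p hrel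
  refine ⟨R + E.card, m', θ', p, hinj, hma, hmb, hθ', hp, ?_⟩
  -- the levels
  have hlevQ : ∀ b : Fin N → ℕ, 0 < gord m' b →
      ((∑ i, b i : ℕ) : ℝ) / gord m' b = (σ : ℝ) →
      ((∑ i, b i : ℕ) : ℚ) / gord v b = σ ∧ 0 < gord v b := by
    intro b hb hl
    have e1 : gord m' b = gord v b := by rw [(hrayg b).1, hgv]
    rw [e1] at hb hl
    refine ⟨?_, hb⟩
    have : ((((∑ i, b i : ℕ) : ℚ) / gord v b : ℚ) : ℝ) = (σ : ℝ) := by
      push_cast
      push_cast at hl
      exact hl
    exact_mod_cast this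
  refine hypS_three hN3 (by omega) m' (σ : ℝ) (Finset.univ.image (Fin.castAdd E.card))
    ?_ ?_ ?_
  · intro a ha h1 x
    refine Fin.addCases (fun k => ?_) (fun l => ?_) x
    · intro _
      exact Finset.mem_image_of_mem _ (Finset.mem_univ _)
    · intro hx
      exfalso
      apply hrestE l
      obtain ⟨c, hc0, hc1, hc2⟩ := hNP l
      refine ⟨c, hc0, fun j hj => absurd (Finset.mem_univ j) hj, hc1, ?_⟩
      have hx' : ∑ i, (a i : ℝ) * (rest l i : ℝ) = 1 := by
        rw [hm', Fin.append_right] at hx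
        exact_mod_cast congrArg (fun z : ℚ => (z : ℝ)) hx
      have hk1 : ∀ k, (1 : ℝ) ≤ ∑ i, (a i : ℝ) * (w k i : ℝ) := by
        intro k
        have h2 := h1 (Fin.castAdd E.card k)
        rw [hm', Fin.append_left] at h2
        exact_mod_cast h2
      have hc2' : ∀ i, 0 ≤ (rest l i : ℝ) - ∑ k, c k * (w k i : ℝ) := fun i =>
        sub_nonneg.2 (hc2 i)
      have hsum : ∑ i, (a i : ℝ) * ((rest l i : ℝ) - ∑ k, c k * (w k i : ℝ)) ≤ 0 := by
        have e1 : ∑ i, (a i : ℝ) * ((rest l i : ℝ) - ∑ k, c k * (w k i : ℝ)) =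
            1 - ∑ k, c k * ∑ i, (a i : ℝ) * (w k i : ℝ) := by
          simp only [mul_sub, Finset.sum_sub_distrib, hx', Finset.mul_sum]
          congr 1
          rw [Finset.sum_comm]
          exact Finset.sum_congr rfl fun k _ => Finset.sum_congr rfl fun i _ => by ring
        have e2 : (1 : ℝ) ≤ ∑ k, c k * ∑ i, (a i : ℝ) * (w k i : ℝ) := by
          calc (1 : ℝ) = ∑ k, c k * 1 := by simp only [mul_one]; exact hc1.symm
            _ ≤ _ := Finset.sum_le_sum fun k _ => mul_le_mul_of_nonneg_left (hk1 k) (hc0 k)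
        linarith
      have hnn : ∀ i ∈ Finset.univ,
          0 ≤ (a i : ℝ) * ((rest l i : ℝ) - ∑ k, c k * (w k i : ℝ)) := fun i _ =>
        mul_nonneg (by exact_mod_cast (ha i).le) (hc2' i)
      have h0 := le_antisymm hsum (Finset.sum_nonneg hnn)
      intro i
      have h3 := (Finset.sum_eq_zero_iff_of_nonneg hnn).1 h0 i (Finset.mem_univ i)
      have h4 : (a i : ℝ) ≠ 0 := by exact_mod_cast (ha i).ne'
      have h5 := (mul_eq_zero.1 h3).resolve_left h4
      linarith
  · intro b hb hg hl u hu1 hu2 hu3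
    obtain ⟨hlv, hgvb⟩ := hlevQ b hg hl
    have hgw : 0 < gord w b := by rw [← hgv]; exact hgvb
    have hsim : SimR w b := by
      rcases atMost3 hN3 hR w hV b hgw with h3 | h3 | h3 | h3
      · exfalso
        apply hσ1
        rw [← hlv, h3, hgv]
        exact div_self (by exact_mod_cast hgw.ne')
      · exfalso
        apply hσ
        have h4 := hp_nonB v hv hv0 h hh b hgvb (nonB_sub v w ι hι hwι b (hgv b) h3)
        rw [hlv] at h4
        exact h4
      · exfalso
        apply hσ
        have h4 := hp_circ v hv hv0 h hh b hgvb (circ_sub v w ι hι hwι b (hgv b) h3)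
        rw [hlv] at h4
        exact h4
      · exact h3
    have hun : ∀ l, u (Fin.natAdd R l) = 0 := fun l => hu1 _ fun hmem => by
      obtain ⟨k, -, hk⟩ := Finset.mem_image.1 hmem
      have := congrArg Fin.val hk
      simp at this
      omega
    have hface : ∀ k, face m' b (Fin.castAdd E.card k) ↔ face w b k := by
      intro k
      unfold face
      rw [(hrayg b).1, hm', Fin.append_left]
    have hw0 := hsim (fun k => u (Fin.castAdd E.card k))
      (fun k hk => hu2 _ fun h4 => hk ((hface k).1 h4))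
      (fun i hi => by
        have h4 := hu3 i hi
        rw [Fin.sum_univ_add] at h4
        simp only [hm', Fin.append_left, Fin.append_right] at h4
        rw [Finset.sum_eq_zero (s := Finset.univ) (f := fun x => u (Fin.natAdd R x) *
          (rest x i : ℚ)) (fun x _ => by rw [hun x, zero_mul]), add_zero] at h4
        exact h4)
    intro x
    refine Fin.addCases (fun k => hw0 k) (fun l => hun l) x
  · intro b hb hg hl hz0
    obtain ⟨hlv, hgvb⟩ := hlevQ b hg hl
    have e1 : gord m' b = gord v b := by rw [(hrayg b).1, hgv]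
    have hns2 : NoSp v ∨ ∑ i, b i ≠ 2 * gord v b := by
      rcases hns with h7 | h7
      · exact Or.inl h7
      · right
        intro h8
        apply h7
        rw [← hlv, h8]
        push_cast
        exact mul_div_cancel_right₀ _ (by exact_mod_cast hgvb.ne')
    refine b1_plane hN3 v hv hv0 h hh m' hinj b hns2 e1 (fun x => ?_) (fun j => ?_) hgvb ?_ hz0
      ?_ (by rw [hlv]; exact hσ)
    · obtain ⟨y, hy⟩ := hma x
      rw [← hy]
      exact hull y
    · obtain ⟨x, hx⟩ := hmv j
      rw [← hx]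
      exact hmb x
    · have hrw := (hrayg b).2 hb
      refine ⟨hrw.1, fun u hu hc => hrw.2 u hu fun k k' hk hk' => ?_⟩
      refine hc (ι k) (ι k') ?_ ?_
      · show ∑ i, b i * v (ι k) i = gord v b
        rw [hgv]
        exact hk
      · show ∑ i, b i * v (ι k') i = gord v b
        rw [hgv]
        exact hk'
    · intro h4
      apply hσ1
      rw [← hlv, h4]
      exact div_self (by exact_mod_cast hgvb.ne')

end Pool.Agent.TH216.EP
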