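import Pool.Agent.TH216.EP.T4
import Pool.Agent.TH216.G3.E2

set_option autoImplicit false
set_option linter.unusedVariables false

/-! At most three variables, generic coefficients, every prime. -/

namespace Pool.Agent.TH216.EP

open MvPolynomial Pool.Agent.TH216.MF Pool.Agent.TH216.G3
open Pool.Agent.H628R4.TP Pool.Agent.W425.MM Pool.Agent.W425.GN
open Pool.Agent.W425.ND (spa)
open Pool.Agent.W426.SM (gord IsRay face)
open Pool.Agent.W206.CU (poincare IsPoleOfOrder pole_ne_zero)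
open Pool.Agent.W425.BF (B1 BD hz hz_support hz_eq cof gen_rootsJ shf shf_eval shf_ne)
open Pool.Agent.W425.SV (NP RelV Kil1)
open Pool.Agent.W425.PN (qpoly idn_of)

variable {r N : ℕ}

/-- the conclusion for the polynomial `f` -/
def ConE (s : Prop) (f : MvPolynomial (Fin N) ℤ) : Prop :=
  ∀ p : ℕ, p.Prime → ∀ (T₀ : ℂ) (μ : ℕ), 0 < μ → IsPoleOfOrder (poincare p f) T₀ μ →
    (s ∨ -Real.log ‖T₀‖ / Real.log p ≠ -2) →
    ∀ b : Polynomial ℂ, IsBFunction (MvPolynomial.map (Int.castRingHom ℂ) f) b →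
      b.eval ((-Real.log ‖T₀‖ / Real.log p : ℝ) : ℂ) = 0

theorem gen3_0 (hN3 : N ≤ 3) (hr : 0 < r)
    (v : Fin r → Fin N → ℕ) (hv : Function.Injective v) (hv0 : ∀ j, v j ≠ 0)
    (h : MvPolynomial (Fin N) ℤ) (hull : ∀ w ∈ h.support, InC v Finset.univ (fun i => w i))
    (hvh : ∀ w ∈ h.support, ∀ j, ¬ ∀ x, w x = v j x) :
    ∃ g : MvPolynomial (Fin r) ℚ, g ≠ 0 ∧ ∀ c : Fin r → ℤ,
      eval (fun j => (c j : ℚ)) g ≠ 0 → ConE (NoSp v) (spa v c + h) := by
  have hh : ∀ w ∈ h.support, NP v w := by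
    intro w hw
    obtain ⟨l, h1, -, h3, h4⟩ := hull w hw
    exact ⟨l, h1, h3, fun i => (h4 i).le⟩
  classical
  have hne : NeZero r := ⟨by omega⟩
  set hQ : MvPolynomial (Fin N) ℚ := MvPolynomial.map (Int.castRingHom ℚ) h with hhQ
  have hsub : ∀ w ∈ hQ.support, w ∈ h.support := fun w hw =>
    MvPolynomial.support_map_subset _ _ hw
  have hsup : ∀ w ∈ h.support, w ∈ hQ.support := by
    intro w hw
    rw [mem_support_iff] at hw ⊢
    rw [hhQ, coeff_map]
    intro h0
    apply hw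
    have h1 : ((coeff w h : ℤ) : ℚ) = 0 := h0
    exact_mod_cast h1
  have hhq : ∀ w ∈ hQ.support, NP v w := fun w hw => hh w (hsub w hw)
  obtain ⟨g0, hg0, hgb⟩ := univ pF4 pR1 hr v hv hQ
  obtain ⟨g1, hg1, h1⟩ := gen_rootsJ hr v hv hv0 hQ hhq
  obtain ⟨g2, hg2, h2⟩ := gen_nonDF pF4 hr v (weZ h) (we_npZ v h hh)
    (fun l => ((wcZ h l : ℤ) : ℚ))
  have hg3 : (∏ j : Fin r, (X j : MvPolynomial (Fin r) ℚ)) ≠ 0 :=
    Finset.prod_ne_zero_iff.2 fun j _ => X_ne_zero j
  refine ⟨g0 * g1 * g2 * ∏ j : Fin r, (X j : MvPolynomial (Fin r) ℚ),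
    mul_ne_zero (mul_ne_zero (mul_ne_zero hg0 hg1) hg2) hg3, fun c hc'' => ?_⟩
  set cQ : Fin r → ℚ := fun j => (c j : ℚ) with hcQ
  rw [map_mul] at hc''
  have hc' := left_ne_zero_of_mul hc''
  have hcne : ∀ j, c j ≠ 0 := by
    have h5 := right_ne_zero_of_mul hc''
    rw [map_prod] at h5
    intro j
    have h6 := Finset.prod_ne_zero_iff.1 h5 j (Finset.mem_univ j)
    rw [eval_X] at h6
    intro h7
    apply h6
    simp only [hcQ]
    rw [h7]
    rfl
  have hc : aeval (fun j => ((cQ j : ℚ) : ℂ)) (g0 * g1 * g2) ≠ 0 := by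
    have h0 : aeval (fun j => ((cQ j : ℚ) : ℂ)) (g0 * g1 * g2) =
        ((eval cQ (g0 * g1 * g2) : ℚ) : ℂ) := by
      have h5 := aeval_algebraMap_apply ℂ cQ (g0 * g1 * g2)
      exact h5
    rw [h0]
    exact_mod_cast hc'
  rw [map_mul, map_mul] at hc
  have hb0 := hgb _ (left_ne_zero_of_mul (left_ne_zero_of_mul hc))
  have hb := h1 _ (right_ne_zero_of_mul (left_ne_zero_of_mul hc))
  have hnd := h2 _ (right_ne_zero_of_mul hc)
  set m : Fin (r + h.support.card) → Fin N → ℕ := Fin.append v (weZ h) with hm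
  set cc : Fin (r + h.support.card) → ℤ := Fin.append c (wcZ h) with hcc
  have hcast : (fun j => ((cc j : ℤ) : ℚ)) = Fin.append cQ (fun l => ((wcZ h l : ℤ) : ℚ)) :=
    append_map (fun q : ℤ => (q : ℚ)) c (wcZ h)
  have hnq : NonD m (fun j => algebraMap ℚ ℂ ((cc j : ℤ) : ℚ)) := by
    have h3 := append_map (fun q : ℚ => (q : ℂ)) cQ (fun l => ((wcZ h l : ℤ) : ℚ))
    have h4 : (fun j => algebraMap ℚ ℂ ((cc j : ℤ) : ℚ)) =
        fun j => (((Fin.append cQ (fun l => ((wcZ h l : ℤ) : ℚ)) j : ℚ)) : ℂ) := by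
      funext j
      rw [← hcast]
      rfl
    rw [h4, h3]
    exact hnd
  have hid : ∀ u : Fin N → ℕ, Pool.Agent.W425.PN.Idn m (fun j => ((cc j : ℤ) : ℚ))
      (Finset.univ.filter fun j => ∑ i, u i * m j i = gord m u) := fun u =>
    idn_of m (fun j => ((cc j : ℤ) : ℚ)) hnq u
  have hccne : ∀ j, cc j ≠ 0 := by
    intro j
    refine Fin.addCases (fun j => ?_) (fun l => ?_) j
    · rw [hcc, Fin.append_left]; exact hcne j
    · rw [hcc, Fin.append_right]
      exact mem_support_iff.1 (h.support.equivFin.symm l).2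
  have hminj : Function.Injective m := by
    intro j j'
    refine Fin.addCases (fun j => ?_) (fun l => ?_) j <;>
      refine Fin.addCases (fun j' => ?_) (fun l' => ?_) j'
    · rw [hm, Fin.append_left, Fin.append_left]
      intro h3
      rw [hv h3]
    · rw [hm, Fin.append_left, Fin.append_right]
      intro h3
      exact absurd (fun x => (congrFun h3 x).symm)
        (hvh _ (h.support.equivFin.symm l').2 j)
    · rw [hm, Fin.append_left, Fin.append_right]
      intro h3
      exact absurd (fun x => congrFun h3 x) (hvh _ (h.support.equivFin.symm l).2 j')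
    · rw [hm, Fin.append_right, Fin.append_right]
      intro h3
      have h4 : (h.support.equivFin.symm l) = (h.support.equivFin.symm l') :=
        Subtype.ext (Finsupp.ext fun x => congrFun h3 x)
      rw [h.support.equivFin.symm.injective h4]
  have hf : spa v c + h = ∑ j, MvPolynomial.C (cc j) * ∏ i, MvPolynomial.X i ^ m j i := by
    rw [Fin.sum_univ_add]
    simp only [hm, hcc, Fin.append_left, Fin.append_right]
    rw [← h_eqZ h]
    rfl
  have hk : 0 < r + h.support.card := by omega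
  have hmv : ∀ j, ∃ x, m x = v j := fun j => ⟨Fin.castAdd _ j, by rw [hm, Fin.append_left]⟩
  have hmull : ∀ x, InC v Finset.univ (m x) := by
    intro x
    refine Fin.addCases (fun j => ?_) (fun l => ?_) x
    · rw [hm, Fin.append_left]
      exact inC_self v _ j (Finset.mem_univ _)
    · rw [hm, Fin.append_right]
      exact hull _ (h.support.equivFin.symm l).2
  intro p hpp T₀ μ hμ hP hns b hbf
  have hmap : MvPolynomial.map (Int.castRingHom ℂ) (spa v c + h) =
      spa v (fun j => ((cQ j : ℚ) : ℂ)) + MvPolynomial.map (algebraMap ℚ ℂ) hQ := by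
    rw [map_add, hhQ, MvPolynomial.map_map]
    congr 1
    unfold spa
    simp [hcQ]
  rw [hmap] at hbf
  obtain ⟨h3, h4⟩ := hb b hbf
  obtain ⟨α, hα⟩ := ratEP hk m cc hccne hid _ hf hpp T₀ μ hμ hP
  have hcast2 : ((-Real.log ‖T₀‖ / Real.log p : ℝ) : ℂ) = (α : ℂ) := by
    rw [hα]
    push_cast
    rfl
  rw [hcast2]
  by_cases hα1 : α = -1
  · rw [hα1]
    push_cast
    exact h3
  · by_contra hne0
    have hnHP : ¬ HP v hQ α 0 := by
      intro hHP
      have h5 := hb0 b ((bfun_iff _ _).1 hbf) α _ hHP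
      rw [zero_add, pow_one, Polynomial.dvd_iff_isRoot] at h5
      exact hne0 h5
    obtain ⟨k', m', θ, pol, hi', hma, hmb, hrel, hpe, hHS⟩ := faces3 hN3 v hv hv0 hQ hhq m
      hminj hmv hmull (-α) (hns.imp id fun h6 h7 => h6 (by
        rw [hα]
        have h8 : α = -2 := by linarith
        rw [h8]
        norm_num)) (fun h6 => hα1 (by linarith)) (by rw [neg_neg]; exact hnHP)
    rw [neg_neg] at hpe
    have hpol0 : pol ≠ 0 := by
      rintro rfl
      exact hpe Polynomial.eval_zero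
    have h5 := ndEP2 hk m hminj m' hi' hma hmb cc hccne hid _ hf hpp T₀ μ hμ hP pol hpol0 θ hrel
      (by
        have h6 : Real.log ‖T₀‖ / Real.log p = ((-α : ℚ) : ℝ) := by
          push_cast
          rw [← hα]
          ring
        rw [h6]
        exact hHS)
    rw [hcast2, Polynomial.rootMultiplicity_eq_zero] at h5
    · omega
    · intro h6
      rw [Polynomial.IsRoot, Polynomial.eval_mul] at h6
      rcases mul_eq_zero.1 h6 with h7 | h7
      · rw [Polynomial.eval_add, Polynomial.eval_X, Polynomial.eval_one] at h7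
        apply hα1
        have h8 : ((α + 1 : ℚ) : ℂ) = 0 := by
          push_cast
          exact h7
        have h9 : α + 1 = 0 := by exact_mod_cast h8
        linarith
      · exact hpe h7

/-- removing the monomials of the `v j` from `h` -/
theorem gen_shift (v : Fin r → Fin N → ℕ) (hv : Function.Injective v)
    (h : MvPolynomial (Fin N) ℤ) (Q : MvPolynomial (Fin N) ℤ → Prop)
    (H : ∀ h0 : MvPolynomial (Fin N) ℤ, (∀ w ∈ h0.support, w ∈ h.support) →
      (∀ w ∈ h0.support, ∀ j, ¬ ∀ x, w x = v j x) → ∃ g : MvPolynomial (Fin r) ℚ, g ≠ 0 ∧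
        ∀ c : Fin r → ℤ, eval (fun j => (c j : ℚ)) g ≠ 0 → Q (spa v c + h0)) :
    ∃ g : MvPolynomial (Fin r) ℚ, g ≠ 0 ∧ ∀ c : Fin r → ℤ,
      eval (fun j => (c j : ℚ)) g ≠ 0 → Q (spa v c + h) := by
  classical
  set cf : Fin r → ℤ := fun j => coeff (Finsupp.equivFunOnFinite.symm (v j)) h with hcf
  set h0 : MvPolynomial (Fin N) ℤ := h - spa v cf with hh0
  set hQ : MvPolynomial (Fin N) ℚ := MvPolynomial.map (Int.castRingHom ℚ) h with hhQ
  have hcof : cof v hQ = fun j => ((cf j : ℤ) : ℚ) := by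
    funext j
    show coeff _ hQ = _
    rw [hhQ, coeff_map]
    rfl
  have hmap0 : MvPolynomial.map (Int.castRingHom ℚ) h0 = hz v hQ := by
    unfold hz
    rw [hh0, map_sub, hcof]
    congr 1
    unfold spa
    simp
  have hs0 : ∀ w ∈ h0.support, w ∈ (hz v hQ).support := by
    intro w hw
    rw [mem_support_iff] at hw ⊢
    rw [← hmap0, coeff_map]
    intro h1
    apply hw
    have h2 : ((coeff w h0 : ℤ) : ℚ) = 0 := h1
    exact_mod_cast h2
  have hs1 : ∀ w ∈ h0.support, w ∈ h.support := fun w hw =>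
    MvPolynomial.support_map_subset _ _ ((hz_support v hv hQ).1 w (hs0 w hw))
  obtain ⟨g, hg, hgc⟩ := H h0 hs1 (fun w hw => (hz_support v hv hQ).2 w (hs0 w hw))
  refine ⟨shf (cof v hQ) g, shf_ne _ _ hg, fun c hc => ?_⟩
  have h1 := hgc (fun j => c j + cf j) (by
    intro h2
    apply hc
    have h3 := shf_eval (K := ℚ) (cof v hQ) g (fun j => (c j : ℚ))
    rw [← coe_aeval_eq_eval] at h2 ⊢
    rw [← h2]
    rw [hcof] at h3 ⊢
    have h4 : (fun j => (((c j + cf j : ℤ)) : ℚ)) =
        fun j => (c j : ℚ) + algebraMap ℚ ℚ ((cf j : ℤ) : ℚ) := by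
      funext j
      push_cast
      rfl
    rw [h4]
    exact h3)
  have heq : spa v c + h = spa v (fun j => c j + cf j) + h0 := by
    have h5 : spa v (fun j => c j + cf j) = spa v c + spa v cf := by
      unfold spa
      rw [← Finset.sum_add_distrib]
      refine Finset.sum_congr rfl fun j _ => ?_
      rw [C_add, add_mul]
    rw [h5, hh0]
    ring
  rw [heq]
  exact h1

theorem gen3c_0 (hr : 0 < r)
    (v : Fin r → Fin N → ℕ) (hv : Function.Injective v) (j0 : Fin r) (hj0 : v j0 = 0) (j1 : Fin r)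
    (hj1 : v j1 ≠ 0)
    (h : MvPolynomial (Fin N) ℤ) (hh : ∀ w ∈ h.support, NP v w)
    (hvh : ∀ w ∈ h.support, ∀ j, ¬ ∀ x, w x = v j x) :
    ∃ g : MvPolynomial (Fin r) ℚ, g ≠ 0 ∧ ∀ c : Fin r → ℤ,
      eval (fun j => (c j : ℚ)) g ≠ 0 → ConE (NoSp v) (spa v c + h) := by
  classical
  have hne : NeZero r := ⟨by omega⟩
  set hQ : MvPolynomial (Fin N) ℚ := MvPolynomial.map (Int.castRingHom ℚ) h with hhQ
  have hsub : ∀ w ∈ hQ.support, w ∈ h.support := fun w hw =>
    MvPolynomial.support_map_subset _ _ hw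
  have hsup : ∀ w ∈ h.support, w ∈ hQ.support := by
    intro w hw
    rw [mem_support_iff] at hw ⊢
    rw [hhQ, coeff_map]
    intro h0
    apply hw
    have h1 : ((coeff w h : ℤ) : ℚ) = 0 := h0
    exact_mod_cast h1
  have hhq : ∀ w ∈ hQ.support, NP v w := fun w hw => hh w (hsub w hw)
  obtain ⟨g2, hg2, h2⟩ := gen_nonDF pF4 hr v (weZ h) (we_npZ v h hh)
    (fun l => ((wcZ h l : ℤ) : ℚ))
  have hg3 : (∏ j : Fin r, (X j : MvPolynomial (Fin r) ℚ)) ≠ 0 :=
    Finset.prod_ne_zero_iff.2 fun j _ => X_ne_zero j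
  refine ⟨g2 * ∏ j : Fin r, (X j : MvPolynomial (Fin r) ℚ),
    mul_ne_zero hg2 hg3, fun c hc'' => ?_⟩
  set cQ : Fin r → ℚ := fun j => (c j : ℚ) with hcQ
  rw [map_mul] at hc''
  have hc' := left_ne_zero_of_mul hc''
  have hcne : ∀ j, c j ≠ 0 := by
    have h5 := right_ne_zero_of_mul hc''
    rw [map_prod] at h5
    intro j
    have h6 := Finset.prod_ne_zero_iff.1 h5 j (Finset.mem_univ j)
    rw [eval_X] at h6
    intro h7
    apply h6
    simp only [hcQ]
    rw [h7]
    rfl
  have hc : aeval (fun j => ((cQ j : ℚ) : ℂ)) g2 ≠ 0 := by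
    have h0 : aeval (fun j => ((cQ j : ℚ) : ℂ)) g2 =
        ((eval cQ g2 : ℚ) : ℂ) := by
      have h5 := aeval_algebraMap_apply ℂ cQ g2
      exact h5
    rw [h0]
    exact_mod_cast hc'
  have hnd := h2 _ hc
  set m : Fin (r + h.support.card) → Fin N → ℕ := Fin.append v (weZ h) with hm
  set cc : Fin (r + h.support.card) → ℤ := Fin.append c (wcZ h) with hcc
  have hcast : (fun j => ((cc j : ℤ) : ℚ)) = Fin.append cQ (fun l => ((wcZ h l : ℤ) : ℚ)) :=
    append_map (fun q : ℤ => (q : ℚ)) c (wcZ h)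
  have hnq : NonD m (fun j => algebraMap ℚ ℂ ((cc j : ℤ) : ℚ)) := by
    have h3 := append_map (fun q : ℚ => (q : ℂ)) cQ (fun l => ((wcZ h l : ℤ) : ℚ))
    have h4 : (fun j => algebraMap ℚ ℂ ((cc j : ℤ) : ℚ)) =
        fun j => (((Fin.append cQ (fun l => ((wcZ h l : ℤ) : ℚ)) j : ℚ)) : ℂ) := by
      funext j
      rw [← hcast]
      rfl
    rw [h4, h3]
    exact hnd
  have hid : ∀ u : Fin N → ℕ, Pool.Agent.W425.PN.Idn m (fun j => ((cc j : ℤ) : ℚ))
      (Finset.univ.filter fun j => ∑ i, u i * m j i = gord m u) := fun u =>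
    idn_of m (fun j => ((cc j : ℤ) : ℚ)) hnq u
  have hccne : ∀ j, cc j ≠ 0 := by
    intro j
    refine Fin.addCases (fun j => ?_) (fun l => ?_) j
    · rw [hcc, Fin.append_left]; exact hcne j
    · rw [hcc, Fin.append_right]
      exact mem_support_iff.1 (h.support.equivFin.symm l).2
  have hminj : Function.Injective m := by
    intro j j'
    refine Fin.addCases (fun j => ?_) (fun l => ?_) j <;>
      refine Fin.addCases (fun j' => ?_) (fun l' => ?_) j'
    · rw [hm, Fin.append_left, Fin.append_left]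
      intro h3
      rw [hv h3]
    · rw [hm, Fin.append_left, Fin.append_right]
      intro h3
      exact absurd (fun x => (congrFun h3 x).symm)
        (hvh _ (h.support.equivFin.symm l').2 j)
    · rw [hm, Fin.append_left, Fin.append_right]
      intro h3
      exact absurd (fun x => congrFun h3 x) (hvh _ (h.support.equivFin.symm l).2 j')
    · rw [hm, Fin.append_right, Fin.append_right]
      intro h3
      have h4 : (h.support.equivFin.symm l) = (h.support.equivFin.symm l') :=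
        Subtype.ext (Finsupp.ext fun x => congrFun h3 x)
      rw [h.support.equivFin.symm.injective h4]
  have hf : spa v c + h = ∑ j, MvPolynomial.C (cc j) * ∏ i, MvPolynomial.X i ^ m j i := by
    rw [Fin.sum_univ_add]
    simp only [hm, hcc, Fin.append_left, Fin.append_right]
    rw [← h_eqZ h]
    rfl
  have hk : 0 < r + h.support.card := by omega
  intro p hpp T₀ μ hμ hP hns b hbf
  have hmap : MvPolynomial.map (Int.castRingHom ℂ) (spa v c + h) =
      spa v (fun j => ((cQ j : ℚ) : ℂ)) + MvPolynomial.map (algebraMap ℚ ℂ) hQ := by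
    rw [map_add, hhQ, MvPolynomial.map_map]
    congr 1
    unfold spa
    simp [hcQ]
  rw [hmap] at hbf
  have hb1 : b.eval (-1) = 0 := bneg1 _ (deg_ne (algebraMap ℚ ℂ) v hv hQ
    (fun w hw => hvh w (hsub w hw)) _ j1 hj1 (by
      simp only [hcQ]
      exact_mod_cast hcne j1)) b hbf
  have : Fact p.Prime := ⟨hpp⟩
  let _ : MeasurableSpace (Fin N → ℤ_[p]) := borel _
  have _ : BorelSpace (Fin N → ℤ_[p]) := ⟨rfl⟩
  obtain ⟨L, w, hL1, hwn, hcore⟩ := core_nd (p := p) hk m cc hccne hid _ hf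
  set F : Fn (r + h.support.card) := fun y => PhiT L m w (fun j => y j +
    ((cc j : ℤ_[p]).valuation : ℤ)) with hF
  set γ0 : ℕ := (cc (Fin.castAdd _ j0) : ℤ_[p]).valuation with hγ0
  have hzero : ∀ t : ℕ, L + γ0 < t → aK p m F t = 0 := by
    intro t ht
    unfold aK
    have h5 : ∀ x : Fin N → ℕ, (p : ℂ)⁻¹ ^ (∑ i, x i) *
        F (fun j => ∑ i, (x i : ℤ) * (m j i : ℤ) - ((t : ℕ) : ℤ)) = 0 := by
      intro x
      have h6 : F (fun j => ∑ i, (x i : ℤ) * (m j i : ℤ) - ((t : ℕ) : ℤ)) = 0 := by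
        simp only [hF]
        refine PhiT_neg L m w _ ⟨Fin.castAdd _ j0, ?_⟩
        have h7 : ∑ i, (x i : ℤ) * (m (Fin.castAdd _ j0) i : ℤ) = 0 := by
          refine Finset.sum_eq_zero fun i _ => ?_
          rw [hm, Fin.append_left, hj0]
          simp
        rw [h7]
        push_cast
        omega
      rw [h6, mul_zero]
    simp only [h5, tsum_zero]
  have hA : ((1 : Polynomial ℂ) : PowerSeries ℂ) * PowerSeries.mk (fun t : ℕ => aK p m F t) =
      ((PowerSeries.trunc (L + γ0 + 1) (PowerSeries.mk (fun t : ℕ => aK p m F t)) :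
        Polynomial ℂ) : PowerSeries ℂ) := by
    rw [Polynomial.coe_one, one_mul]
    ext t
    rw [Polynomial.coeff_coe, PowerSeries.coeff_trunc, PowerSeries.coeff_mk]
    split_ifs with ht
    · rfl
    · exact hzero t (by omega)
  obtain ⟨R, hR⟩ := hcore 1 _ hA
  have h5 := mult_le hpp hP 1 (by simp) 0 R (by
    rw [pow_zero, mul_one]
    exact hR)
  rw [add_zero] at h5
  have hX10 : (Polynomial.X + 1 : Polynomial ℂ) ≠ 0 := by
    intro h
    have := congrArg (Polynomial.eval 0) h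
    simp at this
  have h6 := (Polynomial.rootMultiplicity_pos hX10).1 (lt_of_lt_of_le hμ h5)
  rw [Polynomial.IsRoot, Polynomial.eval_add, Polynomial.eval_X, Polynomial.eval_one] at h6
  rw [eq_neg_of_add_eq_zero_left h6]
  exact hb1

/-- **At most three variables, generic coefficients, every prime.** -/
theorem gen3E (hN3 : N ≤ 3)
    (v : Fin r → Fin N → ℕ) (hv : Function.Injective v) (hv1 : ∃ j, v j ≠ 0)
    (h : MvPolynomial (Fin N) ℤ) (hull : ∀ w ∈ h.support, InC v Finset.univ (fun i => w i)) :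
    ∃ g : MvPolynomial (Fin r) ℚ, g ≠ 0 ∧ ∀ c : Fin r → ℤ,
      eval (fun j => (c j : ℚ)) g ≠ 0 → ConE (NoSp v) (spa v c + h) := by
  obtain ⟨j1, hj1⟩ := hv1
  have hr : 0 < r := Fin.pos j1
  refine gen_shift v hv h (fun f => ConE (NoSp v) f) fun h0 hs0 hvh => ?_
  by_cases hv0 : ∀ j, v j ≠ 0
  · exact gen3_0 hN3 hr v hv hv0 h0 (fun w hw => hull w (hs0 w hw)) hvh
  · push Not at hv0
    obtain ⟨j0, hj0⟩ := hv0
    refine gen3c_0 hr v hv j0 hj0 j1 hj1 h0 (fun w hw => ?_) hvh
    obtain ⟨l, h1, -, h3, h4⟩ := hull w (hs0 w hw)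
    exact ⟨l, h1, h3, fun i => (h4 i).le⟩

end Pool.Agent.TH216.EP
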